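import Pool.Agent.Lib.MP_305fdd_al.CZ.D.Stm

/-!
# MP_305fdd_al, `C_m * Z`, section D: from the statements of `StmH.lean` to those of `Stm.lean`
-/

set_option autoImplicit false

namespace Pool.Agent.CZD

open Pool.Agent.F2 Pool.Agent.F2Ch Pool.Agent.F2D Pool.Agent.CZ Pool.Agent.CC
open Pool.Agent.PSL2Z (TreeAct)

theorem gd_of {m : ℕ} {G : Type} [Group G] {c : G} {δ : G →* Multiplicative (ZMod m)}
    {ν : G →* Multiplicative ℤ} (hhz : CZ.S_hz) (h : Cls m G c δ ν) : GD m G δ ν where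
  fg := h.fg
  surj := h.surj
  mul := hhz m G c δ ν h

theorem onto_of' {m : ℕ} {G : Type} [Group G] {c : G} {δ : G →* Multiplicative (ZMod m)}
    {ν : G →* Multiplicative ℤ} (hcen : S_cen) (h : Cls m G c δ ν) (ho : OntoW m G) :
    Onto m G c := by
  obtain ⟨f, hf⟩ := ho
  refine ⟨f, hf, hcen m h.two_le _ fun w => ?_⟩
  obtain ⟨g, rfl⟩ := hf w
  rw [← map_mul, ← map_mul, h.c_comm]

theorem cl_of (hCL : S_CL) (hhz : CZ.S_hz) (hcen : S_cen) : CZ.S_cl := by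
  intro m G _ c δ ν hC t h1 h2
  refine onto_of' hcen hC (hCL m G t.V δ ν t.X (gd_of hhz hC) t.ta.tree
    (fun g u v huv => t.ta.adj g u v huv) (fun v l hl => h1 l ⟨v, hl⟩) ?_)
  intro u v huv l hlu hlv
  exact h2 _ ⟨u, v, huv, rfl⟩ l ⟨hlu, hlv⟩

theorem tl_of (hTL : S_TL) (hhz : CZ.S_hz) (hcen : S_cen) : CZ.S_tl := by
  intro m G _ c δ ν hC t h1 h2
  refine onto_of' hcen hC (hTL m G t.V δ ν t.X t.ty (gd_of hhz hC) t.ta ?_ ?_)
  · obtain ⟨l, ⟨v, hv⟩, hl⟩ := h1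
    exact ⟨v, l, hv, hl⟩
  · intro u v l l' hl hl' he hne
    have := h2 l l' ⟨u, hl⟩ ⟨v, hl'⟩ hne (he ▸ hne) 1 1 (by rw [zpow_one, zpow_one, he])
    rwa [zpow_one, zpow_one] at this

theorem two_of (h : S_tw) : CZ.S_two := by
  intro p m _ k K G _ _ _ _ _ _ C l0 hl0 hne l hl
  exact h p m k K G C l0 hl0 hne l hl

theorem ex_of (hEX : S_EX) (how : S_ow) : CZ.S_ex := by
  intro p m _ k K G _ _ _ _ _ _ C hU δ hC hδ t ht
  refine how p m k K G C (hEX p m k K G C t.V t.X t.ta.tree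
    (fun g u v huv => t.ta.adj g u v huv) (fun v l hl => ht l ⟨v, hl⟩) ?_)
  intro g u hu u' hu' h1 h2
  exact hU g u u' hu hu' h1 h2

theorem dl_of (hgd : S_gd) : CZ.S_dl := by
  intro p m _ k K G _ _ _ _ _ _ C
  obtain ⟨δ, hG, hδ⟩ := hgd p m k K G C
  refine ⟨δ, ⟨C.two_le, C.fg, C.c_comm, C.c_sq, ?_, hG.surj, ?_⟩, hδ⟩
  · rw [hδ, C.χ_c]
    exact neg_one_sq
  · intro g h1 h2
    rw [hδ] at h1
    have h3 : ((C.χ g : kˣ) : k) ^ 2 = 1 := by
      rw [← Units.val_pow_eq_pow_val, h1, Units.val_one]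
    have h5 : (((C.χ g : kˣ) : k) - 1) * (((C.χ g : kˣ) : k) + 1) = 0 := by
      linear_combination h3
    rcases mul_eq_zero.1 h5 with h4 | h4
    · exact Or.inl (C.ker g (Units.ext (sub_eq_zero.1 h4)) h2)
    · right
      refine C.ker _ ?_ ?_
      · rw [map_mul, C.χ_c]
        apply Units.ext
        rw [Units.val_mul, Units.val_neg, Units.val_one]
        linear_combination -h4
      · rw [map_mul, C.ν_c, one_mul, h2]

theorem rio_of (hio : S_io) (hiR : S_iR) : CZ.S_rio := by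
  intro p m _ k K G _ _ _ _ _ _ C
  refine ⟨fun f hf => (hio p m k K G C f hf).1, ?_, ?_, hiR p m k K G C⟩
  · intro f hf
    have hf' : f ∈ Algebra.adjoin k (Set.range C.T) := by rw [C.adj]; exact hf
    refine Algebra.adjoin_induction (p := fun f _ => ∃ g ∈ C.B, C.ι g = f) ?_ ?_ ?_ ?_ hf'
    · rintro _ ⟨g, rfl⟩
      exact ⟨C.T g, C.T_mem g, C.ι_T g⟩
    · intro r
      obtain ⟨c, hc⟩ := IsAlgClosed.exists_pow_nat_eq r (Fact.out (p := p.Prime)).pos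
      exact ⟨algebraMap k K c, C.B.algebraMap_mem c, by rw [C.ι_k, hc]⟩
    · rintro x y _ _ ⟨a, ha, rfl⟩ ⟨b, hb, rfl⟩
      exact ⟨a + b, C.B.add_mem ha hb, map_add _ _ _⟩
    · rintro x y _ _ ⟨a, ha, rfl⟩ ⟨b, hb, rfl⟩
      exact ⟨a * b, C.B.mul_mem ha hb, map_mul _ _ _⟩
  · intro f h h' n
    obtain ⟨h1, h2⟩ := hio p m k K G C f h
    rw [h2 (-n), neg_neg]

end Pool.Agent.CZD
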