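import Pool.Agent.Lib.MP_305fdd_al.CZ.Defs
import Pool.Agent.Lib.MP_305fdd_al.F2.D.StmB
import Pool.Agent.Lib.MP_305fdd_al.CC.Fund
import Pool.Agent.Lib.MP_305fdd_al.CC.HomExt

/-!
# MP_305fdd_al (`C_m * Z`), section D: trees. Definitions
-/

set_option autoImplicit false

namespace Pool.Agent.CZ

open Pool.Agent.PSL2Z (TreeAct)
open Pool.Agent.CC (Fund)

/-- A tree with an action of `G` which preserves the types of the vertices, and on which `c` acts
trivially. -/
structure GTree (G : Type) [Group G] (c : G) where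
  V : Type
  act : MulAction G V
  X : SimpleGraph V
  ty : V → Bool
  ne : Nonempty V
  ta : TreeAct G V X ty
  cfix : ∀ v : V, c • v = v

attribute [instance] GTree.act GTree.ne

namespace GTree

variable {G : Type} [Group G] {c : G}

/-- `l` fixes a vertex -/
def Ell (t : GTree G c) (l : G) : Prop := ∃ v : t.V, l • v = v

/-- `S` is the stabiliser of an edge -/
def Edg (t : GTree G c) (S : Set G) : Prop :=
  ∃ a b : t.V, t.X.Adj a b ∧ S = {l | l • a = a ∧ l • b = b}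

/-- a map of trees -/
structure Map (t t' : GTree G c) (j : t.V → t'.V) : Prop where
  inj : Function.Injective j
  smul : ∀ (g : G) (v : t.V), j (g • v) = g • j v
  adj : ∀ a b, t.X.Adj a b → t'.X.Adj (j a) (j b)

end GTree

/-- THE ALGEBRAIC SITUATION: `(δ, ν)` is the class in `C_m × ℤ` -/
structure Cls (m : ℕ) (G : Type) [Group G] (c : G) (δ : G →* Multiplicative (ZMod m))
    (ν : G →* Multiplicative ℤ) : Prop where
  two_le : 2 ≤ m
  fg : Group.FG G
  c_comm : ∀ g, c * g = g * c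
  c_sq : c * c = 1
  c_δ : δ c = 1
  surj : ∀ x n, ∃ g, δ g = x ∧ ν g = n
  ker : ∀ g, δ g = 1 → ν g = 1 → g ∈ commutator G ∨ c * g ∈ commutator G

/-- `a g = t (e g)`, the diagonal coefficient with respect to the idempotent `e` -/
def aa {G 𝒜 K : Type} [Group G] [Field K] [Ring 𝒜] [Algebra K 𝒜] (j : G →* 𝒜) (t : 𝒜 →ₗ[K] K)
    (e : 𝒜) (g : G) : K := t (e * j g)

/-- The algebra of the pseudo-character and the idempotent `e` of the exact element `l0`,
`j l0 = z0 e + z0⁻¹ (1 - e)`, `z0 = χ l0`, `z0 ^ 2 ≠ 1`. -/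
structure ExA {p m : ℕ} [Fact p.Prime] {k K G : Type} [Field k] [CharP k p] [IsAlgClosed k]
    [Field K] [Algebra k K] [Group G] (C : Core p m k K G) (l0 : G) {𝒜 : Type} [Ring 𝒜]
    [Algebra K 𝒜] (j : G →* 𝒜) (t : 𝒜 →ₗ[K] K) (e : 𝒜) : Prop where
  pa : F2D.PAlg C.T j t
  ex : C.Ex l0
  ne : C.χ l0 ^ 2 ≠ 1
  idem : e * e = e
  te : t e = 1
  l0 : j l0 = algebraMap k K (C.χ l0 : k) • e + algebraMap k K ((C.χ l0)⁻¹ : kˣ) • (1 - e)
  mem : ∀ g, aa j t e g ∈ C.B
  res : ∀ g, C.res ⟨aa j t e g, mem g⟩ =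
    AddMonoidAlgebra.single (-(Multiplicative.toAdd (C.ν g))) (C.χ g : k)
  sum : ∀ g, aa j t e g + aa j t e g⁻¹ = C.T g
  io : ∀ g, C.ι (aa j t e g) = aa j t e g⁻¹
  /-- `F ι(F) = Θ Θ` -/
  FF : ∀ x y, (aa j t e (x * y) - aa j t e x * aa j t e y) *
    C.ι (aa j t e (x * y) - aa j t e x * aa j t e y) =
      (1 - aa j t e x * aa j t e x⁻¹) * (1 - aa j t e y * aa j t e y⁻¹)

end Pool.Agent.CZ
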