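import Pool.Agent.Lib.MP_305fdd_al.CZ.Defs
import Pool.Agent.Lib.MP_305fdd_al.CC.Fund
import Pool.Agent.Lib.MP_305fdd_al.CC.HomExt
import Pool.Agent.Lib.MP_305fdd_al.F2.D.Main

/-!
# MP_305fdd_al, `C_m * Z`, section D (trees): definitions
-/

set_option autoImplicit false

namespace Pool.Agent.CZD

open Pool.Agent.F2 Pool.Agent.F2Ch Pool.Agent.F2D Pool.Agent.CZ Pool.Agent.CC
open Pool.Agent.PSL2Z (TreeAct)

/-- the free product `C_m * Z` -/
abbrev WW (m : ℕ) : Type := Monoid.Coprod (Multiplicative (ZMod m)) (Multiplicative ℤ)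

/-- `G` maps onto `C_m * Z` -/
def OntoW (m : ℕ) (G : Type) [Group G] : Prop := ∃ f : G →* WW m, Function.Surjective f

/-- the element `δ h` in `C_m * Z` -/
def dd {m : ℕ} {G : Type} [Group G] (δ : G →* Multiplicative (ZMod m)) (h : G) : WW m :=
  Monoid.Coprod.inl (δ h)

/-- the generator of `Z` in `C_m * Z` -/
def yy (m : ℕ) : WW m := Monoid.Coprod.inr (Multiplicative.ofAdd 1)

/-- what we need of the group: `δ : G → C_m` and `ν : G → Z`, together onto, and every
homomorphism to `Z` is a multiple of `ν` -/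
structure GD (m : ℕ) (G : Type) [Group G] (δ : G →* Multiplicative (ZMod m))
    (ν : G →* Multiplicative ℤ) : Prop where
  fg : Group.FG G
  surj : ∀ (d : Multiplicative (ZMod m)) (n : Multiplicative ℤ), ∃ g, δ g = d ∧ ν g = n
  mul : ∀ f : G →* Multiplicative ℤ, ∃ a : ℤ, ∀ g, f g = ν g ^ a

section
variable {G V : Type} [Group G] [MulAction G V]

/-- `(u, v)` is a translate of `(a, b)` -/
def Orb (G : Type) {V : Type} [Group G] [MulAction G V] (a b u v : V) : Prop :=
  ∃ h : G, h • a = u ∧ h • b = v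

/-- adjacent, but the edge is not a translate of the edge from `a` to `b` (in any direction) -/
def NE (G : Type) {V : Type} [Group G] [MulAction G V] (X : SimpleGraph V) (a b u v : V) : Prop :=
  X.Adj u v ∧ ¬ Orb G a b u v ∧ ¬ Orb G a b v u

/-- `Y` is a finite connected set of representatives of the vertices -/
structure Tr (G : Type) {V : Type} [Group G] [MulAction G V] (X : SimpleGraph V)
    (Y : Finset V) : Prop where
  nonempty : Y.Nonempty
  conn : (X.induce (Y : Set V)).Connected
  ineq : ∀ u ∈ Y, ∀ v ∈ Y, ∀ g : G, g • u = v → u = v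
  cover : ∀ v, ∃ y ∈ Y, ∃ g : G, g • y = v

end

/-- `(V', X', ty')` is (isomorphic to) an invariant subtree of `(V, X)` -/
structure Sub {G V V' : Type} [Group G] [MulAction G V] [MulAction G V'] (X : SimpleGraph V)
    (X' : SimpleGraph V') (j : V' → V) : Prop where
  inj : Function.Injective j
  smul : ∀ (g : G) (v : V'), j (g • v) = g • j v
  adj : ∀ u v, X'.Adj u v → X.Adj (j u) (j v)

/-- `t (e g)` for the idempotent `e = (l - z⁻¹) / (z - z⁻¹)` of the algebra of `T` -/
noncomputable def al {G K : Type} [Group G] [Field K] (T : G → K) (l : G) (z : K) (g : G) : K :=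
  (T (l * g) - z⁻¹ * T g) / (z - z⁻¹)

/-- `t (e g (1 - e) h)` -/
def Fe {G K : Type} [Group G] [Field K] (a : G → K) (g h : G) : K := a (g * h) - a g * a h

section
variable {p m : ℕ} [Fact p.Prime] {k K G : Type} [Field k] [CharP k p] [IsAlgClosed k]
  [Field K] [Algebra k K] [Group G]

/-- the eigenvalue of `l` as an element of `K` -/
def zl (C : Core p m k K G) (l : G) : K := algebraMap k K (C.χ l : k)

/-- `a_l : G → K` -/
noncomputable def aC (C : Core p m k K G) (l : G) : G → K := al C.T l (zl C l)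

/-- `Θ_l (x) = 1 - a_l (x) a_l (x⁻¹)` -/
noncomputable def Th (C : Core p m k K G) (l : G) (x : G) : K := 1 - aC C l x * aC C l x⁻¹

end

end Pool.Agent.CZD
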