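import Pool.Agent.Lib.MP_305fdd_al.CZ.D.Stm

set_option autoImplicit false

namespace Pool.Agent.CZD

open Pool.Agent.F2 Pool.Agent.F2Ch Pool.Agent.F2D Pool.Agent.CZ Pool.Agent.CC
open Pool.Agent.PSL2Z (TreeAct)

theorem p_CL (hsub : S_sub) (halt : S_alt) (hce : S_ce) (hcg : S_cg) : S_CL := by
  intro m G V _ _ δ ν X hG hT hA hν hδ
  obtain ⟨W, instW, Z, ty, hZ, h1, h2⟩ := hsub G V X hT hA
  obtain ⟨v₀⟩ := hZ.tree.connected.nonempty
  obtain ⟨V', instV, X', ty', j, Y, hX', hS, _, hTr⟩ := halt G W Z ty hG.fg hZ v₀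
  have hνW : ∀ (v : V') (l : G), l • v = v → ν l = 1 := by
    intro v l hl
    have e1 : l • j v = j v := by rw [← hS.smul, hl]
    obtain ⟨u, hu⟩ := h1 l (j v) e1
    have e2 := hν u (l * l) hu
    rw [map_mul] at e2
    have e3 : Multiplicative.toAdd (ν l) + Multiplicative.toAdd (ν l) = 0 := by
      rw [← toAdd_mul, e2, toAdd_one]
    have e4 : Multiplicative.toAdd (ν l) = 0 := by omega
    exact Multiplicative.toAdd.injective (by rw [e4, toAdd_one])
  have hδW : ∀ u v : V', X'.Adj u v → ∀ l : G, l • u = u → l • v = v → δ l = 1 := by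
    intro u v huv l hu hv
    obtain ⟨u₀, w₀, hadj, hst⟩ := h2 (j u) (j v) (hS.adj u v huv)
    obtain ⟨e1, e2⟩ := hst l (by rw [← hS.smul, hu]) (by rw [← hS.smul, hv])
    exact hδ u₀ w₀ hadj l e1 e2
  by_cases hF : Fund (Λ := G) X' Y
  · exfalso
    have htop := Fund.iSup_stab hX' Y hF
    have hle : (⨆ v ∈ Y, MulAction.stabilizer G v) ≤ ν.ker := by
      refine iSup₂_le fun v _ => ?_
      intro l hl
      rw [MonoidHom.mem_ker]
      exact hνW v l (MulAction.mem_stabilizer_iff.1 hl)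
    rw [htop] at hle
    obtain ⟨g, _, hg⟩ := hG.surj 1 (Multiplicative.ofAdd 1)
    have e1 : ν g = 1 := MonoidHom.mem_ker.1 (hle (Subgroup.mem_top g))
    rw [hg] at e1
    have e2 := congrArg Multiplicative.toAdd e1
    simp at e2
  · obtain ⟨a, b, y, g, hab, ha, hy, hb, hne⟩ := hce G V' X' ty' Y hX' hTr hF
    exact hcg m G V' δ ν X' ty' Y hG hX' hTr a b y g hab ha hy hb hne
      (fun h e1 e2 => hδW a b hab h e1 e2)

end Pool.Agent.CZD
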