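import Pool.Agent.Lib.MP_305fdd_al.CZ.D.StmH

/-!
# MP_305fdd_al, `C_m * Z`, section D: [CZD EX] exact trees
-/

set_option autoImplicit false

namespace Pool.Agent.CZD

open Pool.Agent.F2 Pool.Agent.F2Ch Pool.Agent.F2D Pool.Agent.CZ Pool.Agent.CC
open Pool.Agent.PSL2Z (TreeAct)

theorem p_EX (hgd : S_gd) (hCL : S_CL) (htw : S_tw) (hau : S_au) (hag : S_ag)
    (h2co : F2D.S_co) : S_EX := by
  intro p m _ k K G _ _ _ _ _ _ C V _ X hX hXa hEx hU
  obtain ⟨δ, hGD, hδ⟩ := hgd p m k K G C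
  have hcj : ∀ (g l : G) (u : V), l • u = u → (g * l * g⁻¹) • (g • u) = g • u := by
    intro g l u h
    rw [mul_smul, inv_smul_smul, mul_smul, h]
  have hχc : ∀ (g l : G), C.χ (g * l * g⁻¹) = C.χ l := by
    intro g l
    rw [map_mul, map_mul, map_inv, mul_inv_cancel_comm]
  let D : V → V → Prop := fun u v =>
    X.Adj u v ∧ ∃ l : G, l • u = u ∧ l • v = v ∧ C.χ l ^ 2 ≠ 1
  have hDs : ∀ u v, D u v → D v u := fun u v ⟨h, l, h1, h2, h3⟩ => ⟨h.symm, l, h2, h1, h3⟩
  have hDi : ∀ (g : G) (u v : V), D u v → D (g • u) (g • v) := by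
    rintro g u v ⟨h, l, h1, h2, h3⟩
    exact ⟨hXa g u v h, g * l * g⁻¹, hcj g l u h1, hcj g l v h2, by rw [hχc]; exact h3⟩
  obtain ⟨W, _, Z, q, hZ, hZa, hq, hqg, hqr, hZe⟩ :=
    h2co G V X hX hXa D (fun u v h => h.1) hDs hDi
  refine hCL m G W δ C.ν Z hGD hZ hZa ?_ ?_
  · intro a g hg
    obtain ⟨v, rfl⟩ := hq a
    have hr : Relation.ReflTransGen D v (g • v) := (hqr _ _).1 (by rw [hqg, hg])
    by_cases hD : ∃ u, D v u
    · obtain ⟨u, h, l0, h1, h2, h3⟩ := hD
      have hE0 := hEx v l0 h1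
      have hsame : ∀ (y : V) (l l' : G), l • y = y → l' • y = y → C.χ l ^ 2 ≠ 1 →
          C.χ l' ^ 2 ≠ 1 → aC C l' = aC C l := by
        intro y l l' hl hl' hc hc'
        refine hau p m k K G C l l' (hEx y l hl) hc (hEx y l' hl') hc' fun h => ?_
        have hli : l⁻¹ • y = y := by rw [inv_smul_eq_iff, hl]
        have hli' : l'⁻¹ • y = y := by rw [inv_smul_eq_iff, hl']
        have h4 : (l * l' * l⁻¹ * l'⁻¹) • y = y := by
          rw [mul_smul, mul_smul, mul_smul, hli', hli, hl', hl]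
        have h5 := hEx y _ h4
        have h6 : C.χ (l * l' * l⁻¹ * l'⁻¹) = 1 := by
          rw [map_mul, hχc, map_inv]
          simp
        have h7 : C.T (l * l' * l⁻¹ * l'⁻¹) = 2 := by
          rw [h5.2, h6]
          norm_num
        have h8 := htw p m k K G C l0 hE0 h3 _ h7 (l' * l * h)
        rw [← h8]
        congr 1
        group
      have hall : ∀ y, Relation.ReflTransGen D v y → ∀ l : G, l • y = y → C.χ l ^ 2 ≠ 1 →
          aC C l = aC C l0 := by
        intro y hy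
        induction hy with
        | refl =>
          intro l hl hc
          exact hsame v l0 l h1 hl h3 hc
        | tail hy hD' ih =>
          obtain ⟨-, l', h1', h2', h3'⟩ := hD'
          intro l hl hc
          rw [hsame _ l' l h2' hl h3' hc]
          exact ih l' h1' h3'
      have h4 := hall _ hr (g * l0 * g⁻¹) (hcj g l0 v h1) (by rw [hχc]; exact h3)
      obtain ⟨u1, hu1, u2, hu2, h5, h6⟩ := hag p m k K G C l0 hE0 h3 g h4
      exact hU g u1 hu1 u2 hu2 h5 h6
    · rcases Relation.ReflTransGen.cases_head hr with h | ⟨u, hu, -⟩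
      · exact (hEx v g h.symm).1
      · exact absurd ⟨u, hu⟩ hD
  · intro a b hab l hla hlb
    obtain ⟨u, v, huv, hnD, -, -, h4⟩ := hZe a b hab
    obtain ⟨h5, h6⟩ := h4 l hla hlb
    rw [hδ]
    by_contra hc
    exact hnD ⟨huv, l, h5, h6, hc⟩

end Pool.Agent.CZD
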