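import Pool.Agent.Lib.MP_305fdd_al.CZ.D.Stm

set_option autoImplicit false

namespace Pool.Agent.CZD

open Pool.Agent.F2 Pool.Agent.F2Ch Pool.Agent.F2D Pool.Agent.CZ Pool.Agent.CC
open Pool.Agent.PSL2Z (TreeAct)

private theorem FU_const {V A : Type} {X : SimpleGraph V} {Y : Finset V} (F : V → A)
    (hc : (X.induce (Y : Set V)).Connected)
    (h : ∀ u ∈ Y, ∀ w ∈ Y, X.Adj u w → F u = F w) : ∀ u ∈ Y, ∀ w ∈ Y, F u = F w := by
  intro u hu w hw
  obtain ⟨q⟩ := hc.preconnected (⟨u, hu⟩ : (Y : Set V)) ⟨w, hw⟩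
  have key : ∀ (a b : (Y : Set V)), (X.induce (Y : Set V)).Walk a b → F a.1 = F b.1 := by
    intro a b q
    induction q with
    | nil => rfl
    | @cons a b c hab _ ih => exact (h a.1 a.2 b.1 b.2 hab).trans ih
  exact key _ _ q

theorem p_FU (halt : S_alt) (hpot : S_pot) (hce : S_ce) : S_FU := by
  intro m G V _ _ δ ν X ty hG hX v l hl hνl
  obtain ⟨V', instV, X', ty', j, Y, hX', hS, ⟨v', hv'⟩, hTr⟩ := halt G V X ty hG.fg hX v
  have hlv' : l • v' = v' := hS.inj (by rw [hS.smul, hv', hl])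
  have hF : Fund (Λ := G) X' Y := by
    by_contra hF
    obtain ⟨a, b, y, g, hab, ha, hy, hb, hne⟩ := hce G V' X' ty' Y hX' hTr hF
    obtain ⟨F, η, h1, h2, h3⟩ := hpot G V' X' ty' hX' a b hab
    have hconst : ∀ u ∈ Y, ∀ w ∈ Y, F u = F w :=
      FU_const F hTr.conn fun u hu w hw huw => h3 u w (hne u hu w hw huw)
    have hη : η g = Multiplicative.ofAdd 1 := by
      have e1 : F b = η g * F a := by rw [hb, h1, hconst y hy a ha]
      rw [h2, mul_comm (F a)] at e1
      exact (mul_right_cancel e1).symm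
    obtain ⟨α, hα⟩ := hG.mul η
    have hηl : η l = 1 := by
      have e1 := h1 l v'
      rw [hlv'] at e1
      exact (mul_eq_right.1 e1.symm)
    rw [hα] at hηl
    have hα0 : α = 0 := by
      have e1 : α * Multiplicative.toAdd (ν l) = 0 := by
        have e2 := congrArg Multiplicative.toAdd hηl
        rw [toAdd_zpow, toAdd_one, smul_eq_mul] at e2
        exact e2
      rcases mul_eq_zero.1 e1 with h | h
      · exact h
      · exact absurd (Multiplicative.toAdd.injective (by rw [h, toAdd_one])) hνl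
    rw [hα, hα0, zpow_zero] at hη
    have e3 := congrArg Multiplicative.toAdd hη
    simp at e3
  refine ⟨V', instV, X', ty', j, Y, hX', hF, hS, ?_⟩
  obtain ⟨y, hy, h, hh⟩ := hTr.cover v'
  refine ⟨y, hy, h⁻¹ * l * h, ?_, ?_⟩
  · rw [mul_smul, mul_smul, hh, hlv', ← hh, inv_smul_smul]
  · intro e
    apply hνl
    rw [map_mul, map_mul, map_inv, mul_comm (ν h)⁻¹, inv_mul_cancel_right] at e
    exact e

end Pool.Agent.CZD
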