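import Pool.Agent.Lib.MP_305fdd_al.CZ.D.Stm

/-!
# MP_305fdd_al, `C_m * Z`, section D: some `Θ` is a uniformiser at `R`
-/

set_option autoImplicit false

namespace Pool.Agent.CZD

open Pool.Agent.F2 Pool.Agent.F2Ch Pool.Agent.F2D Pool.Agent.CZ Pool.Agent.CC
open Pool.Agent.PSL2Z (TreeAct)

theorem R1_add {K : Type} [Field K] {v : K → ℤ} (hv : IsV v) {x y : K} (hx : Ge v 2 x)
    (hy : Ge v 2 y) : Ge v 2 (x + y) := by
  rcases hx with rfl | hx
  · rw [zero_add]; exact hy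
  rcases hy with rfl | hy
  · rw [add_zero]; exact Or.inr hx
  by_cases h0 : x + y = 0
  · exact Or.inl h0
  by_cases hx0 : x = 0
  · subst hx0; rw [zero_add]; exact Or.inr hy
  by_cases hy0 : y = 0
  · subst hy0; rw [add_zero]; exact Or.inr hx
  exact Or.inr ((le_min hx hy).trans (hv.add x y hx0 hy0 h0))

section
variable {p m : ℕ} [Fact p.Prime] {k K G : Type} [Field k] [CharP k p] [IsAlgClosed k]
  [Field K] [Algebra k K] [Group G]

theorem R1_mul (C : Core p m k K G) {b x : K} (hb : b ∈ C.B) (hx : Ge C.R 2 x) :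
    Ge C.R 2 (b * x) := by
  by_cases h0 : b * x = 0
  · exact Or.inl h0
  have hb0 : b ≠ 0 := left_ne_zero_of_mul h0
  have hx0 : x ≠ 0 := right_ne_zero_of_mul h0
  rcases hx with rfl | hx
  · exact absurd rfl hx0
  right
  rw [C.R_inz.isv.mul b x hb0 hx0]
  have : 0 ≤ C.R b := C.R_nn ⟨b, hb⟩
  linarith

theorem R1_neg (C : Core p m k K G) {x : K} (hx : Ge C.R 2 x) : Ge C.R 2 (-x) := by
  have h := R1_mul C (b := -1) (neg_mem (one_mem C.B)) hx
  rwa [neg_one_mul] at h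

theorem R1_sub (C : Core p m k K G) {x y : K} (hx : Ge C.R 2 x) (hy : Ge C.R 2 y) :
    Ge C.R 2 (x - y) := by
  rw [sub_eq_add_neg]
  exact R1_add C.R_inz.isv hx (R1_neg C hy)

/-- [CZD R1] -/
theorem p_R1 (hr2 : S_r2) (hr3 : S_r3) (hac : S_ac) (haa : S_aa) : S_R1 := by
  intro p m _ k K G _ _ _ _ _ _ C l hl hχ
  by_contra hcon
  push Not at hcon
  obtain ⟨⟨hz0, hzz, hTl⟩, -, hB⟩ := hac p m k K G C l hl hχ
  obtain ⟨a1, a2, -, -, -, -⟩ := haa G K C.T l (zl C l) C.pc hz0 hzz hTl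
  have hF := hr2 p m k K G C l hl hχ hcon
  obtain ⟨g1, hg1, hg1'⟩ := C.surj 1 (one_pow _) 1
  have h3 := hr3 p m k K G C l hl hχ hF g1 hg1 hg1'
  set a : G → K := aC C l with ha
  have a1' : a 1 = 1 := a1
  have a2' : ∀ g, a g + a g⁻¹ = C.T g := a2
  have haB : ∀ g, a g ∈ C.B := fun g => (hB g).1
  have hFG : ∀ x y, Ge C.R 2 (a (x * y) - a x * a y) := by
    intro x y
    by_cases h0 : Fe a x y = 0
    · exact Or.inl h0
    · exact Or.inr (hF x y h0)
  have hiv := C.R_inz.isv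
  let Ψ : (ℤ →₀ k) →ₗ[k] K := Finsupp.linearCombination k (fun n : ℤ => a (g1 ^ n))
  have Ψs : ∀ (n : ℤ) (c : k), Ψ (Finsupp.single n c) = c • a (g1 ^ n) := fun n c =>
    Finsupp.linearCombination_single k c n
  -- the restriction of `Ψ x` to the reducible locus
  have hΨ : ∀ x : ℤ →₀ k, ∃ h : Ψ x ∈ C.B, ∀ n : ℤ, (C.res ⟨Ψ x, h⟩).coeff (-n) = x n := by
    intro x
    induction x using Finsupp.induction_linear with
    | zero =>
      refine ⟨by rw [map_zero]; exact zero_mem _, fun n => ?_⟩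
      have : (⟨Ψ 0, by rw [map_zero]; exact zero_mem _⟩ : C.B) = 0 := Subtype.ext (map_zero Ψ)
      rw [this, map_zero]; rfl
    | add x y hx hy =>
      obtain ⟨h1, h2⟩ := hx
      obtain ⟨h1', h2'⟩ := hy
      refine ⟨by rw [map_add]; exact add_mem h1 h1', fun n => ?_⟩
      have : (⟨Ψ (x + y), by rw [map_add]; exact add_mem h1 h1'⟩ : C.B) =
          ⟨Ψ x, h1⟩ + ⟨Ψ y, h1'⟩ := Subtype.ext (map_add Ψ x y)
      rw [this, map_add, Finsupp.add_apply, ← h2 n, ← h2' n]; rfl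
    | single n c =>
      obtain ⟨h1, h2⟩ := hB (g1 ^ n)
      have hm : Ψ (Finsupp.single n c) ∈ C.B := by
        rw [Ψs]; exact C.B.smul_mem h1 c
      refine ⟨hm, fun n' => ?_⟩
      have : (⟨Ψ (Finsupp.single n c), hm⟩ : C.B) = c • ⟨a (g1 ^ n), h1⟩ := Subtype.ext (Ψs n c)
      rw [this, map_smul, h2]
      have e1 : C.ν (g1 ^ n) = Multiplicative.ofAdd n := by
        rw [map_zpow, hg1', ← ofAdd_zsmul]; simp
      have e2 : ((C.χ (g1 ^ n) : kˣ) : k) = 1 := by rw [map_zpow, hg1, one_zpow]; rfl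
      rw [e1, e2, toAdd_ofAdd, AddMonoidAlgebra.smul_single, smul_eq_mul, mul_one,
        AddMonoidAlgebra.coeff_single, Finsupp.single_apply, Finsupp.single_apply]
      simp only [neg_inj]
  have hmem : ∀ x, Ψ x ∈ C.B := fun x => (hΨ x).1
  -- products
  have hmul : ∀ x y : ℤ →₀ k, ∃ z : ℤ →₀ k, Ge C.R 2 (Ψ x * Ψ y - Ψ z) := by
    intro x y
    induction x using Finsupp.induction_linear with
    | zero => exact ⟨0, Or.inl (by rw [map_zero, zero_mul, sub_zero])⟩
    | add x x' hx hx' =>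
      obtain ⟨z, hz⟩ := hx
      obtain ⟨z', hz'⟩ := hx'
      refine ⟨z + z', ?_⟩
      have : Ψ (x + x') * Ψ y - Ψ (z + z') = (Ψ x * Ψ y - Ψ z) + (Ψ x' * Ψ y - Ψ z') := by
        rw [map_add, map_add]; ring
      rw [this]
      exact R1_add hiv hz hz'
    | single n c =>
      induction y using Finsupp.induction_linear with
      | zero => exact ⟨0, Or.inl (by rw [map_zero, mul_zero, sub_zero])⟩
      | add y y' hy hy' =>
        obtain ⟨z, hz⟩ := hy
        obtain ⟨z', hz'⟩ := hy'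
        refine ⟨z + z', ?_⟩
        have : Ψ (Finsupp.single n c) * Ψ (y + y') - Ψ (z + z') =
            (Ψ (Finsupp.single n c) * Ψ y - Ψ z) + (Ψ (Finsupp.single n c) * Ψ y' - Ψ z') := by
          rw [map_add, map_add]; ring
        rw [this]
        exact R1_add hiv hz hz'
      | single n' c' =>
        refine ⟨Finsupp.single (n + n') (c * c'), ?_⟩
        have : Ψ (Finsupp.single n c) * Ψ (Finsupp.single n' c') -
            Ψ (Finsupp.single (n + n') (c * c')) =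
            algebraMap k K (-(c * c')) * (a (g1 ^ n * g1 ^ n') - a (g1 ^ n) * a (g1 ^ n')) := by
          rw [Ψs, Ψs, Ψs, zpow_add, Algebra.smul_def, Algebra.smul_def, Algebra.smul_def, map_neg,
            map_mul]
          ring
        rw [this]
        exact R1_mul C (C.B.algebraMap_mem _) (hFG _ _)
  -- the subalgebra of the elements congruent to some `Ψ x`
  let S : Subalgebra k K :=
    { carrier := {b | b ∈ C.B ∧ ∃ x, Ge C.R 2 (b - Ψ x)}
      mul_mem' := by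
        rintro b b' ⟨hb, x, hx⟩ ⟨hb', x', hx'⟩
        obtain ⟨z, hz⟩ := hmul x x'
        refine ⟨mul_mem hb hb', z, ?_⟩
        have : b * b' - Ψ z = b' * (b - Ψ x) + (Ψ x * (b' - Ψ x') + (Ψ x * Ψ x' - Ψ z)) := by ring
        rw [this]
        exact R1_add hiv (R1_mul C hb' hx) (R1_add hiv (R1_mul C (hmem x) hx') hz)
      add_mem' := by
        rintro b b' ⟨hb, x, hx⟩ ⟨hb', x', hx'⟩
        refine ⟨add_mem hb hb', x + x', ?_⟩
        have : b + b' - Ψ (x + x') = (b - Ψ x) + (b' - Ψ x') := by rw [map_add]; ring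
        rw [this]
        exact R1_add hiv hx hx'
      algebraMap_mem' := by
        intro c
        refine ⟨C.B.algebraMap_mem c, Finsupp.single 0 c, Or.inl ?_⟩
        rw [Ψs, zpow_zero, a1', Algebra.smul_def, mul_one, sub_self] }
  have hTS : Set.range C.T ⊆ (S : Set K) := by
    rintro _ ⟨g, rfl⟩
    refine ⟨C.T_mem g, Finsupp.single (Multiplicative.toAdd (C.ν g)) (C.χ g : k) +
      Finsupp.single (-(Multiplicative.toAdd (C.ν g))) (C.χ g⁻¹ : k), ?_⟩
    have e1 := h3 g (Multiplicative.toAdd (C.ν g)) (ofAdd_toAdd _).symm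
    have e2 := h3 g⁻¹ (-(Multiplicative.toAdd (C.ν g))) (by
      rw [map_inv, ofAdd_neg, ofAdd_toAdd])
    have e1' : Ge C.R 2 (a g - zl C g * a (g1 ^ (Multiplicative.toAdd (C.ν g)))) :=
      e1.imp sub_eq_zero.2 id
    have e2' : Ge C.R 2 (a g⁻¹ - zl C g⁻¹ * a (g1 ^ (-(Multiplicative.toAdd (C.ν g))))) :=
      e2.imp sub_eq_zero.2 id
    have : C.T g - Ψ (Finsupp.single (Multiplicative.toAdd (C.ν g)) (C.χ g : k) +
        Finsupp.single (-(Multiplicative.toAdd (C.ν g))) (C.χ g⁻¹ : k)) =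
        (a g - zl C g * a (g1 ^ (Multiplicative.toAdd (C.ν g)))) +
        (a g⁻¹ - zl C g⁻¹ * a (g1 ^ (-(Multiplicative.toAdd (C.ν g))))) := by
      rw [map_add, Ψs, Ψs, Algebra.smul_def, Algebra.smul_def, ← a2' g]
      unfold zl
      ring
    rw [this]
    exact R1_add hiv e1' e2'
  have hBS : C.B ≤ S := by
    rw [← C.adj]
    exact Algebra.adjoin_le hTS
  obtain ⟨-, x, hx⟩ := hBS C.κ0.2
  obtain ⟨hxm, hxc⟩ := hΨ x
  have hsub : C.res (C.κ0 - ⟨Ψ x, hxm⟩) = 0 := by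
    by_cases h0 : ((C.κ0 - ⟨Ψ x, hxm⟩ : C.B) : K) = 0
    · have : (C.κ0 - ⟨Ψ x, hxm⟩ : C.B) = 0 := Subtype.ext h0
      rw [this, map_zero]
    · have hx' : Ge C.R 2 ((C.κ0 - ⟨Ψ x, hxm⟩ : C.B) : K) := hx
      rcases hx' with h | h
      · exact absurd h h0
      · exact (C.R_pos _ h0).1 (by linarith)
  rw [map_sub, C.κ0_res, zero_sub, neg_eq_zero] at hsub
  have hx0 : x = 0 := by
    ext n
    rw [← hxc n, hsub]; rfl
  rw [hx0, map_zero, sub_zero] at hx
  rcases hx with h | h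
  · exact C.κ0_ne h
  · rw [C.R_κ0] at h
    omega

end

end Pool.Agent.CZD
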