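import Pool.Agent.Lib.MP_305fdd_al.CZ.D.StmH

/-!
# MP_305fdd_al, `C_m * Z`, section D: [CZD TB] the blown up tree
-/

set_option autoImplicit false

namespace Pool.Agent.CZD

open Pool.Agent.F2 Pool.Agent.F2Ch Pool.Agent.F2D Pool.Agent.CZ Pool.Agent.CC
open Pool.Agent.PSL2Z (TreeAct)
open Pool.Agent.PSL2Z Pool.Agent.PSL2Z.BT
open scoped WithZero

/-- the blown up tree, before the subdivision -/
theorem TB_pre (hTT : S_TT) (h2bu : F2D.S_bu) (h2se : F2D.S_se) (h2mo : F2D.S_mo)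
    (h2va : F2D.S_va) (h2vb : F2D.S_vb) (h2vc : F2D.S_vc) (Λ K Γ Γ' A : Type) [Group Λ] [Field K]
    [AddCommGroup Γ] [LinearOrder Γ] [IsOrderedAddMonoid Γ] [AddCommGroup Γ'] [LinearOrder Γ']
    [IsOrderedAddMonoid Γ'] [Group A] (T : Λ → K) (v : K → Γ) (V : K → Γ') (χ : Λ →* A)
    (hPC : PC T) (hIrr : Irr T) (hv : IsV v) (hV : IsV V) (hDv : Disc v)
    (hneg : ∃ g0, v (T g0) < 0) (hvV : ∀ f, f ≠ 0 → 0 < v f → 0 < V f) (hDV : Disc' v V)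
    (hcyc : ∀ L : Subgroup Λ, ∃ z ∈ L, ∀ l ∈ L, ∃ n : ℤ, χ l = χ z ^ n)
    (hψ : ∀ l ψ, 0 ≤ v (T l) → ψ ≠ 0 → v ψ = 0 → Gt v 0 (ψ + ψ⁻¹ - T l) → V ψ = 0)
    (h2 : ∀ l, 0 ≤ V (T l) → 0 ≤ v (T l) → χ l = 1 → ∀ h, T (l * h) = T h) :
    ∃ (W : Type) (_ : MulAction Λ W) (Z : SimpleGraph W), Z.IsTree ∧ Acts Λ Z ∧
      ∀ (l : Λ) (a : W), l • a = a → 0 ≤ V (T l) := by
  by_cases hcase : ∀ f, f ≠ 0 → v f = 0 → V f = 0
  · obtain ⟨W, _, Z, ty, hT, h1, -⟩ := hTT Λ K Γ T v hPC hIrr hv hDv hneg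
    refine ⟨W, _, Z, hT.tree, fun g u v h => hT.adj g u v h, fun l a hl => ?_⟩
    have h3 := h1 l a hl
    by_cases h0 : T l = 0
    · rw [h0, hV.zero]
    · rcases h3.lt_or_eq with h | h
      · exact (hvV _ h0 h).le
      · rw [hcase _ h0 h.symm]
  push Not at hcase
  obtain ⟨f1, hf1, hf2, hf3⟩ := hcase
  obtain ⟨E, _, _, w, γ, ρ, hM⟩ := h2se Λ K Γ T v hPC hIrr hv hDv hneg
  obtain ⟨κ, _, red, C, δ, hred, hCs, hδ, hC⟩ :=
    h2va Λ K Γ Γ' E T v V γ w ρ hv hV hM hvV hDV ⟨f1, hf1, hf2, hf3⟩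
  obtain ⟨m1, m2, m3, m4⟩ := h2mo Λ K Γ E T v γ w ρ hv hM
  have hfact := A3_fact hV hred hδ hvV m1 m3 hC
  choose r hr1 hr2 hr3 using h2vb E κ w red C hM.surj hred
  letI act : MulAction Λ (Vert w) := MulAction.compHom (Vert w) ρ
  have hact : ∀ (g : Λ) (N : Vert w), g • N = ρ g • N := fun _ _ => rfl
  -- elements fixing a vertex of the residual tree
  have hint : ∀ (N : Vert w) (l : Λ) (x : Vert C), ρ l • N = N → r N (ρ l) • x = x →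
      0 ≤ V (T l) := by
    intro N l x hN hx
    refine hfact (T l) ((m1 _).1 (m4 l N hN)) ?_
    have h1 := trace_le hCs (r N (ρ l)) x hx
    rw [hr2 N (ρ l) hN (hM.det l), hM.tr] at h1
    exact h1
  have hbl := h2bu Λ (Vert w) (Gw C) (Vert C) (tree w) (tree C) (isTree hM.surj)
    (fun g N N' h => adj_smul hM.surj (ρ g) N N' h) (isTree hCs)
    (fun g N N' h => adj_smul hCs g N N' h) (fun N l => r N (ρ l))
    (fun N g h hg hh => by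
      change r N (ρ (g * h)) = _
      rw [map_mul]
      exact hr1 N _ _ hg hh (hM.det g) (hM.det h)) ?_
  · obtain ⟨W, _, Z, hZ, hZa, hW⟩ := hbl
    refine ⟨W, _, Z, hZ, hZa, fun g z hg => ?_⟩
    obtain ⟨N, l, s, x, h1, h2, h3⟩ := hW z g hg
    have h4 : T l = T g := by rw [h3]; exact A3_conj hPC s g
    rw [← h4]
    exact hint N l x h1 h2
  · -- the fixed points
    intro N N' hadj
    obtain ⟨ξ, hξ0, hξ⟩ := hr3 N N' hadj
    let L : Subgroup Λ := MulAction.stabilizer Λ N ⊓ MulAction.stabilizer Λ N'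
    have hL1 : ∀ l ∈ L, ρ l • N = N := fun l hl => hl.1
    have hL2 : ∀ l ∈ L, ρ l • N' = N' := fun l hl => hl.2
    have hfix : ∀ l ∈ L, ∃ x : Vert C, r N (ρ l) • x = x := by
      intro l hl
      obtain ⟨c, hc1, hc2, hc3⟩ := hξ (ρ l) (hL1 l hl) (hL2 l hl) (hM.det l)
      rw [hM.tr] at hc2
      exact h2vc κ C hCs (r N (ρ l)) ξ (red c) hξ0
        (A3_unit hv hred hδ hψ m2 m3 hC hM.dense l (m4 l N (hL1 l hl)) c hc1 hc2) hc3
    have hone : ∀ l ∈ L, χ l = 1 → ρ l = 1 := by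
      intro l hl hcl
      obtain ⟨x, hx⟩ := hfix l hl
      have h1 := h2 l (hint N l x (hL1 l hl) hx) (m4 l N (hL1 l hl)) hcl
      have h2 : (ρ l).val.val - 1 = 0 := by
        refine hM.span _ fun h => ?_
        rw [sub_mul, one_mul, Matrix.trace_sub, hM.tr]
        have h3 : (ρ l).val.val * (ρ h).val.val = (ρ (l * h)).val.val := by
          rw [map_mul, Subgroup.coe_mul, Units.val_mul]
        rw [h3, hM.tr, h1, sub_self]
      apply Subtype.ext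
      apply Units.ext
      change (ρ l).val.val = 1
      exact sub_eq_zero.1 h2
    obtain ⟨z, hzL, hgen⟩ := hcyc L
    obtain ⟨x, hx⟩ := hfix z hzL
    refine ⟨x, fun l hlN hlN' => ?_⟩
    have hl : l ∈ L := ⟨hlN, hlN'⟩
    obtain ⟨n, hn⟩ := hgen l hl
    have h1 : ρ (l * z ^ (-n)) = 1 := by
      refine hone _ (L.mul_mem hl (L.zpow_mem hzL _)) ?_
      rw [map_mul, map_zpow, hn, ← zpow_add, add_neg_cancel, zpow_zero]
    have h2 : ρ l = ρ (z ^ n) := by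
      rw [map_mul, zpow_neg, map_inv, mul_inv_eq_one] at h1
      exact h1
    let φ : MulAction.stabilizer Λ N →* Gw C := MonoidHom.mk' (fun g => r N (ρ g)) (by
      intro a b
      change r N (ρ (a.1 * b.1)) = _
      rw [map_mul]
      exact hr1 N _ _ a.2 b.2 (hM.det _) (hM.det _))
    have h3 : r N (ρ (z ^ n)) = (r N (ρ z)) ^ n := by
      have := map_zpow φ ⟨z, hzL.1⟩ n
      exact this
    change r N (ρ l) • x = x
    rw [h2, h3]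
    exact (MulAction.stabilizer (Gw C) x).zpow_mem hx n

/-- the blown up tree, for a homomorphism `χ` such that all subgroups are cyclic modulo its
kernel -/
theorem TB_gen (hTT : S_TT) (hsub : S_sub) (ht2v : S_t2v) (h2bu : F2D.S_bu) (h2se : F2D.S_se)
    (h2mo : F2D.S_mo) (h2va : F2D.S_va) (h2vb : F2D.S_vb) (h2vc : F2D.S_vc)
    (Λ K Γ Γ' A : Type) [Group Λ] [Field K]
    [AddCommGroup Γ] [LinearOrder Γ] [IsOrderedAddMonoid Γ] [AddCommGroup Γ'] [LinearOrder Γ']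
    [IsOrderedAddMonoid Γ'] [Group A] (T : Λ → K) (v : K → Γ) (V : K → Γ') (χ : Λ →* A)
    (hPC : PC T) (hIrr : Irr T) (hv : IsV v) (hV : IsV V) (hDv : Disc v)
    (hneg : ∃ g0, v (T g0) < 0) (hvV : ∀ f, f ≠ 0 → 0 < v f → 0 < V f) (hDV : Disc' v V)
    (hcyc : ∀ L : Subgroup Λ, ∃ z ∈ L, ∀ l ∈ L, ∃ n : ℤ, χ l = χ z ^ n)
    (hψ : ∀ l ψ, 0 ≤ v (T l) → ψ ≠ 0 → v ψ = 0 → Gt v 0 (ψ + ψ⁻¹ - T l) → V ψ = 0)
    (h2 : ∀ l, 0 ≤ V (T l) → 0 ≤ v (T l) → χ l = 1 → ∀ h, T (l * h) = T h) :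
    ∃ (W : Type) (_ : MulAction Λ W) (Z : SimpleGraph W) (ty : W → Bool), TreeAct Λ W Z ty ∧
      ∀ (l : Λ) (a : W), l • a = a → 0 ≤ V (T l) := by
  obtain ⟨W, _, Z, hZ, hZa, hW⟩ := TB_pre hTT h2bu h2se h2mo h2va h2vb h2vc Λ K Γ Γ' A T v V χ
    hPC hIrr hv hV hDv hneg hvV hDV hcyc hψ h2
  obtain ⟨W', i', Z', ty, hT, h1, -⟩ := hsub Λ W Z hZ hZa
  refine ⟨W', i', Z', ty, hT, fun l a hl => ?_⟩
  obtain ⟨u, hu⟩ := h1 l a hl
  exact ht2v Λ K Γ' T V hPC hV l (hW (l * l) u hu)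

theorem p_TB (hTT : S_TT) (hcyc : S_cyc) (hsub : S_sub) (ht2v : S_t2v) (h2bu : F2D.S_bu)
    (h2se : F2D.S_se) (h2mo : F2D.S_mo) (h2va : F2D.S_va) (h2vb : F2D.S_vb) (h2vc : F2D.S_vc) :
    S_TB := by
  intro Λ K Γ Γ' k _ _ _ _ _ _ _ _ _ T v V χ N hPC hIrr hv hV hDv hneg hvV hDV hN hχ hψ h2
  exact TB_gen hTT hsub ht2v h2bu h2se h2mo h2va h2vb h2vc Λ K Γ Γ' kˣ T v V χ hPC hIrr hv hV
    hDv hneg hvV hDV (hcyc Λ k χ N hN hχ) hψ h2

end Pool.Agent.CZD
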