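import Pool.Agent.Lib.MP_305fdd_al.CZ.D.Stm

/-!
# MP_305fdd_al, `C_m * Z`, section D: piece TL (the tree lemma)
-/

set_option autoImplicit false

namespace Pool.Agent.CZD

open Pool.Agent.F2 Pool.Agent.F2Ch Pool.Agent.F2D Pool.Agent.CZ Pool.Agent.CC
open Pool.Agent.PSL2Z (TreeAct)

/-- the set of pairs used in the second part of the proof -/
private def TL_H2 {m : ℕ} {G : Type} [Group G] (δ : G →* Multiplicative (ZMod m))
    (ν : G →* Multiplicative ℤ) (e : ℤ) (d0 : Multiplicative (ZMod m))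
    (D2 : Subgroup (Multiplicative (ZMod m))) : Subgroup G where
  carrier := {h | ∃ i : ℤ, ∃ d2 ∈ D2, ν h = Multiplicative.ofAdd (e * i) ∧ δ h = d0 ^ i * d2}
  mul_mem' := by
    rintro a b ⟨i, d, hd, h1, h2⟩ ⟨i', d', hd', h1', h2'⟩
    refine ⟨i + i', d * d', mul_mem hd hd', ?_, ?_⟩
    · rw [map_mul, h1, h1', ← ofAdd_add, mul_add]
    · rw [map_mul, h2, h2', zpow_add, mul_mul_mul_comm]
  one_mem' := by
    refine ⟨0, 1, one_mem _, ?_, ?_⟩
    · rw [map_one, mul_zero, ofAdd_zero]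
    · rw [map_one, zpow_zero, one_mul]
  inv_mem' := by
    rintro a ⟨i, d, hd, h1, h2⟩
    refine ⟨-i, d⁻¹, inv_mem hd, ?_, ?_⟩
    · rw [map_inv, h1, ← ofAdd_neg, mul_neg]
    · rw [map_inv, h2, mul_inv, zpow_neg]

theorem p_TL (hFU : S_FU) (htq : S_tq) : S_TL := by
  classical
  intro m G V _ _ δ ν X ty hGD hTA hex hdet
  obtain ⟨v, l, hl, hν⟩ := hex
  obtain ⟨V', act, X', ty', j, Y, hTA', hF, hSub, y₀, hy₀, l₀, hl₀, hν₀⟩ :=
    hFU m G V δ ν X ty hGD hTA v l hl hν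
  have hfix : ∀ (u : V') (g : G), g • u = u → g • j u = j u := by
    intro u g h
    rw [← hSub.smul, h]
  have det : ∀ (u u' : V') (g g' : G), g • u = u → g' • u' = u' → ν g = ν g' → ν g ≠ 1 →
      δ g = δ g' := fun u u' g g' h h' h1 h2 =>
    hdet (j u) (j u') g g' (hfix u g h) (hfix u' g' h') h1 h2
  -- vertices of kind one
  have hK : ∀ u : V', (∃ g : G, g • u = u ∧ ν g ≠ 1) → ∀ g : G, g • u = u → ν g = 1 →
      δ g = 1 := by
    rintro u ⟨g1, hg1, hn1⟩ g hg hn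
    have h1 : δ g1 = δ (g1 * g) := by
      refine det u u g1 (g1 * g) hg1 ?_ ?_ hn1
      · rw [mul_smul, hg, hg1]
      · rw [map_mul, hn, mul_one]
    rw [map_mul] at h1
    exact (mul_eq_left.1 h1.symm)
  have hK2 : ∀ u : V', ¬ (∃ g : G, g • u = u ∧ ν g ≠ 1) → ∀ g : G, g • u = u → ν g = 1 := by
    intro u hu g hg
    by_contra h
    exact hu ⟨g, hg, h⟩
  let φ : V' → G →* WW m := fun u =>
    if (∃ g : G, g • u = u ∧ ν g ≠ 1) then (Monoid.Coprod.inr).comp ν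
    else (Monoid.Coprod.inl).comp δ
  have φ1 : ∀ u : V', (∃ g : G, g • u = u ∧ ν g ≠ 1) → ∀ g, φ u g = Monoid.Coprod.inr (ν g) := by
    intro u hu g
    show (if (∃ g : G, g • u = u ∧ ν g ≠ 1) then (Monoid.Coprod.inr).comp ν
      else (Monoid.Coprod.inl).comp δ : G →* WW m) g = _
    rw [if_pos hu]
    rfl
  have φ2 : ∀ u : V', ¬ (∃ g : G, g • u = u ∧ ν g ≠ 1) → ∀ g,
      φ u g = Monoid.Coprod.inl (δ g) := by
    intro u hu g
    show (if (∃ g : G, g • u = u ∧ ν g ≠ 1) then (Monoid.Coprod.inr).comp ν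
      else (Monoid.Coprod.inl).comp δ : G →* WW m) g = _
    rw [if_neg hu]
    rfl
  obtain ⟨f, hf⟩ := CC.exists_hom_ext hTA' Y hF φ (by
    intro y _ z _ _ g hgy hgz
    by_cases h1 : ∃ g : G, g • y = y ∧ ν g ≠ 1 <;> by_cases h2 : ∃ g : G, g • z = z ∧ ν g ≠ 1
    · rw [φ1 y h1, φ1 z h2]
    · have e1 := hK2 z h2 g hgz
      rw [φ1 y h1, φ2 z h2, e1, hK y h1 g hgy e1, map_one, map_one]
    · have e1 := hK2 y h1 g hgy
      rw [φ2 y h1, φ1 z h2, e1, hK z h2 g hgz e1, map_one, map_one]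
    · rw [φ2 y h1, φ2 z h2])
  have gen : ∀ H : Subgroup G, (∀ y ∈ Y, ∀ g : G, g • y = y → g ∈ H) → ∀ g, g ∈ H := by
    intro H h g
    have h1 := CC.Fund.iSup_stab hTA' Y hF
    have h2 : (⨆ v ∈ Y, MulAction.stabilizer G v) ≤ H :=
      iSup₂_le fun y hy g hg => h y hy g hg
    rw [h1] at h2
    exact h2 (Subgroup.mem_top g)
  -- the second factor
  have hr1 : ∀ n : Multiplicative ℤ, (Monoid.Coprod.inr n : WW m) ∈ f.range := by
    intro n
    obtain ⟨g, -, hg⟩ := hGD.surj 1 n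
    have h1 := gen ((f.range).comap ((Monoid.Coprod.inr : Multiplicative ℤ →* WW m).comp ν)) (by
      intro y hy g hg
      rw [Subgroup.mem_comap]
      show (Monoid.Coprod.inr (ν g) : WW m) ∈ f.range
      by_cases h1 : ∃ g : G, g • y = y ∧ ν g ≠ 1
      · exact ⟨g, by rw [hf y hy g hg, φ1 y h1]⟩
      · rw [hK2 y h1 g hg, map_one]
        exact one_mem _) g
    rw [Subgroup.mem_comap] at h1
    have h2 : (Monoid.Coprod.inr (ν g) : WW m) ∈ f.range := h1
    rwa [hg] at h2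
  -- the first factor
  obtain ⟨q, hq0, hq⟩ := htq (ZMod m)
    {x : ℤ × ZMod m | ∃ y ∈ Y, ∃ g : G, g • y = y ∧
      x = (Multiplicative.toAdd (ν g), Multiplicative.toAdd (δ g))}
    (by
      rintro x ⟨y, hy, g, hg, rfl⟩ i
      refine ⟨y, hy, g ^ i, ?_, ?_⟩
      · have h1 : g ∈ MulAction.stabilizer G y := hg
        exact zpow_mem h1 i
      · rw [map_zpow ν g i, map_zpow δ g i]
        rfl)
    (by
      rintro x ⟨y, hy, g, hg, rfl⟩ x' ⟨y', hy', g', hg', rfl⟩ h1 h2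
      have h3 : ν g = ν g' := h1
      have h4 : ν g ≠ 1 := fun h => h2 (by rw [h]; rfl)
      show (Multiplicative.toAdd (ν g), Multiplicative.toAdd (δ g)) =
        (Multiplicative.toAdd (ν g'), Multiplicative.toAdd (δ g'))
      rw [h3, det y y' g g' hg hg' h3 h4])
    ⟨_, ⟨y₀, hy₀, l₀, hl₀, rfl⟩, fun h => hν₀ h⟩
  have hr2 : ∀ d : Multiplicative (ZMod m), (Monoid.Coprod.inl d : WW m) ∈ f.range := by
    intro d
    obtain ⟨g, hg1, hg2⟩ := hGD.surj d 1
    obtain ⟨i, d2, hd2, e1, e2⟩ := gen (TL_H2 δ ν q.1 (Multiplicative.ofAdd q.2)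
      ((f.range).comap (Monoid.Coprod.inl : Multiplicative (ZMod m) →* WW m))) (by
      intro y hy g hg
      by_cases h1 : ∃ g : G, g • y = y ∧ ν g ≠ 1
      · by_cases h2 : ν g = 1
        · refine ⟨0, 1, one_mem _, ?_, ?_⟩
          · rw [h2, mul_zero, ofAdd_zero]
          · rw [hK y h1 g hg h2, zpow_zero, one_mul]
        · obtain ⟨i, hi⟩ := hq _ ⟨y, hy, g, hg, rfl⟩ (fun h => h2 h)
          have h3 : Multiplicative.toAdd (ν g) = i • q.1 := congrArg Prod.fst hi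
          have h4 : Multiplicative.toAdd (δ g) = i • q.2 := congrArg Prod.snd hi
          refine ⟨i, 1, one_mem _, ?_, ?_⟩
          · apply Multiplicative.toAdd.injective
            rw [h3, toAdd_ofAdd, smul_eq_mul, mul_comm]
          · apply Multiplicative.toAdd.injective
            rw [h4, mul_one, toAdd_zpow, toAdd_ofAdd]
      · refine ⟨0, δ g, ?_, ?_, ?_⟩
        · rw [Subgroup.mem_comap]
          exact ⟨g, by rw [hf y hy g hg, φ2 y h1]⟩
        · rw [hK2 y h1 g hg, mul_zero, ofAdd_zero]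
        · rw [zpow_zero, one_mul]) g
    rw [hg2] at e1
    have e3 : q.1 * i = 0 := (congrArg Multiplicative.toAdd e1).symm
    have e4 : i = 0 := (mul_eq_zero.1 e3).resolve_left hq0.ne'
    rw [e4, zpow_zero, one_mul, hg1] at e2
    rw [e2]
    exact hd2
  refine ⟨f, ?_⟩
  rw [← MonoidHom.range_eq_top, eq_top_iff, ← Monoid.Coprod.range_inl_sup_range_inr]
  apply sup_le
  · rintro x ⟨d, rfl⟩
    exact hr2 d
  · rintro x ⟨n, rfl⟩
    exact hr1 n

end Pool.Agent.CZD
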