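import Pool.Agent.Lib.MP_305fdd_al.CZ.D.Stm

/-!
# MP_305fdd_al, `C_m * Z`, section D: the piece [CZD TT], the tree of a divisorial valuation
-/

set_option autoImplicit false

namespace Pool.Agent.CZD

open Pool.Agent.F2 Pool.Agent.F2Ch Pool.Agent.F2D Pool.Agent.CZ Pool.Agent.CC
open Pool.Agent.PSL2Z
open Pool.Agent.PSL2Z.BT
open scoped WithZero

theorem p_TT (hsub : S_sub) (ht2v : S_t2v) (hco : F2D.S_co) (hmi : F2D.S_mi) (hle : F2D.S_le)
    (hse : F2D.S_se) (hmo : F2D.S_mo) : S_TT := by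
  intro Λ K Γ _ _ _ _ _ T v hPC hIrr hv hdisc hneg
  obtain ⟨E, _, _, w, γ, ρ, hM⟩ := hse Λ K Γ T v hPC hIrr hv hdisc hneg
  have hw := hM.surj
  obtain ⟨ho1, ho2, ho3, ho4⟩ := hmo Λ K Γ E T v γ w ρ hv hM
  let _ : MulAction Λ (Vert w) := MulAction.compHom (Vert w) ρ
  have hsm : ∀ (l : Λ) (M : Vert w), l • M = ρ l • M := fun _ _ => rfl
  have hacts : Acts Λ (tree w) := fun g u v' huv => adj_smul hw (ρ g) u v' huv
  obtain ⟨Good, hGood⟩ : ∃ Good : Vert w → Vert w → Prop, ∀ M N, Good M N ↔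
      ∃ (k : Gw w) (h n : ℤ) (g : Λ), 1 ≤ n ∧ Cross w (k⁻¹ * ρ g * k) h n ∧
        ((M = k • mkV w h 0 ∧ N = k • mkV w (h + 1) 0) ∨
          (N = k • mkV w h 0 ∧ M = k • mkV w (h + 1) 0)) := ⟨_, fun _ _ => Iff.rfl⟩
  have hGs : ∀ M N, Good M N → Good N M := by
    intro M N h
    rw [hGood] at h ⊢
    obtain ⟨k, h', n, g, h1, h2, h3⟩ := h
    exact ⟨k, h', n, g, h1, h2, h3.symm⟩
  have hGi : ∀ (l : Λ) (M N : Vert w), Good M N → Good (ρ l • M) (ρ l • N) := by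
    intro l M N h
    rw [hGood] at h ⊢
    obtain ⟨k, h', n, g, h1, h2, h3⟩ := h
    refine ⟨ρ l * k, h', n, l * g * l⁻¹, h1, ?_, ?_⟩
    · have e : (ρ l * k)⁻¹ * ρ (l * g * l⁻¹) * (ρ l * k) = k⁻¹ * ρ g * k := by
        rw [map_mul, map_mul, map_inv]
        group
      rw [e]; exact h2
    · rcases h3 with ⟨h3, h4⟩ | ⟨h3, h4⟩
      · left
        rw [mul_smul, mul_smul, ← h3, ← h4]
        exact ⟨rfl, rfl⟩
      · right
        rw [mul_smul, mul_smul, ← h3, ← h4]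
        exact ⟨rfl, rfl⟩
  obtain ⟨D, hD⟩ : ∃ D : Vert w → Vert w → Prop, ∀ M N, D M N ↔ ((tree w).Adj M N ∧ ¬ Good M N) :=
    ⟨_, fun _ _ => Iff.rfl⟩
  have hD1 : ∀ M N, D M N → (tree w).Adj M N := fun M N h => ((hD M N).mp h).1
  have hD2 : ∀ M N, D M N → D N M := by
    intro M N h
    rw [hD] at h ⊢
    exact ⟨h.1.symm, fun h' => h.2 (hGs _ _ h')⟩
  have hD3 : ∀ (l : Λ) (M N : Vert w), D M N → D (ρ l • M) (ρ l • N) := by
    intro l M N h
    rw [hD] at h ⊢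
    refine ⟨adj_smul hw (ρ l) M N h.1, fun h' => h.2 ?_⟩
    have h4 := hGi l⁻¹ _ _ h'
    rwa [map_inv, inv_smul_smul, inv_smul_smul] at h4
  obtain ⟨W0, _, Z0, q, hZ, hZa, hqs, hqe, hqr, hZe⟩ :=
    hco Λ (Vert w) (tree w) (isTree hw) hacts D hD1 hD2 hD3
  -- vertex stabilisers of Z
  have hval : ∀ (a : W0) (l : Λ), l • a = a → 0 ≤ v (T l) := by
    intro a l hla
    by_contra hcon
    obtain ⟨M0, rfl⟩ := hqs a
    have h1 : ¬ w (algebraMap K E (T l)) ≤ 1 := fun h => hcon ((ho1 _).mpr h)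
    have h1' := not_le.mp h1
    have hne : w (algebraMap K E (T l)) ≠ 0 := (zero_lt_one.trans h1').ne'
    obtain ⟨n, hn⟩ : ∃ n : ℤ, w (algebraMap K E (T l)) = WithZero.exp n :=
      ⟨_, (WithZero.exp_log hne).symm⟩
    have hn1 : 1 ≤ n := by
      rw [hn, ← WithZero.exp_zero, WithZero.exp_lt_exp] at h1'
      omega
    have hRT : Relation.ReflTransGen D M0 (ρ l • M0) := by
      rw [← hqr]
      change q M0 = q (l • M0)
      rw [hqe, hla]
    obtain ⟨k, h, h2, h3⟩ := hmi E w hw (ρ l) n (hM.det l) hn1 (by rw [hM.tr l, hn]) D hD1 hD2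
      (hD3 l) M0 hRT
    rw [hD] at h2
    exact h2.2 ((hGood _ _).mpr ⟨k, h, n, l, hn1, h3, Or.inl ⟨rfl, rfl⟩⟩)
  -- edge stabilisers of Z0
  have hedge : ∀ a b, Z0.Adj a b → ∃ g : Λ, ∀ z : Λ, z • a = a → z • b = b →
      ∃ ψ : K, EdgeElt v T z g ψ := by
    intro a b hab
    obtain ⟨u, u', huu, hnD, -, -, hfix⟩ := hZe a b hab
    have hgood : Good u u' := by
      by_contra hcon
      exact hnD ((hD _ _).mpr ⟨huu, hcon⟩)
    rw [hGood] at hgood
    obtain ⟨k, h, n, g, hn1, hcross, hor⟩ := hgood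
    refine ⟨g, fun z hza hzb => ?_⟩
    obtain ⟨hzu, hzu'⟩ := hfix z hza hzb
    have hfix2 : ρ z • k • mkV w h 0 = k • mkV w h 0 ∧
        ρ z • k • mkV w (h + 1) 0 = k • mkV w (h + 1) 0 := by
      rcases hor with ⟨h3, h4⟩ | ⟨h3, h4⟩
      · rw [← h3, ← h4]; exact ⟨hzu, hzu'⟩
      · rw [← h3, ← h4]; exact ⟨hzu', hzu⟩
    obtain ⟨hl1, hl2, -, hl4⟩ := hle E w hw (k⁻¹ * ρ g * k) (k⁻¹ * ρ z * k) h n hcross
      (by rw [mul_smul, mul_smul, hfix2.1, inv_smul_smul])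
      (by rw [mul_smul, mul_smul, hfix2.2, inv_smul_smul]) (F2D.A2_det k _ (hM.det z))
    obtain ⟨c, hc⟩ : ∃ c : E, c = ent (k⁻¹ * ρ z * k) 0 0 := ⟨_, rfl⟩
    rw [← hc] at hl1 hl4
    rw [F2D.A2_trace, hM.tr] at hl2 hl4
    have hl5 : ∀ m : ℤ, w (algebraMap K E (T (g * z ^ m)) - c ^ m * algebraMap K E (T g)) <
        WithZero.exp n := by
      intro m
      have e : k⁻¹ * ρ g * k * (k⁻¹ * ρ z * k) ^ m = k⁻¹ * ρ (g * z ^ m) * k := by
        have e2 : (k⁻¹ * ρ z * k) ^ m = k⁻¹ * ρ z ^ m * k := by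
          have := conj_zpow (i := m) (a := k⁻¹) (b := ρ z)
          rwa [inv_inv] at this
        rw [e2, map_mul, map_zpow]
        group
      have h6 := hl4 m
      rw [e, F2D.A2_trace, hM.tr] at h6
      exact h6
    obtain ⟨ψ, hψ⟩ := hM.dense c 0
    rw [WithZero.exp_zero] at hψ
    have hwψ : w (algebraMap K E ψ) = 1 := by
      have e : algebraMap K E ψ = c - (c - algebraMap K E ψ) := by ring
      rw [e, Valuation.map_sub_eq_of_lt_left w (by rw [hl1]; exact hψ), hl1]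
    have hψ0 : ψ ≠ 0 := by
      rintro rfl
      rw [map_zero, map_zero] at hwψ
      exact zero_ne_one hwψ
    have hTg : T g ≠ 0 := by
      intro h0
      rw [h0, map_zero, map_zero] at hl2
      exact WithZero.exp_ne_zero hl2.symm
    refine ⟨ψ, hψ0, (ho3 ψ hψ0).mpr hwψ, ?_, ?_⟩
    · by_contra hcon
      have h1 := (ho1 _).mp (not_lt.mp hcon)
      rw [hl2, ← WithZero.exp_zero, WithZero.exp_le_exp] at h1
      omega
    · intro m
      rw [ho2 _ _ hTg, hl2, map_sub, map_mul, map_zpow₀]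
      have e : algebraMap K E (T (g * z ^ m)) - algebraMap K E ψ ^ m * algebraMap K E (T g) =
          (algebraMap K E (T (g * z ^ m)) - c ^ m * algebraMap K E (T g)) +
          (c ^ m - algebraMap K E ψ ^ m) * algebraMap K E (T g) := by ring
      rw [e]
      refine Valuation.map_add_lt w (hl5 m) ?_
      rw [map_mul, hl2]
      have h7 := F2D.A2_pow w c (algebraMap K E ψ) hl1 hwψ hψ m
      calc w (c ^ m - algebraMap K E ψ ^ m) * WithZero.exp n < 1 * WithZero.exp n :=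
            mul_lt_mul_of_pos_right h7 WithZero.exp_pos
        _ = WithZero.exp n := one_mul _
  obtain ⟨W, _, Z, ty, hT, h1, h2⟩ := hsub Λ W0 Z0 hZ hZa
  refine ⟨W, inferInstance, Z, ty, hT, ?_, ?_⟩
  · intro l a hla
    obtain ⟨b, hb⟩ := h1 l a hla
    exact ht2v Λ K Γ T v hPC hv l (hval b (l * l) hb)
  · intro a b hab
    obtain ⟨u, u', huu, hfix⟩ := h2 a b hab
    obtain ⟨g, hg⟩ := hedge u u' huu
    refine ⟨g, fun l hla hlb => ?_⟩
    obtain ⟨h3, h4⟩ := hfix l hla hlb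
    exact hg l h3 h4

end Pool.Agent.CZD
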