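import Pool.Agent.Lib.MP_305fdd_al.CZ.D.Stm

/-!
# [CZD aa] The function `t (e g)`
-/

set_option autoImplicit false

namespace Pool.Agent.CZD

open Pool.Agent.F2 Pool.Agent.F2Ch Pool.Agent.F2D Pool.Agent.CZ Pool.Agent.CC
open Pool.Agent.PSL2Z (TreeAct)

theorem p_aa (hae : S_ae) (h2ra : F2D.S_ra) : S_aa := by
  intro G K _ _ T l z hPC hz hzz hT
  obtain ⟨𝒜, _, _, j, t, hP⟩ := h2ra G K T hPC
  obtain ⟨e, he2, hte, ht1, hle, hel, hl, hal, hjinv, hee, hee'⟩ :=
    hae G K T l z hPC hz hzz hT 𝒜 j t hP
  have hcomm := hP.comm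
  have a1 : al T l z 1 = 1 := by rw [← hal, map_one, mul_one, hte]
  have hF : ∀ g h, Fe (al T l z) g h = t (e * j g * (1 - e) * j h) := by
    intro g h
    unfold Fe
    rw [← hal (g * h), ← hal g, ← hal h, map_mul j]
    have h1 : e * (j g * j h) = (e * j g * e) * j h + e * j g * (1 - e) * j h := by
      noncomm_ring
    have h2 : t ((e * j g * e) * j h) = t (e * j g) * t (e * j h) := by
      rw [hee, smul_mul_assoc, map_smul, smul_eq_mul]
    rw [h1, map_add, h2]
    ring
  have he'l : (1 - e) * j l = z⁻¹ • (1 - e) := by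
    have h1 : (1 - e) * e = 0 := by rw [sub_mul, one_mul, he2, sub_self]
    have h2 : (1 - e) * (1 - e) = 1 - e := by
      rw [mul_sub, mul_one, h1, sub_zero]
    rw [hl, mul_add, mul_smul_comm, mul_smul_comm, h1, h2, smul_zero, zero_add]
  refine ⟨a1, ?_, ?_, ?_, ?_, ?_⟩
  · intro g
    rw [← hal, ← hal, ← map_add, ← mul_add, hjinv, mul_smul_comm, mul_one, map_smul, hte,
      smul_eq_mul, mul_one]
  · intro g
    rw [← hal, ← hal, map_mul j, ← mul_assoc, hel, smul_mul_assoc, map_smul, smul_eq_mul]
  · intro g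
    rw [← hal, ← hal, map_mul j, ← mul_assoc, hcomm, ← mul_assoc, hle, smul_mul_assoc, map_smul,
      smul_eq_mul]
  · intro g x
    rw [hF, hF, map_mul j]
    have h1 : e * j g * (1 - e) * (j l * j x) = e * j g * ((1 - e) * j l) * j x := by
      simp only [mul_assoc]
    rw [h1, he'l, mul_smul_comm, smul_mul_assoc, map_smul, smul_eq_mul]
  · intro x y x' y'
    rw [hF, hF, hF, hF]
    have h1 : t (e * j x * (1 - e) * j y) * t (e * j x' * (1 - e) * j y')
        = t (e * j x * (1 - e) * j y * e * (j x' * (1 - e) * j y')) := by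
      have h2 := hee (j x * (1 - e) * j y)
      have h3 : e * j x * (1 - e) * j y * e * (j x' * (1 - e) * j y')
          = (e * (j x * (1 - e) * j y) * e) * (j x' * (1 - e) * j y') := by
        simp only [mul_assoc]
      rw [h3, h2, smul_mul_assoc, map_smul, smul_eq_mul]
      simp only [mul_assoc]
    have h4 : t (e * j x * (1 - e) * j y * e * (j x' * (1 - e) * j y'))
        = t ((1 - e) * j y * e * j x') * t (e * j x * (1 - e) * j y') := by
      have h2 := hee' (j y * e * j x')
      have h3 : e * j x * (1 - e) * j y * e * (j x' * (1 - e) * j y')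
          = (e * j x) * ((1 - e) * (j y * e * j x') * (1 - e)) * j y' := by
        simp only [mul_assoc]
      rw [h3, h2, mul_smul_comm, smul_mul_assoc, map_smul, smul_eq_mul]
      simp only [mul_assoc]
    have h5 : t ((1 - e) * j y * e * j x') = t (e * j x' * (1 - e) * j y) := by
      have h6 : (1 - e) * j y * e * j x' = ((1 - e) * j y) * (e * j x') := by
        simp only [mul_assoc]
      rw [h6, hcomm]
      simp only [mul_assoc]
    rw [h1, h4, h5]

end Pool.Agent.CZD
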