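import Pool.Agent.Lib.MP_305fdd_al.CZ.D.Stm

/-!
# MP_305fdd_al, `C_m * Z`, section D: piece [CZD ac]
-/

set_option autoImplicit false

namespace Pool.Agent.CZD

open Pool.Agent.F2 Pool.Agent.F2Ch Pool.Agent.F2D Pool.Agent.CZ Pool.Agent.CC
open Pool.Agent.PSL2Z (TreeAct)

private theorem ac_rr {k : Type} [Field k] (z w : kˣ) (n : ℤ) (d : k)
    (hd : d * ((z : k) - ((z⁻¹ : kˣ) : k)) = 1) :
    d • (rr (z * w) n - ((z⁻¹ : kˣ) : k) • rr w n) =
      (AddMonoidAlgebra.single (-n) (w : k) : Ls k) := by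
  have h1 : rr (z * w) n - ((z⁻¹ : kˣ) : k) • rr w n =
      (AddMonoidAlgebra.single (-n) (((z : k) - ((z⁻¹ : kˣ) : k)) * (w : k)) : Ls k) := by
    unfold rr
    rw [smul_add, AddMonoidAlgebra.smul_single, AddMonoidAlgebra.smul_single]
    have e1 : (((z * w)⁻¹ : kˣ) : k) = ((z⁻¹ : kˣ) : k) • ((w⁻¹ : kˣ) : k) := by
      rw [mul_inv, Units.val_mul, smul_eq_mul]
    have e2 : (AddMonoidAlgebra.single (-n) (((z : k) - ((z⁻¹ : kˣ) : k)) * (w : k)) : Ls k) =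
        AddMonoidAlgebra.single (-n) (((z * w : kˣ)) : k) -
          AddMonoidAlgebra.single (-n) (((z⁻¹ : kˣ) : k) • (w : k)) := by
      rw [← AddMonoidAlgebra.single_sub, Units.val_mul, smul_eq_mul, sub_mul]
    rw [e1, e2]
    abel
  rw [h1, AddMonoidAlgebra.smul_single, smul_eq_mul, ← mul_assoc, hd, one_mul]

theorem p_ac (haa : S_aa) : S_ac := by
  intro p m _ k K G _ _ _ _ _ _ C l hl hl2
  have hz0 : zl C l ≠ 0 := by
    unfold zl
    rw [Ne, map_eq_zero_iff _ (algebraMap k K).injective]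
    exact (C.χ l).ne_zero
  have hzinv : (zl C l)⁻¹ = algebraMap k K ((C.χ l)⁻¹ : kˣ) := by
    unfold zl
    rw [Units.val_inv_eq_inv_val, map_inv₀]
  have hzne : zl C l ≠ (zl C l)⁻¹ := by
    intro h
    apply hl2
    rw [hzinv] at h
    have h1 : ((C.χ l : kˣ) : k) = ((C.χ l)⁻¹ : kˣ) := (algebraMap k K).injective h
    have h2 : C.χ l = (C.χ l)⁻¹ := Units.ext h1
    rw [pow_two]
    nth_rewrite 2 [h2]
    exact mul_inv_cancel _
  have hTl : C.T l = zl C l + (zl C l)⁻¹ := by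
    rw [hzinv]; exact hl.2
  have hνl : C.ν l = 1 := hl.1
  have hsub : zl C l - (zl C l)⁻¹ ≠ 0 := sub_ne_zero.2 hzne
  have haal := haa G K C.T l (zl C l) C.pc hz0 hzne hTl
  refine ⟨⟨hz0, hzne, hTl⟩, ?_, ?_⟩
  · intro g
    have hιz : C.ι (zl C l) = (zl C l)⁻¹ := by
      rw [hzinv]
      unfold zl
      rw [C.ι_k]
      congr 1
      have h1 : C.χ l ^ (p + 1) = 1 := by
        obtain ⟨q, hq⟩ := C.hpm
        rw [hq, pow_mul, C.χ_pow, one_pow]
      have h2 : C.χ l ^ p = (C.χ l)⁻¹ := by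
        rw [pow_succ] at h1
        exact eq_inv_of_mul_eq_one_left h1
      rw [← h2, Units.val_pow_eq_pow_val]
    have h3 := haal.2.1 g
    have h4 : aC C l g⁻¹ = C.T g - aC C l g := by
      unfold aC
      rw [← h3]; ring
    rw [h4]
    unfold aC al
    rw [map_div₀, map_sub, map_sub, map_mul, map_inv₀, hιz, inv_inv, C.ι_T, C.ι_T]
    have hsub' : (zl C l)⁻¹ - zl C l ≠ 0 := by
      intro h
      apply hsub
      rw [← neg_sub, h, neg_zero]
    rw [div_eq_iff hsub', sub_mul, div_mul_eq_mul_div, eq_sub_iff_add_eq]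
    have h5 : (C.T (l * g) - (zl C l)⁻¹ * C.T g) * ((zl C l)⁻¹ - zl C l) /
        (zl C l - (zl C l)⁻¹) = -(C.T (l * g) - (zl C l)⁻¹ * C.T g) := by
      rw [div_eq_iff hsub]; ring
    rw [h5]; ring
  · intro g
    obtain ⟨d, hd⟩ : ∃ d : k, d * (((C.χ l : kˣ) : k) - (((C.χ l)⁻¹ : kˣ) : k)) = 1 := by
      refine ⟨(((C.χ l : kˣ) : k) - (((C.χ l)⁻¹ : kˣ) : k))⁻¹, inv_mul_cancel₀ ?_⟩
      intro h
      apply hsub
      rw [hzinv]
      unfold zl
      rw [← map_sub, h, map_zero]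
    have hdK : algebraMap k K d = (zl C l - (zl C l)⁻¹)⁻¹ := by
      apply eq_inv_of_mul_eq_one_left
      rw [hzinv]
      unfold zl
      rw [← map_sub, ← map_mul, hd, map_one]
    let b : C.B := d • ((⟨C.T (l * g), C.T_mem _⟩ : C.B) -
      (((C.χ l)⁻¹ : kˣ) : k) • (⟨C.T g, C.T_mem _⟩ : C.B))
    have hb : (b : K) = aC C l g := by
      change d • (C.T (l * g) - (((C.χ l)⁻¹ : kˣ) : k) • C.T g) = _
      rw [Algebra.smul_def, Algebra.smul_def, hdK, ← hzinv]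
      unfold aC al
      rw [div_eq_mul_inv, mul_comm]
    have hmem : aC C l g ∈ C.B := hb ▸ b.2
    refine ⟨hmem, ?_⟩
    have hb' : (⟨aC C l g, hmem⟩ : C.B) = b := Subtype.ext hb.symm
    rw [hb']
    change C.res (d • ((⟨C.T (l * g), C.T_mem _⟩ : C.B) -
      (((C.χ l)⁻¹ : kˣ) : k) • (⟨C.T g, C.T_mem _⟩ : C.B))) = _
    rw [map_smul, map_sub, map_smul, C.res_T, C.res_T, map_mul, map_mul, hνl, one_mul]
    exact ac_rr _ _ _ _ hd

end Pool.Agent.CZD
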