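import Pool.Agent.Lib.MP_305fdd_al.CZ.D.Stm

/-!
# [CZD ae] The idempotent of an element
-/

set_option autoImplicit false

namespace Pool.Agent.CZD

open Pool.Agent.F2 Pool.Agent.F2Ch Pool.Agent.F2D Pool.Agent.CZ Pool.Agent.CC
open Pool.Agent.PSL2Z (TreeAct)

private theorem ae_corner {K 𝒜 : Type} [Field K] [Ring 𝒜] [Algebra K 𝒜] {t : 𝒜 →ₗ[K] K}
    (hcomm : ∀ a b, t (a * b) = t (b * a))
    (hpch : ∀ a b, a * b + b * a = t a • b + t b • a + (t (a * b) - t a * t b) • (1 : 𝒜))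
    {f : 𝒜} (hf : f * f = f) (htf : t f = 1) (a : 𝒜) : f * a * f = t (f * a) • f := by
  have h1 := hpch (f * a * f) f
  have h2 : f * a * f * f = f * a * f := by rw [mul_assoc, hf]
  have h3 : f * (f * a * f) = f * a * f := by rw [← mul_assoc, ← mul_assoc, hf]
  have h4 : t (f * a * f) = t (f * a) := by rw [hcomm, ← mul_assoc, hf]
  rw [h2, h3, htf, one_smul, mul_one, h4, sub_self, zero_smul, add_zero] at h1
  exact add_right_cancel h1

theorem p_ae : S_ae := by
  intro G K _ _ T l z hPC hz hzz hT 𝒜 _ _ j t hP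
  have hd : z - z⁻¹ ≠ 0 := sub_ne_zero.2 hzz
  have ht1 : t (1 : 𝒜) = 2 := by
    rw [← map_one j, hP.tj, hPC.one]
  have hinv : ∀ g, j g + j g⁻¹ = T g • (1 : 𝒜) := by
    intro g
    have h1 : ∀ b : 𝒜, t ((j g + j g⁻¹ - T g • (1 : 𝒜)) * b) = 0 := by
      intro b
      have hb : b ∈ Submodule.span K (Set.range j) := by
        rw [hP.span]
        exact Submodule.mem_top
      induction hb using Submodule.span_induction with
      | mem x hx =>
        obtain ⟨h, rfl⟩ := hx
        rw [sub_mul, add_mul, smul_mul_assoc, one_mul, map_sub, map_add, map_smul, ← map_mul,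
          ← map_mul, hP.tj, hP.tj, hP.tj, smul_eq_mul]
        have h2 := hPC.rel h g
        have h3 := hPC.comm h g
        have h4 := hPC.comm h g⁻¹
        rw [h3, h4] at h2
        linear_combination h2
      | zero => rw [mul_zero, map_zero]
      | add x y _ _ hx hy => rw [mul_add, map_add, hx, hy, add_zero]
      | smul c x _ hx => rw [mul_smul_comm, map_smul, hx, smul_zero]
    exact sub_eq_zero.1 (hP.nd _ h1)
  have hjinv : j l * j l⁻¹ = 1 := by rw [← map_mul, mul_inv_cancel, map_one]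
  -- `g ^ 2 = (z + z⁻¹) g - 1`
  have hsq : j l * j l = (z + z⁻¹) • j l - 1 := by
    have h1 : j l * (j l + j l⁻¹) = j l * (T l • (1 : 𝒜)) := congrArg _ (hinv l)
    rw [mul_add, hjinv, mul_smul_comm, mul_one, hT] at h1
    exact eq_sub_of_add_eq h1
  obtain ⟨e, he⟩ : ∃ e : 𝒜, e = (z - z⁻¹)⁻¹ • (j l - z⁻¹ • (1 : 𝒜)) := ⟨_, rfl⟩
  have hle : j l * e = z • e := by
    rw [he, mul_smul_comm, mul_sub, hsq, mul_smul_comm, mul_one, smul_smul, mul_comm z,
      ← smul_smul]
    congr 1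
    have h2 : (1 : 𝒜) = (z * z⁻¹) • (1 : 𝒜) := by rw [mul_inv_cancel₀ hz, one_smul]
    rw [smul_sub, smul_smul]
    conv_lhs => rw [h2]
    module
  have hel : e * j l = z • e := by
    have h1 : e * j l = j l * e := by
      rw [he, smul_mul_assoc, mul_smul_comm, sub_mul, mul_sub, smul_mul_assoc, one_mul,
        mul_smul_comm, mul_one]
    rw [h1, hle]
  have he2 : e * e = e := by
    have h1 : e * e = ((z - z⁻¹)⁻¹ • (j l - z⁻¹ • (1 : 𝒜))) * e := congrArg (fun x => x * e) he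
    rw [h1, smul_mul_assoc, sub_mul, smul_mul_assoc, one_mul, hle, ← sub_smul, smul_smul,
      inv_mul_cancel₀ hd, one_smul]
  have hte : t e = 1 := by
    rw [he, map_smul, map_sub, map_smul, hP.tj, hT, ht1, smul_eq_mul, smul_eq_mul]
    have h1 : z + z⁻¹ - z⁻¹ * 2 = z - z⁻¹ := by ring
    rw [h1, inv_mul_cancel₀ hd]
  have hl : j l = z • e + z⁻¹ • (1 - e) := by
    have h1 : (z - z⁻¹) • e = j l - z⁻¹ • (1 : 𝒜) := by
      rw [he, smul_smul, mul_inv_cancel₀ hd, one_smul]
    have h2 : z • e + z⁻¹ • (1 - e) = (z - z⁻¹) • e + z⁻¹ • (1 : 𝒜) := by module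
    rw [h2, h1, sub_add_cancel]
  have hpch := hP.pch
  have hcomm := hP.comm
  have he2' : (1 - e) * (1 - e) = 1 - e := by
    rw [mul_sub, mul_one, sub_mul, one_mul, he2, sub_self, sub_zero]
  have hte' : t (1 - e) = 1 := by
    rw [map_sub, ht1, hte]
    norm_num
  refine ⟨e, he2, hte, ht1, hle, hel, hl, ?_, hinv, fun a => ae_corner hcomm hpch he2 hte a,
    fun a => ae_corner hcomm hpch he2' hte' a⟩
  intro g
  unfold al
  rw [he, smul_mul_assoc, map_smul, sub_mul, smul_mul_assoc, one_mul, map_sub, map_smul,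
    ← map_mul, hP.tj, hP.tj, smul_eq_mul, smul_eq_mul, div_eq_inv_mul]

end Pool.Agent.CZD
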