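import Pool.Agent.Lib.MP_305fdd_al.CZ.D.Stm

/-!
# MP_305fdd_al, `C_m * Z`, section D: elements normalising `a`
-/

set_option autoImplicit false

namespace Pool.Agent.CZD

open Pool.Agent.F2 Pool.Agent.F2Ch Pool.Agent.F2D Pool.Agent.CZ Pool.Agent.CC
open Pool.Agent.PSL2Z (TreeAct)

/-- [CZD ag] -/
theorem p_ag (haa : S_aa) (hac : S_ac) : S_ag := by
  intro p m _ k K G _ _ _ _ _ _ C l hl hχ g hg
  obtain ⟨⟨hz0, hzz, hTl⟩, -, hB⟩ := hac p m k K G C l hl hχ
  obtain ⟨a1, a2, a3, -, a5, -⟩ := haa G K C.T l (zl C l) C.pc hz0 hzz hTl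
  have hzl : zl C (g * l * g⁻¹) = zl C l := by
    unfold zl
    have : C.χ (g * l * g⁻¹) = C.χ l := by
      rw [map_mul, map_mul, map_inv, mul_comm (C.χ g), mul_assoc, mul_inv_cancel, mul_one]
    rw [this]
  have hd : zl C l - (zl C l)⁻¹ ≠ 0 := sub_ne_zero.2 hzz
  have h1 : ∀ x, C.T (g * l * g⁻¹ * x) = C.T (l * x) := by
    intro x
    have h := congrFun hg x
    unfold aC at h
    rw [hzl] at h
    unfold al at h
    rw [div_left_inj' hd, sub_left_inj] at h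
    exact h
  have h2 : ∀ x, al C.T l (zl C l) (g * x) = al C.T l (zl C l) (x * g) := by
    intro x
    unfold al
    have e1 : C.T (l * (g * x)) = C.T (l * (x * g)) := by
      have h := h1 (g * x)
      rw [← h, ← mul_assoc l x g, C.pc.comm (l * x) g]
      congr 1
      group
    rw [e1, C.pc.comm g x]
  set a := al C.T l (zl C l) with ha
  have h3 : ∀ x, Fe a g x = Fe a x g := by
    intro x
    unfold Fe
    rw [h2 x]; ring
  have h4 : ∀ x, Fe a (l * x) g = zl C l * Fe a x g := by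
    intro x
    unfold Fe
    rw [mul_assoc l x g, a3, a3]; ring
  have h5 : Fe a g⁻¹ g = 0 := by
    have e1 : zl C l * Fe a g⁻¹ g = (zl C l)⁻¹ * Fe a g⁻¹ g := by
      rw [← h4, ← h3, a5, h3]
    have e2 : (zl C l - (zl C l)⁻¹) * Fe a g⁻¹ g = 0 := by rw [sub_mul, e1, sub_self]
    exact (mul_eq_zero.1 e2).resolve_left hd
  have h6 : a g * a g⁻¹ = 1 := by
    unfold Fe at h5
    rw [inv_mul_cancel, a1, sub_eq_zero] at h5
    rw [mul_comm]; exact h5.symm
  obtain ⟨hb1, -⟩ := hB g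
  obtain ⟨hb2, -⟩ := hB g⁻¹
  exact ⟨a g, hb1, a g⁻¹, hb2, h6, (a2 g).symm⟩

end Pool.Agent.CZD
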