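import Pool.Agent.Lib.MP_305fdd_al.CZ.D.StmH

set_option autoImplicit false

namespace Pool.Agent.CZD

open Pool.Agent.F2 Pool.Agent.F2Ch Pool.Agent.F2D Pool.Agent.CZ Pool.Agent.CC
open Pool.Agent.PSL2Z (TreeAct)
open Pool.Agent.PSL2Z.Transv

theorem p_alt : S_alt := by
  classical
  intro G V _ _ X ty hfg hX v₀
  haveI : Group.FG G := hfg
  obtain ⟨Y₀, V₁, hv₀, hinv, hconn, hY₀⟩ := exists_cocompact (Λ := G) hX.tree.1 hX.adj v₀
  let act : MulAction G V₁ :=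
    { smul := fun g v => ⟨g • v.1, hinv g v.1 v.2⟩
      one_smul := fun v => Subtype.ext (one_smul G v.1)
      mul_smul := fun g h v => Subtype.ext (mul_smul g h v.1) }
  have hT : TreeAct G V₁ (X.induce V₁) (fun v => ty v.1) :=
    { tree := ⟨hconn, hX.tree.2.induce V₁⟩
      adj := fun g v z hvz => hX.adj g _ _ hvz
      ty_smul := fun g v => hX.ty_smul g v.1
      ty_adj := fun v z hvz => hX.ty_adj _ _ hvz }
  have hY₀' : ∀ v : V₁, ∃ y ∈ (Y₀.filter fun y => y ∈ V₁).attach.image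
      (fun y => (⟨y.1, (Finset.mem_filter.1 y.2).2⟩ : V₁)), ∃ g : G, g • y = v := by
    intro v
    obtain ⟨y, hy, g, hg⟩ := hY₀ v.1 v.2
    have hyV : y ∈ V₁ := by
      have h1 := hinv g⁻¹ v.1 v.2
      rwa [← hg, inv_smul_smul] at h1
    refine ⟨⟨y, hyV⟩, ?_, g, Subtype.ext hg⟩
    rw [Finset.mem_image]
    exact ⟨⟨y, Finset.mem_filter.2 ⟨hy, hyV⟩⟩, Finset.mem_attach _ _, rfl⟩
  have hcu : ((X.induce V₁).induce (Set.univ : Set V₁)).Connected := by
    refine connected_of_base (a := (⟨v₀, hv₀⟩ : V₁)) (Set.mem_univ _) ?_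
    intro b _
    obtain ⟨Y, _, hbY, h⟩ := exists_finite_conn hT.tree.1 ⟨v₀, hv₀⟩ {b}
    exact rtg_mono (Set.subset_univ _) (h b (hbY (Finset.mem_singleton_self b)))
  obtain ⟨Y, hYne, _, hYc, hY₁, hY₂⟩ := exists_maximal (Λ := G) (V₁ := (Set.univ : Set V₁))
    (v₀ := (⟨v₀, hv₀⟩ : V₁)) hT.adj (Set.mem_univ _) (fun _ _ _ => Set.mem_univ _) hcu
    (fun v _ => hY₀' v)
  refine ⟨V₁, act, X.induce V₁, fun v => ty v.1, Subtype.val, Y, hT, ?_, ⟨⟨v₀, hv₀⟩, rfl⟩, ?_⟩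
  · exact
      { inj := Subtype.val_injective
        smul := fun _ _ => rfl
        adj := fun _ _ h => h }
  · exact
      { nonempty := hYne
        conn := hYc
        ineq := hY₁
        cover := fun v => hY₂ v (Set.mem_univ v) }

end Pool.Agent.CZD
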