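import Pool.Agent.Lib.MP_305fdd_al.CZ.D.Stm

/-!
# MP_305fdd_al, `C_m * Z`, section D: commuting exact elements have the same `a`
-/

set_option autoImplicit false

namespace Pool.Agent.CZD

open Pool.Agent.F2 Pool.Agent.F2Ch Pool.Agent.F2D Pool.Agent.CZ Pool.Agent.CC
open Pool.Agent.PSL2Z (TreeAct)

/-- Piece au -/
theorem p_au (hab : S_ab) (hac : S_ac) (haa : S_aa) : S_au := by
  intro p m _ k K G _ _ _ _ _ _ C l l' hl hl2 hl' hl2' hcomm
  obtain ⟨⟨hz0, hz1, hTl⟩, -, hres⟩ := hac p m k K G C l hl hl2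
  obtain ⟨⟨hz0', hz1', hTl'⟩, -, -⟩ := hac p m k K G C l' hl' hl2'
  obtain ⟨hprod, hT⟩ := hab G K C.T l (zl C l) C.pc hz0 hz1 hTl l' hcomm
  obtain ⟨-, hsum, -⟩ := haa G K C.T l (zl C l) C.pc hz0 hz1 hTl
  change aC C l l' * aC C l l'⁻¹ = 1 at hprod
  change ∀ x, C.T (l' * x) = aC C l l' * aC C l x + aC C l l'⁻¹ * (C.T x - aC C l x) at hT
  have hs : aC C l l' + aC C l l'⁻¹ = zl C l' + (zl C l')⁻¹ := (hsum l').trans hTl'
  have hzz : zl C l' * (zl C l')⁻¹ = 1 := mul_inv_cancel₀ hz0'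
  have hq : (aC C l l' - zl C l') * (aC C l l' - (zl C l')⁻¹) = 0 := by
    linear_combination aC C l l' * hs - hprod + hzz
  have hval : aC C l l' = zl C l' := by
    rcases mul_eq_zero.mp hq with h | h
    · exact sub_eq_zero.mp h
    · exfalso
      have h1 : aC C l l' = (zl C l')⁻¹ := sub_eq_zero.mp h
      obtain ⟨hB, hr⟩ := hres l'
      have h2 : (⟨aC C l l', hB⟩ : C.B) = algebraMap k C.B ((C.χ l' : k)⁻¹) := by
        apply Subtype.ext
        show aC C l l' = algebraMap k K ((C.χ l' : k)⁻¹)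
        rw [h1, map_inv₀]
        rfl
      rw [h2, AlgHom.commutes, hl'.1] at hr
      have h3 := congrArg (fun f : Ls k => f.coeff 0) hr
      simp at h3
      apply hl2'
      apply Units.ext
      have h4 : (C.χ l' : k) ≠ 0 := Units.ne_zero _
      rw [Units.val_pow_eq_pow_val, Units.val_one]
      field_simp at h3
      rw [h3]
  have hval' : aC C l l'⁻¹ = (zl C l')⁻¹ := by
    rw [hval] at hs
    exact add_left_cancel hs
  funext x
  show al C.T l' (zl C l') x = aC C l x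
  unfold al
  rw [hT x, hval, hval']
  have hne : zl C l' - (zl C l')⁻¹ ≠ 0 := sub_ne_zero.mpr hz1'
  rw [div_eq_iff hne]
  ring

end Pool.Agent.CZD
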