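import Pool.Agent.Lib.MP_305fdd_al.CZ.D.Stm

/-!
# MP_305fdd_al, `C_m * Z`, section D: piece [CZD ce]
-/

set_option autoImplicit false

namespace Pool.Agent.CZD

open Pool.Agent.F2 Pool.Agent.F2Ch Pool.Agent.F2D Pool.Agent.CZ Pool.Agent.CC
open Pool.Agent.PSL2Z (TreeAct)

theorem p_ce : S_ce := by
  intro G V _ _ X ty Y hT hY hne
  have h1 : ∃ u v, X.Adj u v ∧ ∀ y ∈ Y, ∀ z ∈ Y, X.Adj y z → ∀ g : G, g • y = u → ¬ g • z = v := by
    by_contra hcon
    push Not at hcon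
    apply hne
    exact { nonempty := hY.nonempty
            conn := hY.conn
            ineq := hY.ineq
            cover := hY.cover
            edge := fun u v huv => by
              obtain ⟨y, hy, z, hz, hyz, g, hg1, hg2⟩ := hcon u v huv
              exact ⟨y, hy, z, hz, hyz, g, hg1, hg2⟩ }
  obtain ⟨u, v, huv, hno⟩ := h1
  obtain ⟨a, ha, h, hh⟩ := hY.cover u
  obtain ⟨y, hy, g, hg⟩ := hY.cover (h⁻¹ • v)
  have hb : h • (h⁻¹ • v) = v := smul_inv_smul h v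
  have hab : X.Adj a (h⁻¹ • v) := by
    have := hT.adj h⁻¹ u v huv
    rwa [← hh, inv_smul_smul] at this
  refine ⟨a, h⁻¹ • v, y, g, hab, ha, hy, hg.symm, ?_⟩
  intro y1 hy1 y2 hy2 hadj
  refine ⟨hadj, ?_, ?_⟩
  · rintro ⟨k, hk1, hk2⟩
    apply hno y1 hy1 y2 hy2 hadj (h * k⁻¹)
    · rw [← hk1, mul_smul, inv_smul_smul, hh]
    · rw [← hk2, mul_smul, inv_smul_smul, hb]
  · rintro ⟨k, hk1, hk2⟩
    apply hno y2 hy2 y1 hy1 hadj.symm (h * k⁻¹)
    · rw [← hk1, mul_smul, inv_smul_smul, hh]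
    · rw [← hk2, mul_smul, inv_smul_smul, hb]

end Pool.Agent.CZD
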