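import Pool.Agent.Lib.MP_305fdd_al.CZ.D.Stm

/-!
# MP_305fdd_al, `C_m * Z`, section D: piece cen (the centre of `C_m * Z` is trivial)
-/

set_option autoImplicit false

namespace Pool.Agent.CZD

open Pool.Agent.F2 Pool.Agent.F2Ch Pool.Agent.F2D Pool.Agent.CZ Pool.Agent.CC
open Pool.Agent.PSL2Z (TreeAct)

/-- the action of `A` on the free group on `A` -/
private def cen_th (A : Type) [Group A] : A →* MulAut (FreeGroup A) where
  toFun d := FreeGroup.freeGroupCongr (Equiv.mulLeft d)
  map_one' := by
    apply MulEquiv.toMonoidHom_injective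
    apply FreeGroup.ext_hom
    intro a
    show FreeGroup.map (Equiv.mulLeft (1 : A)) (FreeGroup.of a) = FreeGroup.of a
    rw [FreeGroup.map.of]
    simp
  map_mul' d e := by
    apply MulEquiv.toMonoidHom_injective
    apply FreeGroup.ext_hom
    intro a
    show FreeGroup.map (Equiv.mulLeft (d * e)) (FreeGroup.of a) =
      FreeGroup.map (Equiv.mulLeft d) (FreeGroup.map (Equiv.mulLeft e) (FreeGroup.of a))
    rw [FreeGroup.map.of, FreeGroup.map.of, FreeGroup.map.of]
    simp [mul_assoc]

private lemma cen_th_of (A : Type) [Group A] (d a : A) :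
    cen_th A d (FreeGroup.of a) = FreeGroup.of (d * a) := by
  show FreeGroup.map (Equiv.mulLeft d) (FreeGroup.of a) = FreeGroup.of (d * a)
  rw [FreeGroup.map.of]
  rfl

private abbrev cen_S (A : Type) [Group A] : Type := FreeGroup A ⋊[cen_th A] A

private def cen_Phi (m : ℕ) : WW m →* cen_S (Multiplicative (ZMod m)) :=
  Monoid.Coprod.lift SemidirectProduct.inr
    (zpowersHom (cen_S (Multiplicative (ZMod m))) (SemidirectProduct.inl (FreeGroup.of 1)))

private lemma cen_Phi_inl (m : ℕ) (d : Multiplicative (ZMod m)) :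
    cen_Phi m (Monoid.Coprod.inl d) = SemidirectProduct.inr d := Monoid.Coprod.lift_apply_inl _ _ _

private lemma cen_Phi_yy (m : ℕ) :
    cen_Phi m (yy m) = SemidirectProduct.inl (FreeGroup.of 1) := by
  unfold cen_Phi yy
  rw [Monoid.Coprod.lift_apply_inr, zpowersHom_apply, toAdd_ofAdd, zpow_one]

private def cen_f (m : ℕ) : FreeGroup (Multiplicative (ZMod m)) →* WW m :=
  FreeGroup.lift fun e => (Monoid.Coprod.inl e : WW m) * yy m * (Monoid.Coprod.inl e : WW m)⁻¹

private lemma cen_f_of (m : ℕ) (e : Multiplicative (ZMod m)) : cen_f m (FreeGroup.of e) =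
    (Monoid.Coprod.inl e : WW m) * yy m * (Monoid.Coprod.inl e : WW m)⁻¹ :=
  FreeGroup.lift_apply_of

private def cen_Psi (m : ℕ) : cen_S (Multiplicative (ZMod m)) →* WW m :=
  SemidirectProduct.lift (cen_f m) (Monoid.Coprod.inl : Multiplicative (ZMod m) →* WW m) (by
      intro d
      apply FreeGroup.ext_hom
      intro a
      show cen_f m (cen_th _ d (FreeGroup.of a)) =
        (Monoid.Coprod.inl d : WW m) * cen_f m (FreeGroup.of a) * (Monoid.Coprod.inl d : WW m)⁻¹
      rw [cen_th_of, cen_f_of, cen_f_of, map_mul, mul_inv_rev]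
      simp only [mul_assoc])

private lemma cen_Psi_Phi (m : ℕ) : (cen_Psi m).comp (cen_Phi m) = MonoidHom.id (WW m) := by
  apply Monoid.Coprod.hom_ext
  · apply MonoidHom.ext
    intro d
    show cen_Psi m (cen_Phi m (Monoid.Coprod.inl d)) = (Monoid.Coprod.inl d : WW m)
    rw [cen_Phi_inl]
    exact SemidirectProduct.lift_inr _ _ _ _
  · apply MonoidHom.ext_mint
    show cen_Psi m (cen_Phi m (yy m)) = yy m
    rw [cen_Phi_yy]
    unfold cen_Psi
    rw [SemidirectProduct.lift_inl, cen_f_of, map_one, one_mul, inv_one, mul_one]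

theorem p_cen (hcf : S_cf) : S_cen := by
  intro m hm z hz
  have hne : (1 : Multiplicative (ZMod m)) ≠ Multiplicative.ofAdd 1 := by
    have : Fact (1 < m) := ⟨hm⟩
    intro h
    have h1 : (0 : ZMod m) = 1 := congrArg Multiplicative.toAdd h
    exact zero_ne_one h1
  have hrange : ∀ u : FreeGroup (Multiplicative (ZMod m)),
      (SemidirectProduct.inl u : cen_S (Multiplicative (ZMod m))) ∈ (cen_Phi m).range := by
    intro u
    induction u using FreeGroup.induction_on with
    | C1 => rw [map_one]; exact one_mem _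
    | of e =>
      refine ⟨Monoid.Coprod.inl e * yy m * (Monoid.Coprod.inl e)⁻¹, ?_⟩
      rw [map_mul, map_mul, map_inv, cen_Phi_inl, cen_Phi_yy, ← map_inv, ← SemidirectProduct.inl_aut,
        cen_th_of, mul_one]
    | inv_of e ih => rw [map_inv]; exact inv_mem ih
    | mul a b ha hb => rw [map_mul]; exact mul_mem ha hb
  have hcomm : ∀ u : FreeGroup (Multiplicative (ZMod m)),
      cen_Phi m z * SemidirectProduct.inl u = SemidirectProduct.inl u * cen_Phi m z := by
    intro u
    obtain ⟨w, hw⟩ := hrange u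
    rw [← hw, ← map_mul, hz, map_mul]
  have hleft : ∀ u : FreeGroup (Multiplicative (ZMod m)),
      (cen_Phi m z).left * cen_th _ (cen_Phi m z).right u = u * (cen_Phi m z).left := by
    intro u
    have h := congrArg SemidirectProduct.left (hcomm u)
    rw [SemidirectProduct.mul_left, SemidirectProduct.mul_left, SemidirectProduct.left_inl,
      SemidirectProduct.right_inl, map_one, MulAut.one_apply] at h
    exact h
  have hd : (cen_Phi m z).right = 1 := by
    classical
    by_contra hcon
    have h := hleft (FreeGroup.of 1)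
    rw [cen_th_of, mul_one] at h
    have h1 := congrArg (FreeGroup.lift fun e : Multiplicative (ZMod m) =>
      if e = 1 then (Multiplicative.ofAdd (1 : ℤ)) else 1) h
    rw [map_mul, map_mul, FreeGroup.lift_apply_of, FreeGroup.lift_apply_of, if_neg hcon, if_pos rfl,
      mul_one, right_eq_mul] at h1
    have h2 : (1 : ℤ) = 0 := congrArg Multiplicative.toAdd h1
    exact one_ne_zero h2
  have hw : (cen_Phi m z).left = 1 := by
    apply hcf _ 1 (Multiplicative.ofAdd 1) hne
    intro u
    have h := hleft u
    rw [hd, map_one, MulAut.one_apply] at h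
    exact h
  have h1 : cen_Phi m z = 1 := SemidirectProduct.ext hw hd
  have h2 := DFunLike.congr_fun (cen_Psi_Phi m) z
  have h3 : cen_Psi m (cen_Phi m z) = z := h2
  rw [← h3, h1, map_one]

end Pool.Agent.CZD
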