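import Pool.Agent.Lib.MP_305fdd_al.CZ.D.Stm

/-!
# [CZD cf] The centre of a free group with at least two generators
-/

set_option autoImplicit false

namespace Pool.Agent.CZD

open Pool.Agent.F2 Pool.Agent.F2Ch Pool.Agent.F2D Pool.Agent.CZ Pool.Agent.CC
open Pool.Agent.PSL2Z (TreeAct)

theorem cf_aux {α : Type} [DecidableEq α] (x : α) (w : FreeGroup α) (a : α) (b : Bool)
    (L : List (α × Bool)) (hw : w.toWord = (a, b) :: L) (hax : x ≠ a)
    (hc : w * FreeGroup.of x = FreeGroup.of x * w) : False := by
  have h1 : (FreeGroup.of x * w).toWord = (x, true) :: w.toWord := by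
    rw [FreeGroup.toWord_mul, FreeGroup.toWord_of, List.singleton_append, FreeGroup.reduce.cons,
      FreeGroup.reduce_toWord, hw]
    simp [hax]
  have h2 : (w * FreeGroup.of x).toWord.Sublist (w.toWord ++ (FreeGroup.of x).toWord) :=
    FreeGroup.toWord_mul_sublist w (FreeGroup.of x)
  rw [hc, h1, FreeGroup.toWord_of] at h2
  have h3 := h2.eq_of_length (by simp)
  rw [hw] at h3
  simp only [List.cons_append, List.cons.injEq, Prod.mk.injEq] at h3
  exact hax h3.1.1

theorem p_cf : S_cf := by
  classical
  intro α s t hst w hw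
  by_contra hne
  have h1 : w.toWord ≠ [] := by
    intro h
    exact hne (FreeGroup.toWord_eq_nil_iff.mp h)
  obtain ⟨⟨a, b⟩, L, hL⟩ := List.exists_cons_of_ne_nil h1
  by_cases hs : s = a
  · have ht : t ≠ a := by
      intro h
      exact hst (hs.trans h.symm)
    exact cf_aux t w a b L hL ht (hw _)
  · exact cf_aux s w a b L hL hs (hw _)

end Pool.Agent.CZD
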