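import Pool.Agent.Lib.MP_305fdd_al.CZ.D.Stm

/-!
# MP_305fdd_al, `C_m * Z`, section D: the homomorphism is onto
-/

set_option autoImplicit false

namespace Pool.Agent.CZD

open Pool.Agent.F2 Pool.Agent.F2Ch Pool.Agent.F2D Pool.Agent.CZ Pool.Agent.CC
open Pool.Agent.PSL2Z (TreeAct)

section
variable {G V : Type} [Group G] [MulAction G V] {X : SimpleGraph V} {ty : V → Bool} {a b : V}

private theorem cg_symm {u v : V} (h : NE G X a b u v) : NE G X a b v u :=
  ⟨h.1.symm, h.2.2, h.2.1⟩

private theorem cg_ne (hT : TreeAct G V X ty) (g : G) {u v : V} (h : NE G X a b u v) :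
    NE G X a b (g • u) (g • v) := by
  refine ⟨hT.adj g u v h.1, ?_, ?_⟩
  · rintro ⟨k, k1, k2⟩
    exact h.2.1 ⟨g⁻¹ * k, by rw [mul_smul, k1, inv_smul_smul], by rw [mul_smul, k2, inv_smul_smul]⟩
  · rintro ⟨k, k1, k2⟩
    exact h.2.2 ⟨g⁻¹ * k, by rw [mul_smul, k1, inv_smul_smul], by rw [mul_smul, k2, inv_smul_smul]⟩

/-- joined by edges in `NE` -/
private def cg_S (G : Type) {V : Type} [Group G] [MulAction G V] (X : SimpleGraph V) (a b : V)
    (u v : V) : Prop := Relation.ReflTransGen (NE G X a b) u v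

private theorem cg_S_refl (u : V) : cg_S G X a b u u := Relation.ReflTransGen.refl

private theorem cg_S_symm {u v : V} (h : cg_S G X a b u v) : cg_S G X a b v u := by
  induction h with
  | refl => exact Relation.ReflTransGen.refl
  | tail _ h2 ih => exact Relation.ReflTransGen.head (cg_symm h2) ih

private theorem cg_S_trans {u v w : V} (h : cg_S G X a b u v) (h' : cg_S G X a b v w) :
    cg_S G X a b u w := Relation.ReflTransGen.trans h h'

private theorem cg_S_smul (hT : TreeAct G V X ty) (g : G) {u v : V} (h : cg_S G X a b u v) :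
    cg_S G X a b (g • u) (g • v) :=
  Relation.ReflTransGen.lift (fun v => g • v) (fun _ _ h => cg_ne hT g h) _ _ h

private theorem cg_S_const {W : Type} (P : V → W) (hP : ∀ u v, NE G X a b u v → P u = P v)
    {u v : V} (h : cg_S G X a b u v) : P u = P v := by
  induction h with
  | refl => rfl
  | tail _ h2 ih => rw [ih, hP _ _ h2]

private theorem cg_S_Y {Y : Finset V} (hY : Tr G X Y)
    (hNE : ∀ y1 ∈ Y, ∀ y2 ∈ Y, X.Adj y1 y2 → NE G X a b y1 y2) {y1 y2 : V} (h1 : y1 ∈ Y)
    (h2 : y2 ∈ Y) : cg_S G X a b y1 y2 := by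
  have h := hY.conn.preconnected ⟨y1, h1⟩ ⟨y2, h2⟩
  rw [SimpleGraph.reachable_iff_reflTransGen] at h
  exact Relation.ReflTransGen.lift Subtype.val
    (fun u v huv => hNE u.1 u.2 v.1 v.2 huv) _ _ h

/-- the stabiliser of the class of `a` -/
private def cg_G0 (hT : TreeAct G V X ty) (a b : V) : Subgroup G where
  carrier := {h | cg_S G X a b (h • a) a}
  one_mem' := by
    show cg_S G X a b ((1 : G) • a) a
    rw [one_smul]; exact cg_S_refl a
  mul_mem' := by
    intro h h' hh hh'
    show cg_S G X a b ((h * h') • a) a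
    rw [mul_smul]
    exact cg_S_trans (cg_S_smul hT h hh') hh
  inv_mem' := by
    intro h hh
    show cg_S G X a b (h⁻¹ • a) a
    have := cg_S_smul hT h⁻¹ hh
    rw [inv_smul_smul] at this
    exact cg_S_symm this

end

private theorem cg_zpow {n : Multiplicative ℤ} {i : ℤ} (h : n ^ i = 1) : n = 1 ∨ i = 0 := by
  have h1 : i * Multiplicative.toAdd n = 0 := by
    have := congrArg Multiplicative.toAdd h
    rwa [toAdd_zpow, smul_eq_mul, toAdd_one] at this
  rcases mul_eq_zero.1 h1 with h2 | h2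
  · exact Or.inr h2
  · left
    exact Multiplicative.toAdd.injective h2

theorem p_cg (hpot : S_pot) (hcp : S_cp) : S_cg := by
  intro m G V _ _ δ ν X ty Y hG hT hY a b y g hab haY hyY hb hNE hδ
  obtain ⟨F, η, F1, F2, F3⟩ := hpot G V X ty hT a b hab
  obtain ⟨P, f, P0, P1, P2, P3⟩ := hcp m G V δ X ty hT a b hab hδ a
  have hya : cg_S G X a b y a := cg_S_Y hY hNE hyY haY
  have hPy : P y = 1 := by rw [cg_S_const P P3 hya, P0]
  have hFy : F y = F a := cg_S_const F F3 hya
  have hηg : η g = Multiplicative.ofAdd 1 := by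
    have h1 := F1 g y
    rw [← hb, F2, hFy, mul_comm (F a)] at h1
    exact (mul_right_cancel h1).symm
  obtain ⟨α, hα⟩ := hG.mul η
  have hone : (Multiplicative.ofAdd (1 : ℤ)) ≠ 1 := by
    intro h
    have := congrArg Multiplicative.toAdd h
    rw [toAdd_ofAdd, toAdd_one] at this
    omega
  have hα0 : α ≠ 0 := by
    intro h
    have := hα g
    rw [hηg, h, zpow_zero] at this
    exact hone this
  have hνg : ν g ≠ 1 := by
    intro h
    have := hα g
    rw [hηg, h, one_zpow] at this
    exact hone this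
  have hfg : f g = yy m * dd δ g := by
    have h1 := P1 g y
    rw [← hb, P2, P0, one_mul, hPy, mul_one] at h1
    rw [h1, inv_mul_cancel_right]
  -- the subgroup `G0`
  have g0f : ∀ h ∈ cg_G0 hT a b, f h = dd δ h := by
    intro h hh
    have h1 := P1 h a
    rw [cg_S_const P P3 hh, P0, mul_one] at h1
    exact (mul_inv_eq_one.1 h1.symm)
  have g0ν : ∀ h ∈ cg_G0 hT a b, ν h = 1 := by
    intro h hh
    have h1 := F1 h a
    rw [cg_S_const F F3 hh] at h1
    have h2 : η h = 1 := by
      have := congrArg (fun x => x * (F a)⁻¹) h1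
      simp only [mul_inv_cancel_right, mul_inv_cancel] at this
      exact this.symm
    have h3 := hα h
    rw [h2] at h3
    rcases cg_zpow h3.symm with h4 | h4
    · exact h4
    · exact absurd h4 hα0
  -- `L` is everything
  have hcl : ∀ k h : G, cg_S G X a b (h • a) (k • a) → k⁻¹ * h ∈ cg_G0 hT a b := by
    intro k h hkh
    show cg_S G X a b ((k⁻¹ * h) • a) a
    have := cg_S_smul hT k⁻¹ hkh
    rwa [inv_smul_smul, ← mul_smul] at this
  obtain ⟨L, hL⟩ : ∃ L : Subgroup G, L = Subgroup.closure ((cg_G0 hT a b : Set G) ∪ {g}) :=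
    ⟨_, rfl⟩
  have hL0 : ∀ h ∈ cg_G0 hT a b, h ∈ L := fun h hh => by
    rw [hL]; exact Subgroup.subset_closure (Or.inl hh)
  have hLg : g ∈ L := by rw [hL]; exact Subgroup.subset_closure (Or.inr rfl)
  have hreach : ∀ v : V, ∃ k ∈ L, cg_S G X a b v (k • a) := by
    intro v
    have h := hT.tree.connected.preconnected a v
    rw [SimpleGraph.reachable_iff_reflTransGen] at h
    induction h with
    | refl => exact ⟨1, L.one_mem, by rw [one_smul]; exact cg_S_refl a⟩
    | @tail v v' _ hvv ih =>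
      obtain ⟨k, hk, hvk⟩ := ih
      by_cases h1 : Orb G a b v v'
      · obtain ⟨h, ha, hb'⟩ := h1
        have h2 : k⁻¹ * h ∈ cg_G0 hT a b := hcl k h (by rw [ha]; exact hvk)
        have h3 : h ∈ L := by
          have := L.mul_mem hk (hL0 _ h2)
          rwa [mul_inv_cancel_left] at this
        refine ⟨h * g, L.mul_mem h3 hLg, ?_⟩
        have e : v' = (h * g) • y := by rw [← hb', hb, ← mul_smul]
        rw [e]
        exact cg_S_smul hT (h * g) hya
      · by_cases h2 : Orb G a b v' v
        · obtain ⟨h, ha, hb'⟩ := h2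
          have e : v = (h * g) • y := by rw [← hb', hb, ← mul_smul]
          have h3 : cg_S G X a b ((h * g) • a) (k • a) := by
            refine cg_S_trans (cg_S_symm (cg_S_smul hT (h * g) hya)) ?_
            rw [← e]; exact hvk
          have h4 := hcl k (h * g) h3
          have h5 : h * g ∈ L := by
            have := L.mul_mem hk (hL0 _ h4)
            rwa [mul_inv_cancel_left] at this
          have h6 : h ∈ L := by
            have := L.mul_mem h5 (L.inv_mem hLg)
            rwa [mul_inv_cancel_right] at this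
          exact ⟨h, h6, by rw [ha]; exact cg_S_refl _⟩
        · refine ⟨k, hk, cg_S_trans ?_ hvk⟩
          exact Relation.ReflTransGen.single ⟨hvv.symm, h2, h1⟩
  have hLtop : ∀ h : G, h ∈ L := by
    intro h
    obtain ⟨k, hk, hk2⟩ := hreach (h • a)
    have := L.mul_mem hk (hL0 _ (hcl k h hk2))
    rwa [mul_inv_cancel_left] at this
  have hform : ∀ h : G, ∃ h0 ∈ cg_G0 hT a b, ∃ i : ℤ, δ h = δ h0 * δ g ^ i ∧ ν h = ν g ^ i := by
    intro h
    have hh := hLtop h
    rw [hL] at hh
    induction hh using Subgroup.closure_induction with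
    | mem x hx =>
      rcases hx with hx | hx
      · exact ⟨x, hx, 0, by rw [zpow_zero, mul_one], by rw [zpow_zero]; exact g0ν x hx⟩
      · rw [Set.mem_singleton_iff] at hx
        exact ⟨1, (cg_G0 hT a b).one_mem, 1, by rw [hx, map_one, one_mul, zpow_one],
          by rw [hx, zpow_one]⟩
    | one => exact ⟨1, (cg_G0 hT a b).one_mem, 0, by rw [zpow_zero, mul_one],
        by rw [zpow_zero, map_one]⟩
    | mul x z _ _ ihx ihz =>
      obtain ⟨x0, hx0, i, hi1, hi2⟩ := ihx
      obtain ⟨z0, hz0, j, hj1, hj2⟩ := ihz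
      refine ⟨x0 * z0, (cg_G0 hT a b).mul_mem hx0 hz0, i + j, ?_, ?_⟩
      · rw [map_mul, hi1, hj1, map_mul, zpow_add, mul_mul_mul_comm]
      · rw [map_mul, hi2, hj2, zpow_add]
    | inv x _ ihx =>
      obtain ⟨x0, hx0, i, hi1, hi2⟩ := ihx
      refine ⟨x0⁻¹, (cg_G0 hT a b).inv_mem hx0, -i, ?_, ?_⟩
      · rw [map_inv, hi1, map_inv, zpow_neg, mul_inv]
      · rw [map_inv, hi2, zpow_neg]
  -- the range
  have hinl : ∀ d : Multiplicative (ZMod m), (Monoid.Coprod.inl d : WW m) ∈ f.range := by
    intro d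
    obtain ⟨h, h1, h2⟩ := hG.surj d 1
    obtain ⟨h0, hh0, i, hi1, hi2⟩ := hform h
    have hi : i = 0 := by
      rw [h2] at hi2
      rcases cg_zpow hi2.symm with h3 | h3
      · exact absurd h3 hνg
      · exact h3
    rw [hi, zpow_zero, mul_one, h1] at hi1
    refine ⟨h0, ?_⟩
    rw [g0f h0 hh0, hi1]; rfl
  have hyy : yy m ∈ f.range := by
    have h1 : f g ∈ f.range := ⟨g, rfl⟩
    rw [hfg] at h1
    have h2 := f.range.mul_mem h1 (f.range.inv_mem (hinl (δ g)))
    have h3 : yy m * dd δ g * (Monoid.Coprod.inl (δ g) : WW m)⁻¹ = yy m := by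
      show yy m * dd δ g * (dd δ g)⁻¹ = yy m
      rw [mul_inv_cancel_right]
    rwa [h3] at h2
  refine ⟨f, ?_⟩
  rw [← MonoidHom.range_eq_top, eq_top_iff]
  intro w _
  induction w using Monoid.Coprod.induction_on with
  | inl d => exact hinl d
  | inr n =>
    have e : (Monoid.Coprod.inr n : WW m) = yy m ^ (Multiplicative.toAdd n) := by
      unfold yy
      rw [← map_zpow]
      congr 1
      rw [← ofAdd_zsmul, smul_eq_mul, mul_one]; rfl
    rw [e]
    exact f.range.zpow_mem hyy _
  | mul x z hx hz => exact f.range.mul_mem (hx trivial) (hz trivial)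

end Pool.Agent.CZD
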