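import Pool.Agent.Lib.MP_305fdd_al.CZ.D.Stm

/-!
# MP_305fdd_al, `C_m * Z`, section D, piece cyc
-/

set_option autoImplicit false

namespace Pool.Agent.CZD

open Pool.Agent.F2 Pool.Agent.F2Ch Pool.Agent.F2D Pool.Agent.CZ Pool.Agent.CC
open Pool.Agent.PSL2Z (TreeAct)

theorem p_cyc : S_cyc := by
  intro Λ k _ _ χ N hN hχ L
  haveI : NeZero N := ⟨hN.ne'⟩
  have hle : ∀ u ∈ L.map χ, u ∈ rootsOfUnity N k := by
    rintro u ⟨l, _, rfl⟩
    rw [mem_rootsOfUnity]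
    exact hχ l
  haveI hfin : Finite (L.map χ) :=
    Finite.of_injective (fun u : L.map χ => (⟨u.1, hle u.1 u.2⟩ : rootsOfUnity N k))
      (fun a b h => Subtype.ext (congrArg (fun t : rootsOfUnity N k => (t : kˣ)) h))
  obtain ⟨⟨z, hz⟩, hgen⟩ := (subgroup_units_cyclic (R := k) (L.map χ)).exists_zpow_surjective
  obtain ⟨g, hg, rfl⟩ := hz
  refine ⟨g, hg, fun l hl => ?_⟩
  obtain ⟨n, hn⟩ := hgen ⟨χ l, l, hl, rfl⟩
  refine ⟨n, ?_⟩
  have := congrArg Subtype.val hn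
  simpa using this.symm

end Pool.Agent.CZD
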