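import Pool.Agent.Lib.MP_305fdd_al.CZ.D.Stm

/-!
# [CZD gd] The two characters
-/

set_option autoImplicit false

namespace Pool.Agent.CZD

open Pool.Agent.F2 Pool.Agent.F2Ch Pool.Agent.F2D Pool.Agent.CZ Pool.Agent.CC
open Pool.Agent.PSL2Z (TreeAct)

theorem gd_mul {p m : ℕ} [Fact p.Prime] {k K G : Type} [Field k] [CharP k p] [IsAlgClosed k]
    [Field K] [Algebra k K] [Group G] (C : Core p m k K G) (f : G →* Multiplicative ℤ) :
    ∃ a : ℤ, ∀ g, f g = C.ν g ^ a := by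
  have hm : 2 ≤ m := C.two_le
  obtain ⟨g1, hg1, hg1'⟩ := C.surj 1 (one_pow _) 1
  refine ⟨Multiplicative.toAdd (f g1), fun g => ?_⟩
  set n : ℤ := Multiplicative.toAdd (C.ν g) with hn
  have hνg : C.ν g = Multiplicative.ofAdd n := rfl
  set h : G := g * g1 ^ (-n) with hh
  have hνh : C.ν h = 1 := by
    rw [hh, map_mul, map_zpow, hg1', hνg, ← ofAdd_zsmul, ← ofAdd_add]
    simp
  have h1 : C.χ (h ^ (2 * m)) = 1 := by rw [map_pow]; exact C.χ_pow h
  have h2 : C.ν (h ^ (2 * m)) = 1 := by rw [map_pow, hνh, one_pow]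
  have h3 := C.ker _ h1 h2
  have h4 : f (h ^ (2 * m)) = 1 := by
    have := Abelianization.commutator_subset_ker f h3
    exact MonoidHom.mem_ker.mp this
  have h5 : f h = 1 := by
    rw [map_pow] at h4
    have h6 := congrArg Multiplicative.toAdd h4
    rw [toAdd_pow, toAdd_one, smul_eq_zero] at h6
    rcases h6 with h6 | h6
    · omega
    · exact Multiplicative.toAdd.injective h6
  have h6 : g = h * g1 ^ n := by
    rw [hh]; group
  have h7 : f g = f g1 ^ n := by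
    conv_lhs => rw [h6]
    rw [map_mul, h5, one_mul, map_zpow]
  rw [h7, hνg]
  apply Multiplicative.toAdd.injective
  rw [toAdd_zpow, toAdd_zpow, toAdd_ofAdd, smul_eq_mul, smul_eq_mul, mul_comm]

theorem p_gd : S_gd := by
  intro p m hp k K G _ _ _ _ _ _ C
  have hm : 2 ≤ m := C.two_le
  have hpp : p.Prime := Fact.out
  have hndvd : ¬ p ∣ 2 * m := by
    intro h
    have h1 : p ∣ p + 1 := h.trans C.hpm
    have h2 : p ∣ 1 := (Nat.dvd_add_right (dvd_refl p)).mp h1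
    exact hpp.one_lt.ne' (Nat.dvd_one.mp h2)
  have hne : NeZero ((2 * m : ℕ) : k) :=
    ⟨fun h => hndvd ((CharP.cast_eq_zero_iff k p (2 * m)).mp h)⟩
  have hnem : NeZero m := ⟨by omega⟩
  obtain ⟨ξ0, hξ0⟩ := HasEnoughRootsOfUnity.exists_primitiveRoot k (2 * m)
  have hunit : IsUnit ξ0 := hξ0.isUnit (by omega)
  obtain ⟨ξ, hξu⟩ := hunit
  have hξ : IsPrimitiveRoot ξ (2 * m) := IsPrimitiveRoot.coe_units_iff.mp (by rw [hξu]; exact hξ0)
  have hζ : IsPrimitiveRoot (ξ ^ 2) m := hξ.pow (by omega) rfl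
  have hmem : ∀ g, ((powMonoidHom 2).comp C.χ) g ∈ Subgroup.zpowers (ξ ^ 2) := by
    intro g
    rw [hζ.zpowers_eq, mem_rootsOfUnity]
    change (C.χ g ^ 2) ^ m = 1
    rw [← pow_mul]
    exact C.χ_pow g
  let f : G →* Subgroup.zpowers (ξ ^ 2) :=
    MonoidHom.codRestrict ((powMonoidHom 2).comp C.χ) (Subgroup.zpowers (ξ ^ 2)) hmem
  let E : Multiplicative (ZMod m) ≃* Subgroup.zpowers (ξ ^ 2) :=
    AddEquiv.toMultiplicativeLeft hζ.zmodEquivZPowers
  have hfg : ∀ g, ((f g : Subgroup.zpowers (ξ ^ 2)) : kˣ) = C.χ g ^ 2 := fun g => rfl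
  refine ⟨E.symm.toMonoidHom.comp f, ⟨C.fg, ?_, fun f => gd_mul C f⟩, ?_⟩
  · intro d n
    obtain ⟨j, hj⟩ := (E d).2
    have hj' : (ξ ^ 2) ^ j = ((E d : Subgroup.zpowers (ξ ^ 2)) : kˣ) := hj
    obtain ⟨g, hg1, hg2⟩ := C.surj (ξ ^ j) (by
      rw [← zpow_natCast, ← zpow_mul, mul_comm, zpow_mul, zpow_natCast, hξ.pow_eq_one, one_zpow])
      (Multiplicative.toAdd n)
    refine ⟨g, ?_, hg2⟩
    change E.symm (f g) = d
    rw [MulEquiv.symm_apply_eq]
    apply Subtype.ext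
    rw [hfg, hg1, ← hj', ← zpow_natCast, ← zpow_natCast, ← zpow_mul, ← zpow_mul, mul_comm]
  · intro g
    change E.symm (f g) = 1 ↔ _
    rw [MulEquiv.symm_apply_eq, map_one]
    constructor
    · intro h
      rw [← hfg, h]
      rfl
    · intro h
      apply Subtype.ext
      rw [hfg, h]
      rfl

end Pool.Agent.CZD
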