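import Pool.Agent.Lib.MP_305fdd_al.CZ.D.Stm

/-!
# MP_305fdd_al, `C_m * Z`, section D: piece [CZD iR]
-/

set_option autoImplicit false

namespace Pool.Agent.CZD

open Pool.Agent.F2 Pool.Agent.F2Ch Pool.Agent.F2D Pool.Agent.CZ Pool.Agent.CC
open Pool.Agent.PSL2Z (TreeAct)

section

variable {K Γ : Type} [Field K] [AddCommGroup Γ] [LinearOrder Γ] [IsOrderedAddMonoid Γ]
  {v : K → Γ}

private theorem iR_one (hv : IsV v) : v 1 = 0 := by
  have h := hv.mul 1 1 one_ne_zero one_ne_zero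
  rw [mul_one] at h
  exact (left_eq_add.1 h)

private theorem iR_pow (hv : IsV v) {x : K} (hx : x ≠ 0) (n : ℕ) : v (x ^ n) = n • v x := by
  induction n with
  | zero => rw [pow_zero, iR_one hv, zero_nsmul]
  | succ n ih => rw [pow_succ, hv.mul _ _ (pow_ne_zero _ hx) hx, ih, succ_nsmul]

private theorem iR_inv (hv : IsV v) {x : K} (hx : x ≠ 0) : v x⁻¹ = -v x := by
  have h := hv.mul x x⁻¹ hx (inv_ne_zero hx)
  rw [mul_inv_cancel₀ hx, iR_one hv] at h
  exact (neg_eq_of_add_eq_zero_right h.symm).symm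

private theorem iR_zpow (hv : IsV v) {x : K} (hx : x ≠ 0) (m : ℤ) : v (x ^ m) = m • v x := by
  obtain ⟨n, rfl | rfl⟩ := m.eq_nat_or_neg
  · rw [zpow_natCast, iR_pow hv hx, natCast_zsmul]
  · rw [zpow_neg, zpow_natCast, iR_inv hv (pow_ne_zero _ hx), iR_pow hv hx, neg_smul,
      natCast_zsmul]

end

theorem p_iR (hio : S_io) : S_iR := by
  intro p m _ k K G _ _ _ _ _ _ C f
  have hv : IsV C.R := C.R_inz.isv
  -- elements of `B` which do not vanish on the reducible locus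
  have hR0 : ∀ b : C.B, C.res b ≠ 0 → C.R (b : K) = 0 := by
    intro b hb
    apply C.R_eq (b : K) 0 b 1 hb
    · rw [map_one]; exact one_ne_zero
    · simp
  have hres : ∀ b : C.B, C.res b ≠ 0 → C.R (C.ι (b : K)) = 0 := by
    intro b hb
    obtain ⟨h', hc⟩ := hio p m k K G C (b : K) b.2
    apply hR0 ⟨C.ι (b : K), h'⟩
    intro h0
    apply hb
    ext n
    have h1 := hc (-n)
    rw [h0, neg_neg] at h1
    have h2 : (C.res b).coeff n = 0 := by
      have h3 : (0 : k) = (C.res b).coeff n ^ p := h1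
      exact pow_eq_zero_iff (Nat.Prime.ne_zero Fact.out) |>.1 h3.symm
    rw [h2]; rfl
  have hκ : C.ι (C.κ0 : K) ≠ 0 := by
    rw [Ne, map_eq_zero_iff _ C.ι.injective]; exact C.κ0_ne
  have hmain : ∀ g : K, g ≠ 0 → C.R (C.ι g) = C.R g * C.R (C.ι (C.κ0 : K)) := by
    intro g hg
    obtain ⟨n, a, b, ha, hb, hab⟩ := C.hord g hg
    have hg' : C.ι g ≠ 0 := by
      rw [Ne, map_eq_zero_iff _ C.ι.injective]; exact hg
    have hb0 : (b : K) ≠ 0 := by
      intro h
      apply hb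
      have : b = 0 := Subtype.ext h
      rw [this, map_zero]
    have ha0 : (a : K) ≠ 0 := by
      intro h
      apply ha
      have : a = 0 := Subtype.ext h
      rw [this, map_zero]
    have hb' : C.ι (b : K) ≠ 0 := by
      rw [Ne, map_eq_zero_iff _ C.ι.injective]; exact hb0
    have ha' : C.ι (a : K) ≠ 0 := by
      rw [Ne, map_eq_zero_iff _ C.ι.injective]; exact ha0
    have h1 : C.ι g * C.ι (b : K) = C.ι (C.κ0 : K) ^ n * C.ι (a : K) := by
      rw [← map_mul, hab, map_mul, map_zpow₀]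
    have h2 := hv.mul _ _ hg' hb'
    rw [h1, hv.mul _ _ (zpow_ne_zero n hκ) ha', iR_zpow hv hκ, hres a ha, hres b hb] at h2
    have h3 : C.R g = n := C.R_eq g n a b ha hb hab
    rw [h3]
    simp only [add_zero, smul_eq_mul] at h2
    exact h2.symm
  have he0 : 0 ≤ C.R (C.ι (C.κ0 : K)) := by
    obtain ⟨h', _⟩ := hio p m k K G C (C.κ0 : K) C.κ0.2
    exact C.R_nn ⟨C.ι (C.κ0 : K), h'⟩
  have he : C.R (C.ι (C.κ0 : K)) = 1 := by
    have hne : C.ι.symm (C.κ0 : K) ≠ 0 := by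
      rw [Ne, map_eq_zero_iff _ C.ι.symm.injective]; exact C.κ0_ne
    have h1 := hmain (C.ι.symm (C.κ0 : K)) hne
    rw [RingEquiv.apply_symm_apply, C.R_κ0] at h1
    have h2 : IsUnit (C.R (C.ι (C.κ0 : K))) :=
      IsUnit.of_mul_eq_one _ (by rw [mul_comm]; exact h1.symm)
    rcases Int.isUnit_iff.1 h2 with h3 | h3
    · exact h3
    · omega
  by_cases hf : f = 0
  · rw [hf, map_zero]
  · rw [hmain f hf, he, mul_one]

end Pool.Agent.CZD
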