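import Pool.Agent.Lib.MP_305fdd_al.CZ.D.Stm

/-!
# MP_305fdd_al, [CZD io]: the symmetry on `B`
-/

set_option autoImplicit false

namespace Pool.Agent.CZD

open Pool.Agent.F2 Pool.Agent.F2Ch Pool.Agent.F2D Pool.Agent.CZ Pool.Agent.CC
open Pool.Agent.PSL2Z (TreeAct)

/-- `c s ^ n ↦ c ^ p s ^ (-n)` -/
private noncomputable def io_tw (p : ℕ) [Fact p.Prime] (k : Type) [Field k] [CharP k p] :
    Ls k →+* Ls k :=
  (AddMonoidAlgebra.mapDomainRingEquiv k (AddEquiv.neg ℤ)).toRingHom.comp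
    (AddMonoidAlgebra.mapRingHom ℤ (frobenius k p))

private theorem io_tw_coeff (p : ℕ) [Fact p.Prime] (k : Type) [Field k] [CharP k p] (f : Ls k)
    (n : ℤ) : (io_tw p k f).coeff n = f.coeff (-n) ^ p := by
  show (AddMonoidAlgebra.mapDomainRingEquiv k (AddEquiv.neg ℤ)
    (AddMonoidAlgebra.mapRingHom ℤ (frobenius k p) f)).coeff n = _
  rw [AddMonoidAlgebra.coeff_mapDomainRingEquiv, Finsupp.equivMapDomain_apply,
    AddMonoidAlgebra.coeff_mapRingHom, frobenius_def]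
  rfl

private theorem io_tw_single (p : ℕ) [Fact p.Prime] (k : Type) [Field k] [CharP k p] (n : ℤ)
    (c : k) : io_tw p k (AddMonoidAlgebra.single n c) = AddMonoidAlgebra.single (-n) (c ^ p) := by
  show AddMonoidAlgebra.mapDomainRingEquiv k (AddEquiv.neg ℤ)
    (AddMonoidAlgebra.mapRingHom ℤ (frobenius k p) (AddMonoidAlgebra.single n c)) = _
  rw [AddMonoidAlgebra.mapRingHom_single, AddMonoidAlgebra.mapDomainRingEquiv_single,
    frobenius_def]
  rfl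

private theorem io_alg (k : Type) [Field k] (c : k) :
    algebraMap k (Ls k) c = AddMonoidAlgebra.single 0 c := by
  rw [AddMonoidAlgebra.coe_algebraMap]
  rfl

private theorem io_res_alg {p m : ℕ} [Fact p.Prime] {k K G : Type} [Field k] [CharP k p]
    [IsAlgClosed k] [Field K] [Algebra k K] [Group G] (C : Core p m k K G) (c : k)
    (h : algebraMap k K c ∈ C.B) : C.res ⟨algebraMap k K c, h⟩ = AddMonoidAlgebra.single 0 c := by
  have h1 : (⟨algebraMap k K c, h⟩ : C.B) = algebraMap k C.B c := rfl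
  rw [h1, AlgHom.commutes, io_alg]

/-- [CZD io] -/
theorem p_io : S_io := by
  intro p m _ k K G _ _ _ _ _ _ C b h
  have key : ∃ (h : b ∈ C.B) (h' : C.ι b ∈ C.B),
      C.res ⟨C.ι b, h'⟩ = io_tw p k (C.res ⟨b, h⟩) := by
    have hb : b ∈ Algebra.adjoin k (Set.range C.T) := by
      rw [C.adj]; exact h
    clear h
    induction hb using Algebra.adjoin_induction with
    | mem x hx =>
      obtain ⟨g, rfl⟩ := hx
      refine ⟨C.T_mem g, (C.ι_T g).symm ▸ C.T_mem g, ?_⟩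
      have h1 : (⟨C.ι (C.T g), (C.ι_T g).symm ▸ C.T_mem g⟩ : C.B) = ⟨C.T g, C.T_mem g⟩ :=
        Subtype.ext (C.ι_T g)
      rw [h1, C.res_T g]
      have hz : (C.χ g) ^ p = (C.χ g)⁻¹ := by
        obtain ⟨j, hj⟩ := C.hpm
        have h2 : (C.χ g) ^ (p + 1) = 1 := by
          rw [hj, pow_mul, C.χ_pow, one_pow]
        rw [pow_succ] at h2
        exact eq_inv_of_mul_eq_one_left h2
      have hz' : ((C.χ g)⁻¹ : kˣ) ^ p = C.χ g := by
        rw [inv_pow, hz, inv_inv]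
      unfold rr
      rw [map_add, io_tw_single, io_tw_single, neg_neg, ← Units.val_pow_eq_pow_val,
        ← Units.val_pow_eq_pow_val, hz, hz', add_comm]
    | algebraMap r =>
      have h1 : algebraMap k K r ∈ C.B := C.B.algebraMap_mem r
      have h2 : C.ι (algebraMap k K r) = algebraMap k K (r ^ p) := C.ι_k r
      have h3 : algebraMap k K (r ^ p) ∈ C.B := C.B.algebraMap_mem _
      refine ⟨h1, h2 ▸ h3, ?_⟩
      have h4 : (⟨C.ι (algebraMap k K r), h2 ▸ h3⟩ : C.B) = ⟨algebraMap k K (r ^ p), h3⟩ :=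
        Subtype.ext h2
      rw [h4, io_res_alg, io_res_alg, io_tw_single, neg_zero]
    | add x y hx hy ihx ihy =>
      obtain ⟨h1, h2, h3⟩ := ihx
      obtain ⟨h4, h5, h6⟩ := ihy
      have h7 : C.ι (x + y) = C.ι x + C.ι y := map_add _ _ _
      have h8 : C.ι x + C.ι y ∈ C.B := C.B.add_mem h2 h5
      refine ⟨C.B.add_mem h1 h4, h7 ▸ h8, ?_⟩
      have h9 : (⟨C.ι (x + y), h7 ▸ h8⟩ : C.B) = ⟨C.ι x, h2⟩ + ⟨C.ι y, h5⟩ := Subtype.ext h7
      have h10 : (⟨x + y, C.B.add_mem h1 h4⟩ : C.B) = ⟨x, h1⟩ + ⟨y, h4⟩ := rfl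
      rw [h9, h10, map_add, map_add, map_add, h3, h6]
    | mul x y hx hy ihx ihy =>
      obtain ⟨h1, h2, h3⟩ := ihx
      obtain ⟨h4, h5, h6⟩ := ihy
      have h7 : C.ι (x * y) = C.ι x * C.ι y := map_mul _ _ _
      have h8 : C.ι x * C.ι y ∈ C.B := C.B.mul_mem h2 h5
      refine ⟨C.B.mul_mem h1 h4, h7 ▸ h8, ?_⟩
      have h9 : (⟨C.ι (x * y), h7 ▸ h8⟩ : C.B) = ⟨C.ι x, h2⟩ * ⟨C.ι y, h5⟩ := Subtype.ext h7
      have h10 : (⟨x * y, C.B.mul_mem h1 h4⟩ : C.B) = ⟨x, h1⟩ * ⟨y, h4⟩ := rfl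
      rw [h9, h10, map_mul, map_mul, map_mul, h3, h6]
  obtain ⟨h1, h2, h3⟩ := key
  refine ⟨h2, fun n => ?_⟩
  rw [h3, io_tw_coeff]

end Pool.Agent.CZD
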