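import Pool.Agent.Lib.MP_305fdd_al.CZ.D.StmH

set_option autoImplicit false

namespace Pool.Agent.CZD

open Pool.Agent.F2 Pool.Agent.F2Ch Pool.Agent.F2D Pool.Agent.CZ Pool.Agent.CC
open Pool.Agent.PSL2Z (TreeAct)

theorem p_ow (hcen : S_cen) : S_ow := by
  intro p m _ k K G _ _ _ _ _ _ C hO
  obtain ⟨f, hf⟩ := hO
  refine ⟨f, hf, hcen m C.two_le (f C.c) ?_⟩
  intro w
  obtain ⟨g, rfl⟩ := hf w
  rw [← map_mul, ← map_mul, C.c_comm]

end Pool.Agent.CZD
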