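import Pool.Agent.Lib.MP_305fdd_al.CZ.D.Stm

/-!
# MP_305fdd_al, `C_m * Z`, piece [CZD pot]
-/

set_option autoImplicit false

namespace Pool.Agent.CZD

open Pool.Agent.F2 Pool.Agent.F2Ch Pool.Agent.F2D Pool.Agent.CZ Pool.Agent.CC
open Pool.Agent.PSL2Z (TreeAct)

theorem p_pot (h2t3 : F2D.S_t3) : S_pot := by
  classical
  intro G V _ _ X ty hT a b hab
  have hne : ty a ≠ ty b := hT.ty_adj a b hab
  have hex : ∀ u v, Orb G a b u v → Orb G a b v u → False := by
    rintro u v ⟨h, h1, h2⟩ ⟨h', h3, h4⟩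
    apply hne
    have e1 := hT.ty_smul h a
    have e2 := hT.ty_smul h' b
    rw [h1] at e1
    rw [h4] at e2
    rw [← e1, ← e2]
  have horb : ∀ (g : G) (u v : V), Orb G a b (g • u) (g • v) ↔ Orb G a b u v := by
    intro g u v
    constructor
    · rintro ⟨h, h1, h2⟩
      exact ⟨g⁻¹ * h, by rw [mul_smul, h1, inv_smul_smul], by rw [mul_smul, h2, inv_smul_smul]⟩
    · rintro ⟨h, h1, h2⟩
      exact ⟨g * h, by rw [mul_smul, h1], by rw [mul_smul, h2]⟩
  let c : V → V → Multiplicative ℤ := fun u v =>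
    if Orb G a b u v then Multiplicative.ofAdd 1
    else if Orb G a b v u then Multiplicative.ofAdd (-1) else 1
  have hcinv : ∀ u v, X.Adj u v → c v u = (c u v)⁻¹ := by
    intro u v _
    by_cases h1 : Orb G a b u v
    · have h2 : ¬ Orb G a b v u := fun h => hex u v h1 h
      simp only [c, if_pos h1, if_neg h2]
      rfl
    · by_cases h2 : Orb G a b v u
      · simp only [c, if_pos h2, if_neg h1]
        rfl
      · simp only [c, if_neg h1, if_neg h2, inv_one]
  have hcg : ∀ (g : G) (u v : V), c (g • u) (g • v) = c u v := by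
    intro g u v
    simp only [c, horb]
  obtain ⟨F, hF⟩ := h2t3 V (Multiplicative ℤ) X hT.tree c hcinv
  have hstep : ∀ (g : G) (u v : V), X.Adj u v →
      F (g • u) * (F u)⁻¹ = F (g • v) * (F v)⁻¹ := by
    intro g u v huv
    rw [hF u v huv, hF (g • u) (g • v) (hT.adj g u v huv), hcg, mul_inv, mul_assoc,
      mul_comm (F u)⁻¹, mul_inv_cancel_left]
  have hconst : ∀ (g : G) (u v : V), F (g • u) * (F u)⁻¹ = F (g • v) * (F v)⁻¹ := by
    intro g u v
    obtain ⟨w⟩ := hT.tree.connected.preconnected u v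
    induction w with
    | nil => rfl
    | cons h _ ih => exact (hstep g _ _ h).trans ih
  refine ⟨F, MonoidHom.mk' (fun g => F (g • a) * (F a)⁻¹) ?_, ?_, ?_, ?_⟩
  · intro g h
    show F ((g * h) • a) * (F a)⁻¹ = F (g • a) * (F a)⁻¹ * (F (h • a) * (F a)⁻¹)
    rw [mul_smul, hconst g a (h • a), mul_assoc, inv_mul_cancel_left]
  · intro g v
    show F (g • v) = F (g • a) * (F a)⁻¹ * F v
    rw [hconst g a v, inv_mul_cancel_right]
  · rw [hF a b hab]
    have h1 : Orb G a b a b := ⟨1, one_smul _ _, one_smul _ _⟩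
    simp only [c, if_pos h1]
  · rintro u v ⟨h1, h2, h3⟩
    rw [hF u v h1]
    simp only [c, if_neg h2, if_neg h3, mul_one]

end Pool.Agent.CZD
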