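import Pool.Agent.Lib.MP_305fdd_al.CZ.D.Stm

/-!
# MP_305fdd_al, C_m * Z, section D (trees): piece r1
-/

set_option autoImplicit false

namespace Pool.Agent.CZD

open Pool.Agent.F2 Pool.Agent.F2Ch Pool.Agent.F2D Pool.Agent.CZ Pool.Agent.CC
open Pool.Agent.PSL2Z (TreeAct)

theorem p_r1 (haa : S_aa) (hac : S_ac) : S_r1 := by
  intro p m _ k K G _ _ _ _ _ _ C l hl hχ x y
  obtain ⟨⟨hz0, hz1, hz2⟩, hι, -⟩ := hac p m k K G C l hl hχ
  obtain ⟨h1, -, -, -, -, hprod⟩ := haa G K C.T l (zl C l) C.pc hz0 hz1 hz2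
  have e1 : aC C l = al C.T l (zl C l) := rfl
  rw [← e1] at h1 hprod
  have h2 : C.ι (Fe (aC C l) x y) = Fe (aC C l) y⁻¹ x⁻¹ := by
    unfold Fe
    rw [map_sub, map_mul, hι, hι, hι, mul_inv_rev, mul_comm (aC C l x⁻¹)]
  rw [h2, hprod x y y⁻¹ x⁻¹]
  unfold Fe Th
  rw [inv_mul_cancel, mul_inv_cancel, h1, inv_inv]
  ring

end Pool.Agent.CZD
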