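import Pool.Agent.Lib.MP_305fdd_al.CZ.D.Stm

/-!
# [CZD r2]
-/

set_option autoImplicit false

namespace Pool.Agent.CZD

open Pool.Agent.F2 Pool.Agent.F2Ch Pool.Agent.F2D Pool.Agent.CZ Pool.Agent.CC
open Pool.Agent.PSL2Z (TreeAct)

/-- If all `Θ` are divisible by `κ0²` then so are all `F`. -/
theorem p_r2 (hr1 : S_r1) (hac : S_ac) (hiR : S_iR) : S_r2 := by
  intro p m _ k K G _ _ _ _ _ _ C l hl hχ hΘ x y hF
  have hac1 := (hac p m k K G C l hl hχ).2.2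
  have hTh : ∀ g, Th C l g ≠ 0 → 2 ≤ C.R (Th C l g) := by
    intro g hg
    obtain ⟨h1, e1⟩ := hac1 g
    obtain ⟨h2, e2⟩ := hac1 g⁻¹
    have hB : Th C l g ∈ C.B := C.B.sub_mem C.B.one_mem (C.B.mul_mem h1 h2)
    have hres : C.res ⟨Th C l g, hB⟩ = 0 := by
      have e : (⟨Th C l g, hB⟩ : C.B) = 1 - ⟨aC C l g, h1⟩ * ⟨aC C l g⁻¹, h2⟩ := rfl
      rw [e, map_sub, map_one, map_mul, e1, e2, AddMonoidAlgebra.single_mul_single,
        map_inv C.ν, map_inv C.χ, toAdd_inv]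
      have e3 : -(Multiplicative.toAdd (C.ν g)) + -(-(Multiplicative.toAdd (C.ν g))) = 0 := by
        ring
      rw [e3, ← Units.val_mul, mul_inv_cancel, Units.val_one, ← AddMonoidAlgebra.one_def, sub_self]
    have hpos : 0 < C.R (Th C l g) := (C.R_pos ⟨Th C l g, hB⟩ hg).2 hres
    have := hΘ g hg
    omega
  have h1 := hr1 p m k K G C l hl hχ x y
  have hiF : C.ι (Fe (aC C l) x y) ≠ 0 := fun h => hF (C.ι.injective (h.trans (map_zero C.ι).symm))
  have hne : Th C l x * Th C l y⁻¹ ≠ 0 := by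
    rw [← h1]
    exact mul_ne_zero hF hiF
  have hx : Th C l x ≠ 0 := left_ne_zero_of_mul hne
  have hy : Th C l y⁻¹ ≠ 0 := right_ne_zero_of_mul hne
  have h2 := congrArg C.R h1
  rw [C.R_inz.isv.mul _ _ hF hiF, C.R_inz.isv.mul _ _ hx hy, hiR p m k K G C] at h2
  have h3 := hTh x hx
  have h4 := hTh _ hy
  omega

end Pool.Agent.CZD
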