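import Pool.Agent.Lib.MP_305fdd_al.CZ.D.Stm

/-!
# MP_305fdd_al, `C_m * Z`, section D: piece [CZD r3]
-/

set_option autoImplicit false

namespace Pool.Agent.CZD

open Pool.Agent.F2 Pool.Agent.F2Ch Pool.Agent.F2D Pool.Agent.CZ Pool.Agent.CC
open Pool.Agent.PSL2Z (TreeAct)

section
variable {p m : ℕ} [Fact p.Prime] {k K G : Type} [Field k] [CharP k p] [IsAlgClosed k]
  [Field K] [Algebra k K] [Group G]

/-- the ideal of the elements of `B` which vanish twice on `R` -/
private def r3_J (C : Core p m k K G) : Ideal C.B where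
  carrier := {f | (f : K) = 0 ∨ 2 ≤ C.R (f : K)}
  add_mem' := by
    intro x y hx hy
    by_cases hx0 : (x : K) = 0
    · have e : ((x + y : C.B) : K) = y := by
        rw [Subalgebra.coe_add, hx0, zero_add]
      show ((x + y : C.B) : K) = 0 ∨ 2 ≤ C.R ((x + y : C.B) : K)
      rw [e]; exact hy
    by_cases hy0 : (y : K) = 0
    · have e : ((x + y : C.B) : K) = x := by
        rw [Subalgebra.coe_add, hy0, add_zero]
      show ((x + y : C.B) : K) = 0 ∨ 2 ≤ C.R ((x + y : C.B) : K)
      rw [e]; exact hx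
    by_cases hxy : (x : K) + y = 0
    · left
      rw [Subalgebra.coe_add, hxy]
    · right
      rw [Subalgebra.coe_add]
      have h1 := C.R_inz.isv.add x y hx0 hy0 hxy
      have h2 : 2 ≤ C.R (x : K) := hx.resolve_left hx0
      have h3 : 2 ≤ C.R (y : K) := hy.resolve_left hy0
      exact (le_min h2 h3).trans h1
  zero_mem' := Or.inl rfl
  smul_mem' := by
    intro c x hx
    show ((c • x : C.B) : K) = 0 ∨ 2 ≤ C.R ((c • x : C.B) : K)
    rw [smul_eq_mul, Subalgebra.coe_mul]
    by_cases hc0 : (c : K) = 0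
    · left; rw [hc0, zero_mul]
    by_cases hx0 : (x : K) = 0
    · left; rw [hx0, mul_zero]
    right
    rw [C.R_inz.isv.mul _ _ hc0 hx0]
    have h2 : 2 ≤ C.R (x : K) := hx.resolve_left hx0
    have h3 := C.R_nn c
    omega

private theorem r3_mem (C : Core p m k K G) (f : C.B) :
    f ∈ r3_J C ↔ (f : K) = 0 ∨ 2 ≤ C.R (f : K) := Iff.rfl

end

private theorem r3_pow {R : Type} [CommRing R] (c e : R) (he : e * e = 0) (n : ℕ) :
    (c + e) ^ (n + 1) = c ^ (n + 1) + (n + 1 : ℕ) * c ^ n * e := by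
  induction n with
  | zero => simp
  | succ n ih =>
    rw [pow_succ (c + e) (n + 1), ih, pow_succ c (n + 1)]
    push_cast
    linear_combination ((n : R) + 1) * c ^ n * he

private theorem r3_com {G R : Type} [Group G] [CommRing R] (U : G →* Rˣ) (x : G)
    (hx : x ∈ commutator G) : U x = 1 := by
  have h : commutator G ≤ U.ker := Abelianization.commutator_subset_ker U
  exact h hx

theorem p_r3 (hac : S_ac) (haa : S_aa) : S_r3 := by
  intro p m _ k K G _ _ _ _ _ _ C l hl hχ hF g1 hg1 hg1' g n hg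
  obtain ⟨⟨hz0, hz1, hz2⟩, -, hres⟩ := hac p m k K G C l hl hχ
  have ha1 : aC C l 1 = 1 := (haa G K C.T l (zl C l) C.pc hz0 hz1 hz2).1
  -- the homomorphism to the quotient ring
  let a' : G → C.B := fun x => ⟨aC C l x, (hres x).choose⟩
  have ha'res : ∀ x, C.res (a' x) =
      AddMonoidAlgebra.single (-(Multiplicative.toAdd (C.ν x))) (C.χ x : k) :=
    fun x => (hres x).choose_spec
  let q : C.B →+* (C.B ⧸ r3_J C) := Ideal.Quotient.mk (r3_J C)
  have hq : ∀ u v : C.B, q u = q v ↔ ((u : K) - v = 0 ∨ 2 ≤ C.R ((u : K) - v)) := by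
    intro u v
    rw [Ideal.Quotient.eq, r3_mem, Subalgebra.coe_sub]
  have hmul : ∀ x y, q (a' (x * y)) = q (a' x) * q (a' y) := by
    intro x y
    rw [← map_mul, hq]
    have e : ((a' (x * y) : C.B) : K) - ((a' x * a' y : C.B) : K) = Fe (aC C l) x y := rfl
    rw [e]
    by_cases h0 : Fe (aC C l) x y = 0
    · exact Or.inl h0
    · exact Or.inr (hF x y h0)
  have hone : q (a' 1) = 1 := by
    have e : a' 1 = 1 := Subtype.ext ha1
    rw [e, map_one]
  let A : G →* (C.B ⧸ r3_J C) :=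
    { toFun := fun x => q (a' x)
      map_one' := hone
      map_mul' := hmul }
  let U : G →* (C.B ⧸ r3_J C)ˣ := MonoidHom.toHomUnits A
  have hAU : ∀ x, A x = (U x : C.B ⧸ r3_J C) := fun x => rfl
  have hcom : ∀ x ∈ commutator G, A x = 1 := by
    intro x hx
    have h1 : U x = 1 := r3_com U x hx
    rw [hAU, h1, Units.val_one]
  -- constants
  let cst : k →+* (C.B ⧸ r3_J C) := q.comp (algebraMap k C.B)
  have hm : (((2 * m : ℕ)) : k) ≠ 0 := by
    rw [Ne, CharP.cast_eq_zero_iff k p]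
    intro h
    have h1 : p ∣ p + 1 := h.trans C.hpm
    have h2 : p ∣ 1 := (Nat.dvd_add_right (dvd_refl p)).1 h1
    exact (Fact.out : p.Prime).one_lt.ne' (Nat.dvd_one.1 h2)
  have hconst : ∀ h : G, C.ν h = 1 → A h = cst (C.χ h : k) := by
    intro h hν
    let ε : C.B := a' h - algebraMap k C.B (C.χ h : k)
    have hε : C.res ε = 0 := by
      show C.res (a' h - algebraMap k C.B (C.χ h : k)) = 0
      rw [map_sub, ha'res, hν, AlgHom.commutes]
      simp
    have hε2 : q ε * q ε = 0 := by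
      rw [← map_mul]
      have h0 : q (ε * ε) = q 0 := by
        rw [hq, ZeroMemClass.coe_zero, sub_zero, Subalgebra.coe_mul]
        by_cases hε0 : (ε : K) = 0
        · left; rw [hε0, zero_mul]
        · right
          have h1 : 0 < C.R ε := (C.R_pos ε hε0).2 hε
          rw [C.R_inz.isv.mul _ _ hε0 hε0]
          omega
      rw [h0, map_zero]
    have hA : A h = cst (C.χ h : k) + q ε := by
      show q (a' h) = q (algebraMap k C.B (C.χ h : k)) + q (a' h - algebraMap k C.B (C.χ h : k))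
      rw [← map_add, add_sub_cancel]
    have hpow : A h ^ (2 * m) = 1 := by
      rw [← map_pow]
      apply hcom
      apply C.ker
      · rw [map_pow, C.χ_pow]
      · rw [map_pow, hν, one_pow]
    obtain ⟨r, hr⟩ : ∃ r, 2 * m = r + 1 := ⟨2 * m - 1, by have := C.two_le; omega⟩
    have hcp : cst (C.χ h : k) ^ (2 * m) = 1 := by
      rw [← map_pow, ← Units.val_pow_eq_pow_val, C.χ_pow, Units.val_one, map_one]
    have h1 : ((2 * m : ℕ) : C.B ⧸ r3_J C) * cst (C.χ h : k) ^ r * q ε = 0 := by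
      rw [hA, hr, r3_pow _ _ hε2] at hpow
      rw [hr] at hcp ⊢
      rw [hcp] at hpow
      simpa using hpow
    have hu : IsUnit (((2 * m : ℕ) : C.B ⧸ r3_J C) * cst (C.χ h : k) ^ r) := by
      have h2 : ((2 * m : ℕ) : C.B ⧸ r3_J C) * cst (C.χ h : k) ^ r =
          cst (((2 * m : ℕ) : k) * (C.χ h : k) ^ r) := by
        rw [map_mul, map_pow, map_natCast]
      rw [h2]
      apply IsUnit.map
      exact IsUnit.mk0 _ (mul_ne_zero hm (pow_ne_zero _ (C.χ h).ne_zero))
    have h3 : q ε = 0 := (hu.mul_right_eq_zero).1 h1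
    rw [hA, h3, add_zero]
  -- the general case
  have hh : C.ν (g * g1 ^ (-n)) = 1 := by
    rw [map_mul, map_zpow, hg, hg1', ← ofAdd_zsmul, ← ofAdd_add]
    simp
  have hχh : C.χ (g * g1 ^ (-n)) = C.χ g := by
    rw [map_mul, map_zpow, hg1, one_zpow, mul_one]
  have hfin : A g = cst (C.χ g : k) * A (g1 ^ n) := by
    have e : g = (g * g1 ^ (-n)) * g1 ^ n := by group
    conv_lhs => rw [e]
    rw [map_mul, hconst _ hh, hχh]
  have hfin' : q (a' g) = q (algebraMap k C.B (C.χ g : k) * a' (g1 ^ n)) := by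
    rw [map_mul]; exact hfin
  rw [hq] at hfin'
  have e : ((a' g : C.B) : K) - ((algebraMap k C.B (C.χ g : k) * a' (g1 ^ n) : C.B) : K) =
      aC C l g - zl C g * aC C l (g1 ^ n) := rfl
  rw [e, sub_eq_zero] at hfin'
  exact hfin'

end Pool.Agent.CZD
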