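import Pool.Agent.Lib.MP_305fdd_al.CZ.D.StmH

set_option autoImplicit false

namespace Pool.Agent.CZD

open Pool.Agent.F2 Pool.Agent.F2Ch Pool.Agent.F2D Pool.Agent.CZ Pool.Agent.CC
open Pool.Agent.PSL2Z (TreeAct)

theorem p_t2v : S_t2v := by
  intro Λ K Γ _ _ _ _ _ T v hT hv l h
  have hrel : T (l * l) = T l * T l - 2 := by
    have h1 := hT.rel l l
    rw [mul_inv_cancel, hT.one] at h1
    exact eq_sub_of_add_eq h1
  by_contra hneg
  have hneg : v (T l) < 0 := not_le.1 hneg
  have hne : T l ≠ 0 := by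
    intro h0
    rw [h0, hv.zero] at hneg
    exact lt_irrefl _ hneg
  have hsq : v (T l * T l) < 0 := by
    rw [hv.mul _ _ hne hne]
    exact add_neg hneg hneg
  by_cases h2 : (2 : K) = 0
  · rw [hrel, h2, sub_zero] at h
    exact absurd h (not_le.2 hsq)
  · have hv1 : v 1 = 0 := by
      have h1 := hv.mul 1 1 one_ne_zero one_ne_zero
      rw [mul_one] at h1
      exact left_eq_add.1 h1
    have hv2 : 0 ≤ v 2 := by
      have h1 := hv.add 1 1 one_ne_zero one_ne_zero (by rwa [one_add_one_eq_two])
      rwa [hv1, min_self, one_add_one_eq_two] at h1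
    by_cases hs : T (l * l) = 0
    · have h3 : T l * T l = 2 := by
        rw [hs] at hrel
        exact (sub_eq_zero.1 hrel.symm)
      rw [h3] at hsq
      exact absurd hv2 (not_le.2 hsq)
    · have h3 : T l * T l = T (l * l) + 2 := by rw [hrel]; ring
      have h4 := hv.add (T (l * l)) 2 hs h2 (by rw [← h3]; exact mul_ne_zero hne hne)
      rw [← h3] at h4
      exact absurd (le_trans (le_min h hv2) h4) (not_le.2 hsq)

end Pool.Agent.CZD
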