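import Pool.Agent.Lib.MP_305fdd_al.CZ.D.Stm

/-!
# MP_305fdd_al, `C_m * Z`, section D: a torsion free subgroup
-/

set_option autoImplicit false

namespace Pool.Agent.CZD

open Pool.Agent.F2 Pool.Agent.F2Ch Pool.Agent.F2D Pool.Agent.CZ Pool.Agent.CC
open Pool.Agent.PSL2Z (TreeAct)

/-- `q` and `x` are commensurable in the strong sense -/
private def tq_R {C : Type} [AddCommGroup C] (q x : ℤ × C) : Prop :=
  ∀ i j : ℤ, i * q.1 = j * x.1 → i • q = j • x

theorem p_tq : S_tq := by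
  intro C _ A hA hAA ⟨x0, hx0, hx01⟩
  -- the relation for two elements of `A`
  have hR : ∀ x ∈ A, ∀ y ∈ A, x.1 ≠ 0 → y.1 ≠ 0 → tq_R x y := by
    intro x hx y hy hx1 hy1 i j hij
    by_cases h0 : i * x.1 = 0
    · have hi : i = 0 := by
        rcases mul_eq_zero.1 h0 with h | h
        · exact h
        · exact absurd h hx1
      have hj : j = 0 := by
        rw [h0] at hij
        rcases mul_eq_zero.1 hij.symm with h | h
        · exact h
        · exact absurd h hy1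
      rw [hi, hj, zero_smul, zero_smul]
    · apply hAA _ (hA x hx i) _ (hA y hy j)
      · rw [Prod.smul_fst, Prod.smul_fst, smul_eq_mul, smul_eq_mul, hij]
      · rw [Prod.smul_fst, smul_eq_mul]; exact h0
  -- a minimal element
  have hE : ∃ n : ℕ, 0 < n ∧ ∃ q : ℤ × C, q.1 = n ∧ ∀ x ∈ A, x.1 ≠ 0 → tq_R q x := by
    refine ⟨x0.1.natAbs, Int.natAbs_pos.2 hx01, ?_⟩
    rcases Int.natAbs_eq x0.1 with h | h
    · exact ⟨x0, h, fun x hx hx1 => hR x0 hx0 x hx hx01 hx1⟩
    · refine ⟨(-1 : ℤ) • x0, ?_, fun x hx hx1 => ?_⟩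
      · rw [Prod.smul_fst, smul_eq_mul]; omega
      · apply hR _ (hA x0 hx0 (-1)) x hx _ hx1
        rw [Prod.smul_fst, smul_eq_mul]; omega
  classical
  obtain ⟨hn0, q, hq1, hq⟩ := Nat.find_spec hE
  have hmin : ∀ n : ℕ, 0 < n → (∃ q : ℤ × C, q.1 = n ∧ ∀ x ∈ A, x.1 ≠ 0 → tq_R q x) →
      Nat.find hE ≤ n := fun n h1 h2 => Nat.find_min' hE ⟨h1, h2⟩
  have hqpos : 0 < q.1 := by rw [hq1]; exact_mod_cast hn0
  refine ⟨q, hqpos, fun z hz hz1 => ?_⟩
  -- the gcd
  obtain ⟨g, hg⟩ : ∃ g : ℕ, g = Int.gcd q.1 z.1 := ⟨_, rfl⟩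
  have hgpos : 0 < g := by
    rw [hg]; exact Int.gcd_pos_of_ne_zero_left _ hqpos.ne'
  have hgR : (g : ℤ) ≠ 0 := by exact_mod_cast hgpos.ne'
  obtain ⟨a, ha⟩ : (g : ℤ) ∣ q.1 := by rw [hg]; exact Int.gcd_dvd_left _ _
  obtain ⟨c, hc⟩ : (g : ℤ) ∣ z.1 := by rw [hg]; exact Int.gcd_dvd_right _ _
  have hb := Int.gcd_eq_gcd_ab q.1 z.1
  rw [← hg] at hb
  obtain ⟨u, hu⟩ : ∃ u, u = Int.gcdA q.1 z.1 := ⟨_, rfl⟩
  obtain ⟨v, hv⟩ : ∃ v, v = Int.gcdB q.1 z.1 := ⟨_, rfl⟩
  rw [← hu, ← hv] at hb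
  have huv : u * a + v * c = 1 := by
    have : (g : ℤ) * (u * a + v * c) = g * 1 := by
      rw [mul_one]
      conv_rhs => rw [hb]
      conv_rhs => rw [ha, hc]
      ring
    exact mul_left_cancel₀ hgR this
  have hqz : c • q = a • z := hq z hz hz1 c a (by rw [ha, hc]; ring)
  obtain ⟨q', hq'⟩ : ∃ q' : ℤ × C, q' = u • q + v • z := ⟨_, rfl⟩
  have hq'1 : q'.1 = g := by
    rw [hq', Prod.fst_add, Prod.smul_fst, Prod.smul_fst, smul_eq_mul, smul_eq_mul, hb]; ring
  have haq : a • q' = q := by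
    rw [hq', smul_add, smul_smul, smul_smul]
    have : (a * v) • z = (v * c) • q := by
      rw [mul_comm a v, mul_smul, mul_smul, hqz]
    rw [this, ← add_smul, show a * u + v * c = 1 by rw [← huv]; ring, one_smul]
  have hcz : c • q' = z := by
    rw [hq', smul_add, smul_smul, smul_smul]
    have : (c * u) • q = (u * a) • z := by
      rw [mul_comm c u, mul_smul, mul_smul, hqz]
    rw [this, ← add_smul, show u * a + c * v = 1 by rw [← huv]; ring, one_smul]
  have hq'R : ∀ x ∈ A, x.1 ≠ 0 → tq_R q' x := by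
    intro x hx hx1 i j hij
    rw [hq'1] at hij
    have e1 : a • (i • q') = a • (j • x) := by
      rw [smul_comm, haq, ← mul_smul]
      apply hq x hx hx1
      rw [ha]
      linear_combination a * hij
    have e2 : c • (i • q') = c • (j • x) := by
      rw [smul_comm, hcz, ← mul_smul]
      apply hR z hz x hx hz1 hx1
      rw [hc]
      linear_combination c * hij
    calc i • q' = (u * a + v * c) • (i • q') := by rw [huv, one_smul]
      _ = u • (a • (i • q')) + v • (c • (i • q')) := by rw [add_smul, mul_smul, mul_smul]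
      _ = u • (a • (j • x)) + v • (c • (j • x)) := by rw [e1, e2]
      _ = (u * a + v * c) • (j • x) := by rw [add_smul, mul_smul, mul_smul]
      _ = j • x := by rw [huv, one_smul]
  have h1 := hmin g hgpos ⟨q', hq'1, hq'R⟩
  have h2 : q.1 ≤ g := by rw [hq1]; exact_mod_cast h1
  -- so `g = q.1`
  have ha1 : a = 1 := by
    have hapos : 0 < a := by
      rw [ha] at hqpos
      exact (mul_pos_iff_of_pos_left (by exact_mod_cast hgpos)).1 hqpos
    have : (g : ℤ) * a ≤ g * 1 := by rw [← ha, mul_one]; exact h2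
    have := le_of_mul_le_mul_left this (by exact_mod_cast hgpos)
    omega
  refine ⟨c, ?_⟩
  rw [hqz, ha1, one_smul]

end Pool.Agent.CZD
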