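import Pool.Agent.Lib.MP_305fdd_al.CZ.D.Stm

/-!
# [CZD tw] Elements of trace two are trivial
-/

set_option autoImplicit false

namespace Pool.Agent.CZD

open Pool.Agent.F2 Pool.Agent.F2Ch Pool.Agent.F2D Pool.Agent.CZ Pool.Agent.CC
open Pool.Agent.PSL2Z (TreeAct)

theorem p_tw (haa : S_aa) (hac : S_ac) (hr1 : S_r1) (hR1 : S_R1) (hiR : S_iR) : S_tw := by
  intro p m _ k K G _ _ _ _ _ _ C l hl hl2 u hu h
  obtain ⟨⟨hz, hzz, hT⟩, hι, hres⟩ := hac p m k K G C l hl hl2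
  obtain ⟨a1, a2, a3, a4, a5, a6⟩ := haa G K C.T l (zl C l) C.pc hz hzz hT
  obtain ⟨g0, hg0, hRg0⟩ := hR1 p m k K G C l hl hl2
  have hr := hr1 p m k K G C l hl hl2
  have hv : IsV C.R := C.R_inz.isv
  have a2' : ∀ g, aC C l g + aC C l g⁻¹ = C.T g := a2
  have e1 : aC C l u⁻¹ = 2 - aC C l u := by
    have := a2' u
    rw [hu] at this
    linear_combination this
  have hTh : Th C l u = (aC C l u - 1) ^ 2 := by
    unfold Th
    rw [e1]; ring
  have hα : aC C l u = 1 := by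
    by_contra hne
    have hne' : aC C l u - 1 ≠ 0 := sub_ne_zero.mpr hne
    have h1 := hr u g0⁻¹
    rw [inv_inv, hTh] at h1
    have hprod : (aC C l u - 1) ^ 2 * Th C l g0 ≠ 0 := mul_ne_zero (pow_ne_zero 2 hne') hg0
    have hF : Fe (aC C l) u g0⁻¹ ≠ 0 := by
      intro h0
      rw [h0, zero_mul] at h1
      exact hprod h1.symm
    have hιF : C.ι (Fe (aC C l) u g0⁻¹) ≠ 0 := by
      intro h0
      rw [h0, mul_zero] at h1
      exact hprod h1.symm
    have h2 := congrArg C.R h1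
    rw [hv.mul _ _ hF hιF, hiR p m k K G C, hv.mul _ _ (pow_ne_zero 2 hne') hg0, pow_two,
      hv.mul _ _ hne' hne', hRg0] at h2
    omega
  have e2 : aC C l u⁻¹ = 1 := by rw [e1, hα]; ring
  have hTh0 : Th C l u = 0 := by rw [hTh, hα]; ring
  have hFz : ∀ x y, Th C l x * Th C l y⁻¹ = 0 → Fe (aC C l) x y = 0 := by
    intro x y hxy
    have h1 := hr x y
    rw [hxy] at h1
    rcases mul_eq_zero.mp h1 with h2 | h2
    · exact h2
    · exact (map_eq_zero C.ι).mp h2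
  have f1 : aC C l (u * h) = aC C l h := by
    have h1 := hFz u h (by rw [hTh0, zero_mul])
    unfold Fe at h1
    rw [hα, one_mul] at h1
    exact sub_eq_zero.mp h1
  have f2 : aC C l (h⁻¹ * u⁻¹) = aC C l h⁻¹ := by
    have h1 := hFz h⁻¹ u⁻¹ (by rw [inv_inv, hTh0, mul_zero])
    unfold Fe at h1
    rw [e2, mul_one] at h1
    exact sub_eq_zero.mp h1
  rw [← a2' (u * h), ← a2' h, mul_inv_rev, f1, f2]

end Pool.Agent.CZD
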