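import Pool.Agent.Lib.MP_305fdd_al.CZ.D.Stm

/-!
# MP_305fdd_al, `C_m * Z`, section D: the fixed tree of a central involution
-/

set_option autoImplicit false

namespace Pool.Agent.CZ

open Pool.Agent.PSL2Z (TreeAct)

section
variable {G V : Type} [Group G] [MulAction G V] {X : SimpleGraph V} {ty : V → Bool}

/-- the automorphism of the graph given by `g` -/
private def qcf_hom (h : TreeAct G V X ty) (g : G) : X →g X where
  toFun := fun v => g • v
  map_rel' := fun {a b} hab => h.adj g a b hab

private theorem qcf_inj (h : TreeAct G V X ty) (g : G) : Function.Injective (qcf_hom h g) :=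
  fun _ _ hab => MulAction.injective g hab

private theorem qcf_even (h : TreeAct G V X ty) {u v : V} (p : X.Walk u v) :
    ty u = ty v ↔ Even p.length := by
  induction p with
  | nil => simp
  | @cons a b c hab p ih =>
    rw [SimpleGraph.Walk.length_cons, Nat.even_add_one, ← ih]
    have h1 := h.ty_adj a b hab
    revert h1
    cases ty a <;> cases ty b <;> cases ty c <;> simp

private theorem qcf_uniq (h : TreeAct G V X ty) {u v : V} {p q : X.Walk u v} (hp : p.IsPath)
    (hq : q.IsPath) : p = q := by
  have h1 := h.tree.isAcyclic.path_unique ⟨p, hp⟩ ⟨q, hq⟩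
  exact congrArg Subtype.val h1

private theorem qcf_path (h : TreeAct G V X ty) (u v : V) : ∃ p : X.Walk u v, p.IsPath := by
  obtain ⟨p, hp, -⟩ := h.tree.existsUnique_path u v
  exact ⟨p, hp⟩

/-- a path between fixed points is fixed -/
private theorem qcf_fix (h : TreeAct G V X ty) (c : G) {u v : V} (hu : c • u = u)
    (hv : c • v = v) {p : X.Walk u v} (hp : p.IsPath) : ∀ x ∈ p.support, c • x = x := by
  intro x hx
  obtain ⟨n, rfl, hn⟩ := (SimpleGraph.Walk.mem_support_iff_exists_getVert).1 hx
  have h1 : ((p.map (qcf_hom h c)).copy hu hv).IsPath := by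
    rw [SimpleGraph.Walk.isPath_copy]
    exact SimpleGraph.Walk.IsPath.map (qcf_inj h c) hp
  have h2 := qcf_uniq h h1 hp
  have h3 := congrArg (fun q : X.Walk u v => q.getVert n) h2
  simp only [SimpleGraph.Walk.getVert_copy, SimpleGraph.Walk.getVert_map] at h3
  exact h3

/-- an involution which preserves the types fixes a vertex -/
private theorem qcf_ex (h : TreeAct G V X ty) (c : G) (hc : c * c = 1) (v0 : V) :
    ∃ v : V, c • v = v := by
  obtain ⟨p, hp⟩ := qcf_path h v0 (c • v0)
  have h0 : c • c • v0 = v0 := by rw [smul_smul, hc, one_smul]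
  have h1 : ((p.map (qcf_hom h c)).copy rfl h0).reverse.IsPath := by
    rw [SimpleGraph.Walk.isPath_reverse_iff, SimpleGraph.Walk.isPath_copy]
    exact SimpleGraph.Walk.IsPath.map (qcf_inj h c) hp
  have h2 := qcf_uniq h h1 hp
  have hev : Even p.length := (qcf_even h p).1 (h.ty_smul c v0).symm
  obtain ⟨n, hn⟩ := hev
  have h3 := congrArg (fun q : X.Walk v0 (c • v0) => q.getVert n) h2
  change (((p.map (qcf_hom h c)).copy rfl h0).reverse).getVert n = p.getVert n at h3
  rw [SimpleGraph.Walk.getVert_reverse, SimpleGraph.Walk.getVert_copy,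
    SimpleGraph.Walk.getVert_map, SimpleGraph.Walk.length_copy,
    SimpleGraph.Walk.length_map] at h3
  refine ⟨p.getVert n, ?_⟩
  have h4 : p.length - n = n := by omega
  rw [h4] at h3
  exact h3

end

theorem q_cf : S_cf := by
  intro G V _ _ X ty h hne c hcc hc2
  obtain ⟨v0⟩ := hne
  obtain ⟨w0, hw0⟩ := qcf_ex h c hc2 v0
  let S : Set V := {v | c • v = v}
  let act : MulAction G S :=
    { smul := fun g v => ⟨g • v.1, by
        show c • g • v.1 = g • v.1
        rw [smul_smul, hcc g, ← smul_smul]
        exact congrArg (fun x => g • x) v.2⟩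
      one_smul := fun v => Subtype.ext (one_smul G v.1)
      mul_smul := fun g g' v => Subtype.ext (mul_smul g g' v.1) }
  have hconn : (X.induce S).Connected := by
    haveI : Nonempty S := ⟨⟨w0, hw0⟩⟩
    refine SimpleGraph.Connected.mk ?_
    rintro ⟨u, hu⟩ ⟨v, hv⟩
    obtain ⟨p, hp⟩ := qcf_path h u v
    exact ⟨p.induce S (fun x hx => qcf_fix h c hu hv hp x hx)⟩
  have htree : (X.induce S).IsTree := ⟨hconn, h.tree.isAcyclic.induce S⟩
  refine ⟨⟨S, act, X.induce S, fun v => ty v.1, ⟨⟨w0, hw0⟩⟩, ?_, ?_⟩, Subtype.val,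
    Subtype.val_injective, ?_, ?_⟩
  · exact
      { tree := htree
        adj := fun g v z hvz => h.adj g v.1 z.1 hvz
        ty_smul := fun g v => h.ty_smul g v.1
        ty_adj := fun v z hvz => h.ty_adj v.1 z.1 hvz }
  · rintro ⟨v, hv⟩
    exact Subtype.ext hv
  · intro g v
    rfl
  · intro a b hab
    exact hab

end Pool.Agent.CZ
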