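import Pool.Agent.Lib.MP_305fdd_al.CZ.D.Stm
import Pool.Agent.Lib.MP_305fdd_al.Genus

/-!
# MP_305fdd_al, section CZ/D: the counting argument
-/

set_option autoImplicit false

namespace Pool.Agent.CZ

open Pool.Agent.PSL2Z (TreeAct Gw)
open Pool.Agent.CC (Fund)

/-- the affine group of a field -/
@[ext]
structure qcnt_Q (F : Type) [Field F] where
  u : F
  w : Fˣ

namespace qcnt_Q

variable {F : Type} [Field F]

instance : Mul (qcnt_Q F) := ⟨fun a b => ⟨a.u + a.w * b.u, a.w * b.w⟩⟩
instance : One (qcnt_Q F) := ⟨⟨0, 1⟩⟩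
instance : Inv (qcnt_Q F) := ⟨fun a => ⟨-((a.w⁻¹ : Fˣ) * a.u), a.w⁻¹⟩⟩

theorem mul_u (a b : qcnt_Q F) : (a * b).u = a.u + a.w * b.u := rfl
theorem mul_w (a b : qcnt_Q F) : (a * b).w = a.w * b.w := rfl
theorem one_u : (1 : qcnt_Q F).u = 0 := rfl
theorem one_w : (1 : qcnt_Q F).w = 1 := rfl
theorem inv_u (a : qcnt_Q F) : (a⁻¹).u = -((a.w⁻¹ : Fˣ) * a.u) := rfl
theorem inv_w (a : qcnt_Q F) : (a⁻¹).w = a.w⁻¹ := rfl

instance : Group (qcnt_Q F) := Group.ofLeftAxioms
  (by
    intro a b c
    ext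
    · rw [mul_u, mul_u, mul_u, mul_u, mul_w]
      push_cast
      ring
    · rw [mul_w, mul_w, mul_w, mul_w, mul_assoc])
  (by
    intro a
    ext
    · rw [mul_u, one_u, one_w, Units.val_one, zero_add, one_mul]
    · rw [mul_w, one_w, one_mul])
  (by
    intro a
    ext
    · rw [mul_u, inv_u, inv_w, one_u, neg_add_cancel]
    · rw [mul_w, inv_w, one_w, inv_mul_cancel])

/-- the projection -/
def pr : qcnt_Q F →* Fˣ where
  toFun a := a.w
  map_one' := rfl
  map_mul' _ _ := rfl

theorem pr_apply (a : qcnt_Q F) : pr a = a.w := rfl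

/-- as a product -/
def eqv : qcnt_Q F ≃ F × Fˣ where
  toFun a := (a.u, a.w)
  invFun a := ⟨a.1, a.2⟩
  left_inv _ := rfl
  right_inv _ := rfl

instance [Finite F] : Finite (qcnt_Q F) := Finite.of_equiv _ eqv.symm

/-- the kernel of the projection -/
def kerEqv : (pr (F := F)).ker ≃ F where
  toFun a := a.1.u
  invFun x := ⟨⟨x, 1⟩, rfl⟩
  left_inv a := by
    apply Subtype.ext
    ext
    · rfl
    · have h : a.1.w = 1 := a.2
      rw [h]
  right_inv _ := rfl

variable {G : Type} [Group G]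

/-- the homomorphism into the translations -/
def hm1 (β : G →* Multiplicative F) (ν : G →* Multiplicative ℤ) (s r : F) : G →* qcnt_Q F where
  toFun g := ⟨s * Multiplicative.toAdd (β g) + r * ((Multiplicative.toAdd (ν g) : ℤ) : F), 1⟩
  map_one' := by
    ext
    · simp only [map_one, toAdd_one, mul_zero, Int.cast_zero, add_zero]
      rfl
    · rfl
  map_mul' a b := by
    ext
    · simp only [map_mul, toAdd_mul, Int.cast_add, mul_u, Units.val_one, one_mul]
      ring
    · simp only [mul_w, mul_one]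

/-- the homomorphism into the stabiliser of a point -/
def hm2 (θ : G →* Fˣ) (u : F) : G →* qcnt_Q F where
  toFun g := ⟨u - θ g * u, θ g⟩
  map_one' := by
    ext
    · simp only [map_one, Units.val_one, one_mul, sub_self]
      rfl
    · simp only [map_one]
      rfl
  map_mul' a b := by
    ext
    · simp only [map_mul, Units.val_mul, mul_u]
      ring
    · simp only [mul_w, map_mul]

end qcnt_Q

theorem q_cnt : S_cnt := by
  classical
  intro m G _ c δ ν hC hcount t Y hY v1 hv1 F _ _ β θ hedge hβc hθ1 g1 g2 g3 hg1 hν1 hg2 hν2 hβ2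
    v3 hv3 hv31 hg3 hθ3
  haveI : Group.FG G := hC.fg
  -- the value of `ν` at `c`
  have hνc : ν c = 1 := by
    have h : ν c * ν c = 1 := by rw [← map_mul, hC.c_sq, map_one]
    have h2 : Multiplicative.toAdd (ν c) + Multiplicative.toAdd (ν c) = 0 := by
      rw [← toAdd_mul, h, toAdd_one]
    apply Multiplicative.toAdd.injective
    rw [toAdd_one]
    omega
  -- the homomorphisms on the stabilisers
  let φ : F × F × F → t.V → G →* qcnt_Q F := fun x v =>
    if v = v1 then qcnt_Q.hm1 β ν x.1 x.2.1 else qcnt_Q.hm2 θ x.2.2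
  have hφ1 : ∀ x g, φ x v1 g = ⟨x.1 * Multiplicative.toAdd (β g) +
      x.2.1 * ((Multiplicative.toAdd (ν g) : ℤ) : F), 1⟩ := by
    intro x g
    simp only [φ, if_true]
    rfl
  have hφ2 : ∀ x v g, v ≠ v1 → φ x v g = ⟨x.2.2 - θ g * x.2.2, θ g⟩ := by
    intro x v g hv
    simp only [φ, if_neg hv]
    rfl
  have hone : ∀ x v g, β g = 1 → θ g = 1 → ν g = 1 → φ x v g = 1 := by
    intro x v g h1 h2 h3
    by_cases hv : v = v1
    · rw [hv, hφ1, h1, h3]
      ext
      · simp only [toAdd_one, mul_zero, Int.cast_zero, add_zero]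
        rfl
      · rfl
    · rw [hφ2 _ _ _ hv, h2]
      ext
      · simp only [Units.val_one, one_mul, sub_self]
        rfl
      · rfl
  have hext : ∀ x, ∃ f : G →* qcnt_Q F, ∀ y ∈ Y, ∀ g : G, g • y = y → f g = φ x y g := by
    intro x
    apply Pool.Agent.CC.exists_hom_ext t.ta Y hY (φ x)
    intro y hy z hz hyz g hgy hgz
    obtain ⟨h1, h2, h3⟩ := hedge y hy z hz hyz g hgy hgz
    rw [hone _ _ _ h1 h2 h3, hone _ _ _ h1 h2 h3]
  choose f hf using hext
  have hπ : ∀ x, (qcnt_Q.pr (F := F)).comp (f x) = θ := by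
    intro x
    have hle : (⨆ v ∈ Y, MulAction.stabilizer G v) ≤
        ((qcnt_Q.pr (F := F)).comp (f x)).eqLocus θ := by
      refine iSup₂_le fun v hv => ?_
      intro g hg
      have hg' : g • v = v := hg
      show qcnt_Q.pr (f x g) = θ g
      rw [hf x v hv g hg']
      by_cases hvv : v = v1
      · subst hvv
        rw [hφ1, hθ1 g hg']
        rfl
      · rw [hφ2 _ _ _ hvv]
        rfl
    rw [Pool.Agent.CC.Fund.iSup_stab t.ta Y hY] at hle
    ext g
    have : qcnt_Q.pr (f x g) = θ g := hle (Subgroup.mem_top g)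
    rw [MonoidHom.comp_apply, this]
  have hc1 : ∀ x, f x c = 1 := by
    intro x
    rw [hf x v1 hv1 c (t.cfix v1), hφ1, hβc, hνc]
    ext
    · simp only [toAdd_one, mul_zero, Int.cast_zero, add_zero]
      rfl
    · rfl
  let E : F × F × F → {f : G →* qcnt_Q F // (qcnt_Q.pr (F := F)).comp f = θ ∧ f c = 1} :=
    fun x => ⟨f x, hπ x, hc1 x⟩
  have hE : Function.Injective E := by
    rintro ⟨s, r, u⟩ ⟨s', r', u'⟩ h
    have hff : f (s, r, u) = f (s', r', u') := congrArg Subtype.val h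
    have e2 := congrArg qcnt_Q.u (DFunLike.congr_fun hff g2)
    rw [hf _ v1 hv1 g2 hg2, hf _ v1 hv1 g2 hg2, hφ1, hφ1, hν2] at e2
    simp only [toAdd_one, Int.cast_zero, mul_zero, add_zero] at e2
    have hb : Multiplicative.toAdd (β g2) ≠ 0 := by
      intro h0
      exact hβ2 (Multiplicative.toAdd.injective (by rw [h0, toAdd_one]))
    have hs : s = s' := mul_right_cancel₀ hb e2
    subst hs
    have e1 := congrArg qcnt_Q.u (DFunLike.congr_fun hff g1)
    rw [hf _ v1 hv1 g1 hg1, hf _ v1 hv1 g1 hg1, hφ1, hφ1, hν1] at e1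
    simp only [toAdd_ofAdd, Int.cast_one, mul_one] at e1
    have hr : r = r' := add_left_cancel e1
    subst hr
    have e3 := congrArg qcnt_Q.u (DFunLike.congr_fun hff g3)
    rw [hf _ v3 hv3 g3 hg3, hf _ v3 hv3 g3 hg3, hφ2 _ _ _ hv31, hφ2 _ _ _ hv31] at e3
    simp only at e3
    have e4 : (1 - (θ g3 : F)) * (u - u') = 0 := by linear_combination e3
    rcases mul_eq_zero.1 e4 with h5 | h5
    · exfalso
      apply hθ3
      apply Units.ext
      rw [Units.val_one]
      exact (sub_eq_zero.1 h5).symm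
    · rw [sub_eq_zero.1 h5]
  haveI : Finite (G →* qcnt_Q F) := Pool.Agent.MP_305fdd_al.finite_hom G (qcnt_Q F)
  have hcard := (Nat.card_le_card_of_injective E hE).trans
    (hcount (qcnt_Q F) Fˣ (qcnt_Q.pr (F := F)) θ)
  rw [Nat.card_prod, Nat.card_prod, Nat.card_congr (qcnt_Q.kerEqv (F := F))] at hcard
  have h2 : 1 < Nat.card F := Finite.one_lt_card
  nlinarith [sq_nonneg (Nat.card F : ℤ), mul_pos (show 0 < Nat.card F by omega) (show 0 < Nat.card F by omega)]

end Pool.Agent.CZ
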