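import Pool.Agent.Lib.MP_305fdd_al.CZ.D.Bridge

/-!
# MP_305fdd_al, `C_m * Z`, section D: [CZQ dec]
-/

set_option autoImplicit false

namespace Pool.Agent.CZ

open Pool.Agent.PSL2Z (TreeAct)
open Pool.Agent.CC (Fund)

theorem qdec_coprime {C : Type} [CommGroup C] [IsCyclic C] [Finite C] (A1 A' : Subgroup C)
    (h : A1 ⊓ A' = ⊥) : Nat.Coprime (Nat.card A1) (Nat.card A') := by
  classical
  by_contra hcon
  obtain ⟨q, hq, hq1, hq2⟩ := Nat.Prime.not_coprime_iff_dvd.1 hcon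
  have : Fact q.Prime := ⟨hq⟩
  obtain ⟨x, hx⟩ := exists_prime_orderOf_dvd_card' q hq1
  obtain ⟨y, hy⟩ := exists_prime_orderOf_dvd_card' q hq2
  have hx' : orderOf (x : C) = q := by rw [Subgroup.orderOf_coe]; exact hx
  have hy' : orderOf (y : C) = q := by rw [Subgroup.orderOf_coe]; exact hy
  have := Fintype.ofFinite C
  have hz : Subgroup.zpowers (x : C) = Subgroup.zpowers (y : C) := by
    have h1 : ∀ z : C, orderOf z = q →
        (Finset.univ.filter fun a : C => a ^ q = 1) = (Subgroup.zpowers z : Set C).toFinset := by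
      intro z hz
      symm
      refine Finset.eq_of_subset_of_card_le ?_ ?_
      · intro a ha
        rw [Set.mem_toFinset] at ha
        rw [Finset.mem_filter]
        obtain ⟨i, rfl⟩ := Subgroup.mem_zpowers_iff.1 ha
        refine ⟨Finset.mem_univ _, ?_⟩
        rw [← zpow_natCast, ← zpow_mul, mul_comm, zpow_mul, zpow_natCast, ← hz, pow_orderOf_eq_one,
          one_zpow]
      · refine (IsCyclic.card_pow_eq_one_le hq.pos).trans ?_
        rw [Set.toFinset_card, ← Nat.card_eq_fintype_card]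
        have h5 : Nat.card (Subgroup.zpowers z) = q := by rw [Nat.card_zpowers, hz]
        exact h5.ge
    have h2 := (h1 x hx').symm.trans (h1 y hy')
    rw [Set.toFinset_inj] at h2
    exact SetLike.coe_injective h2
  have h3 : (x : C) ∈ A' := by
    have h4 : (x : C) ∈ Subgroup.zpowers (y : C) := hz ▸ Subgroup.mem_zpowers _
    exact (Subgroup.zpowers_le.2 y.2) h4
  have h5 : (x : C) = 1 := by
    have : (x : C) ∈ A1 ⊓ A' := ⟨x.2, h3⟩
    rw [h] at this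
    exact this
  rw [h5, orderOf_one] at hx'
  exact hq.one_lt.ne hx'

theorem qdec_card {C : Type} [CommGroup C] [Finite C] (A1 A' : Subgroup C)
    (h : A1 ⊓ A' = ⊥) (h' : A1 ⊔ A' = ⊤) : Nat.card A1 * Nat.card A' = Nat.card C := by
  refine Subgroup.IsComplement'.card_mul_card (Subgroup.isComplement'_of_disjoint_and_mul_eq_univ
    (disjoint_iff.2 h) ?_)
  rw [← Subgroup.mul_normal, h']
  rfl

theorem qdec_field (q b : ℕ) (hq : q.Prime) (hb : 0 < b) (hqb : Nat.Coprime q b) :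
    ∃ (F : Type) (_ : Field F) (_ : Finite F) (_ : CharP F q) (ζ : Fˣ), orderOf ζ = b := by
  have : Fact q.Prime := ⟨hq⟩
  have hn : Nat.totient b ≠ 0 := (Nat.totient_pos.2 hb).ne'
  have hfin : Finite (GaloisField q (Nat.totient b)) := by
    refine Nat.finite_of_card_ne_zero ?_
    rw [GaloisField.card q _ hn]
    exact pow_ne_zero _ hq.ne_zero
  refine ⟨GaloisField q (Nat.totient b), inferInstance, hfin, inferInstance, ?_⟩
  have := Fintype.ofFinite (GaloisField q (Nat.totient b))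
  obtain ⟨g, hg⟩ := IsCyclic.exists_ofOrder_eq_natCard (α := (GaloisField q (Nat.totient b))ˣ)
  have hcard : Nat.card (GaloisField q (Nat.totient b))ˣ = q ^ (Nat.totient b) - 1 := by
    rw [Nat.card_units, GaloisField.card q _ hn]
  have hd : b ∣ q ^ (Nat.totient b) - 1 := by
    have := Nat.ModEq.pow_totient hqb
    exact (Nat.modEq_iff_dvd' (Nat.one_le_pow _ _ hq.pos)).1 this.symm
  have hpos : 0 < q ^ (Nat.totient b) - 1 := by
    have : 1 < q ^ (Nat.totient b) := Nat.one_lt_pow hn hq.one_lt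
    omega
  obtain ⟨e, he⟩ := hd
  refine ⟨g ^ e, ?_⟩
  have he0 : e ≠ 0 := by
    rintro rfl
    rw [mul_zero] at he
    omega
  rw [orderOf_pow_of_dvd he0 (by rw [hg, hcard, he]; exact Dvd.intro_left _ rfl), hg, hcard, he,
    Nat.mul_div_cancel _ (Nat.pos_of_ne_zero he0)]

theorem qdec_omega (a b : ℕ) (hb : 0 < b) (hab : Nat.Coprime a b) (U : Type) [CommGroup U] (ζ : U)
    (hζ : orderOf ζ = b) : ∃ ω : Multiplicative (ZMod (a * b)) →* U,
      ∀ x, x ^ b = 1 → ω x = 1 → x = 1 := by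
  let ω0 : ZMod (a * b) →+ Additive U := ZMod.lift (a * b)
    ⟨zmultiplesHom (Additive U) (Additive.ofMul ζ), by
      rw [zmultiplesHom_apply, ← ofMul_zpow]
      have : ζ ^ ((a * b : ℕ) : ℤ) = 1 := by
        rw [zpow_natCast, mul_comm, pow_mul, ← hζ, pow_orderOf_eq_one, one_pow]
      rw [this]
      rfl⟩
  refine ⟨AddMonoidHom.toMultiplicativeLeft ω0, ?_⟩
  intro x hx hωx
  obtain ⟨i, hi⟩ := ZMod.intCast_surjective (Multiplicative.toAdd x)
  have hxi : x = Multiplicative.ofAdd ((i : ℤ) : ZMod (a * b)) := by rw [hi]; rfl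
  subst hxi
  have h1 : ζ ^ i = 1 := by
    have h2 : ω0 ((i : ℤ) : ZMod (a * b)) = 0 := hωx
    rw [ZMod.lift_coe] at h2
    exact h2
  have h2 : (b : ℤ) ∣ i := by
    rw [← hζ]
    exact orderOf_dvd_iff_zpow_eq_one.2 h1
  have h3 : ((a * b : ℕ) : ℤ) ∣ (b : ℤ) * i := by
    rw [← ofAdd_nsmul, nsmul_eq_mul] at hx
    have h4 : ((b : ℕ) : ZMod (a * b)) * ((i : ℤ) : ZMod (a * b)) = 0 := hx
    rw [← CharP.intCast_eq_zero_iff (ZMod (a * b)) (a * b)]
    push_cast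
    exact h4
  obtain ⟨i', rfl⟩ := h2
  have h5 : (a : ℤ) ∣ i' := by
    obtain ⟨c, hc⟩ := h3
    have hb0 : (b : ℤ) ≠ 0 := by exact_mod_cast hb.ne'
    have h6 : (b : ℤ) * i' = a * c := by
      apply mul_left_cancel₀ hb0
      rw [hc]
      push_cast
      ring
    have h7 : (a : ℤ) ∣ (b : ℤ) * i' := ⟨c, h6⟩
    exact (Int.isCoprime_iff_gcd_eq_one.2 (by simpa using hab)).dvd_of_dvd_mul_left h7
  obtain ⟨e, rfl⟩ := h5
  have h6 : (((b : ℤ) * (a * e) : ℤ) : ZMod (a * b)) = 0 := by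
    rw [CharP.intCast_eq_zero_iff (ZMod (a * b)) (a * b)]
    refine ⟨e, ?_⟩
    push_cast
    ring
  rw [h6]
  rfl

theorem qdec_beta (m q : ℕ) (hqm : q ∣ m) (F : Type) [Field F]
    [CharP F q] : ∃ β : Multiplicative (ZMod m) →* Multiplicative F, (∃ x, β x ≠ 1) ∧
      ∀ x (n : ℕ), ¬ q ∣ n → x ^ n = 1 → β x = 1 := by
  let β0 : ZMod m →+* F := ZMod.castHom hqm F
  refine ⟨AddMonoidHom.toMultiplicative β0.toAddMonoidHom, ⟨Multiplicative.ofAdd 1, ?_⟩, ?_⟩
  · intro h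
    have h1 : β0 1 = 0 := h
    rw [map_one] at h1
    exact one_ne_zero h1
  · intro x n hn hx
    have h1 : n • (Multiplicative.toAdd x) = 0 := hx
    have h2 : (n : F) * β0 (Multiplicative.toAdd x) = 0 := by
      rw [← nsmul_eq_mul, ← map_nsmul, h1, map_zero]
    rcases mul_eq_zero.1 h2 with h3 | h3
    · exact absurd ((CharP.cast_eq_zero_iff F q n).1 h3) hn
    · exact h3

theorem q_dec (hFU : CZD.S_FU) (hhz : S_hz) (hcen : CZD.S_cen) (hsplit : S_split)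
    (hcnt : S_cnt) : S_dec := by
  classical
  intro m G _ c δ ν hC hQ t hE hl
  obtain ⟨l0, ⟨w0, hw0⟩, hν0⟩ := hl
  obtain ⟨V', act, X', ty', j, Y, hTA, hF, hS, v1, hv1, l1, hl1, hνl1⟩ :=
    hFU m G t.V δ ν t.X t.ty (CZD.gd_of hhz hC) t.ta w0 l0 hw0 hν0
  have hcfix : ∀ v : V', c • v = v := fun v => hS.inj (by rw [hS.smul, t.cfix])
  let t' : GTree G c := ⟨V', act, X', ty', ⟨v1⟩, hTA, hcfix⟩
  have hE' : ∀ S, t'.Edg S → ∀ l ∈ S, δ l = 1 ∧ ν l = 1 := by
    rintro S ⟨a, b, hab, rfl⟩ l ⟨hla, hlb⟩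
    exact hE _ ⟨j a, j b, hS.adj a b hab, rfl⟩ l
      ⟨by rw [← hS.smul, hla], by rw [← hS.smul, hlb]⟩
  have hνc : ν c = 1 := by
    have h1 : ν c * ν c = 1 := by rw [← map_mul, hC.c_sq, map_one]
    have h2 : Multiplicative.toAdd (ν c) + Multiplicative.toAdd (ν c) = 0 := h1
    have h3 : Multiplicative.toAdd (ν c) = 0 := by omega
    exact h3
  obtain ⟨H1, hH1⟩ : ∃ H1, H1 = (MulAction.stabilizer G v1).map (δ.prod ν) := ⟨_, rfl⟩
  obtain ⟨H', hH'⟩ : ∃ H', H' = ⨆ v ∈ Y, ⨆ _ : v ≠ v1,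
    (MulAction.stabilizer G v).map (δ.prod ν) := ⟨_, rfl⟩
  obtain ⟨hsup, hinf⟩ := hsplit m G c δ ν hC t' Y hF hE' v1 hv1
  replace hsup : H1 ⊔ H' = ⊤ := by rw [hH1, hH']; exact hsup
  replace hinf : H1 ⊓ H' = ⊥ := by rw [hH1, hH']; exact hinf
  have hmem1 : ∀ g : G, g • v1 = v1 → (δ g, ν g) ∈ H1 := fun g hg => by
    rw [hH1]; exact ⟨g, hg, rfl⟩
  have hmem1' : ∀ x ∈ H1, ∃ g : G, g • v1 = v1 ∧ (δ g, ν g) = x := by
    intro x hx
    rw [hH1] at hx
    obtain ⟨g, hg, rfl⟩ := hx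
    exact ⟨g, hg, rfl⟩
  have hmem' : ∀ v ∈ Y, v ≠ v1 → ∀ g : G, g • v = v → (δ g, ν g) ∈ H' := by
    intro v hv hne g hg
    have h1 : (MulAction.stabilizer G v).map (δ.prod ν) ≤ H' := by
      rw [hH']
      exact le_iSup₂_of_le v hv (le_iSup_of_le hne le_rfl)
    exact h1 ⟨g, hg, rfl⟩
  have hle' : ∀ P : Subgroup (Multiplicative (ZMod m) × Multiplicative ℤ),
      (∀ v ∈ Y, v ≠ v1 → ∀ g : G, g • v = v → (δ g, ν g) ∈ P) → H' ≤ P := by
    intro P hP
    rw [hH']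
    refine iSup₂_le fun v hv => iSup_le fun hne => ?_
    rintro _ ⟨g, hg, rfl⟩
    exact hP v hv hne g hg
  have hdecomp : ∀ x, ∃ h1 ∈ H1, ∃ h' ∈ H', h1 * h' = x := by
    intro x
    have hx : x ∈ H1 ⊔ H' := by rw [hsup]; exact Subgroup.mem_top x
    exact Subgroup.mem_sup.1 hx
  -- the second component is trivial on `H'`
  have hm0 : (m : ℤ) ≠ 0 := by
    have := hC.two_le
    omega
  have hpm : ∀ d : Multiplicative (ZMod m), d ^ m = 1 := by
    intro d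
    have h1 : m • Multiplicative.toAdd d = 0 := by
      rw [nsmul_eq_mul, CharP.cast_eq_zero, zero_mul]
    exact h1
  have hsnd : ∀ x ∈ H', x.2 = 1 := by
    intro x hx
    obtain ⟨n1, hn1⟩ : ∃ n1 : ℤ, n1 = Multiplicative.toAdd (ν l1) := ⟨_, rfl⟩
    obtain ⟨n', hn'⟩ : ∃ n' : ℤ, n' = Multiplicative.toAdd x.2 := ⟨_, rfl⟩
    have hn1' : n1 ≠ 0 := fun h => hνl1 (by
      have : ν l1 = Multiplicative.ofAdd n1 := by rw [hn1]; rfl
      rw [this, h]; rfl)
    have h1 : x ^ ((m : ℤ) * n1) = (δ l1, ν l1) ^ ((m : ℤ) * n') := by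
      refine Prod.ext ?_ ?_
      · rw [Prod.pow_fst, Prod.pow_fst, zpow_mul, zpow_mul, zpow_natCast, zpow_natCast, hpm, hpm,
          one_zpow, one_zpow]
      · rw [Prod.pow_snd, Prod.pow_snd]
        have e1 : x.2 = Multiplicative.ofAdd n' := by rw [hn']; rfl
        have e2 : ν l1 = Multiplicative.ofAdd n1 := by rw [hn1]; rfl
        rw [e1]
        change _ = (ν l1) ^ ((m : ℤ) * n')
        rw [e2, ← ofAdd_zsmul, ← ofAdd_zsmul, smul_eq_mul, smul_eq_mul]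
        congr 1
        ring
    have h2 : x ^ ((m : ℤ) * n1) ∈ H1 ⊓ H' :=
      ⟨by rw [h1]; exact H1.zpow_mem (hmem1 l1 hl1) _, H'.zpow_mem hx _⟩
    rw [hinf, Subgroup.mem_bot] at h2
    have h3 := congrArg Prod.snd h2
    rw [Prod.pow_snd] at h3
    have e1 : x.2 = Multiplicative.ofAdd n' := by rw [hn']; rfl
    rw [e1, ← ofAdd_zsmul, smul_eq_mul] at h3
    have h4 : (m : ℤ) * n1 * n' = 0 := h3
    have h5 : n' = 0 := by
      rcases mul_eq_zero.1 h4 with h6 | h6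
      · rcases mul_eq_zero.1 h6 with h7 | h7
        · exact absurd h7 hm0
        · exact absurd h7 hn1'
      · exact h6
    rw [e1, h5]
    rfl
  obtain ⟨A', hA'⟩ : ∃ A', A' = H'.comap
    (MonoidHom.inl (Multiplicative (ZMod m)) (Multiplicative ℤ)) := ⟨_, rfl⟩
  obtain ⟨A1, hA1⟩ : ∃ A1, A1 = H1.comap
    (MonoidHom.inl (Multiplicative (ZMod m)) (Multiplicative ℤ)) := ⟨_, rfl⟩
  have mA' : ∀ d, d ∈ A' ↔ (d, 1) ∈ H' := fun d => by rw [hA']; rfl
  have mA1 : ∀ d, d ∈ A1 ↔ (d, 1) ∈ H1 := fun d => by rw [hA1]; rfl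
  have mA'' : ∀ x ∈ H', x.1 ∈ A' := by
    intro x hx
    rw [mA', ← hsnd x hx]
    exact hx
  have hνY : ∀ v ∈ Y, v ≠ v1 → ∀ g : G, g • v = v → ν g = 1 ∧ δ g ∈ A' := by
    intro v hv hne g hg
    exact ⟨hsnd _ (hmem' v hv hne g hg), mA'' _ (hmem' v hv hne g hg)⟩
  -- elements of the stabiliser of `v1` with given `ν`
  have hg1 : ∀ n : Multiplicative ℤ, ∃ g : G, g • v1 = v1 ∧ ν g = n := by
    intro n
    obtain ⟨x1, hx1, x', hx', hx⟩ := hdecomp (1, n)
    obtain ⟨g, hg, hgx⟩ := hmem1' x1 hx1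
    refine ⟨g, hg, ?_⟩
    have h1 := congrArg Prod.snd hx
    have h2 : x1.2 * x'.2 = n := h1
    rw [hsnd x' hx', mul_one] at h2
    rw [← h2, ← hgx]
  by_cases hA'top : A' = ⊤
  · -- (b)
    left
    refine CZD.onto_of' hcen hC ?_
    obtain ⟨f, hf⟩ := CC.exists_hom_ext hTA Y hF
      (fun v => if v = v1 then (Monoid.Coprod.inr : _ →* CZD.WW m).comp ν
        else (Monoid.Coprod.inl : _ →* CZD.WW m).comp δ) (by
        intro y hy z hz hyz g hgy hgz
        have h1 := hE' _ ⟨y, z, hyz, rfl⟩ g ⟨hgy, hgz⟩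
        have h2 : ∀ v : V', (if v = v1 then (Monoid.Coprod.inr : _ →* CZD.WW m).comp ν
            else (Monoid.Coprod.inl : _ →* CZD.WW m).comp δ) g = 1 := by
          intro v
          split_ifs
          · rw [MonoidHom.comp_apply, h1.2, map_one]
          · rw [MonoidHom.comp_apply, h1.1, map_one]
        change (if y = v1 then (Monoid.Coprod.inr : _ →* CZD.WW m).comp ν
            else (Monoid.Coprod.inl : _ →* CZD.WW m).comp δ) g = _
        rw [h2 y]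
        exact (h2 z).symm)
    refine ⟨f, ?_⟩
    rw [← MonoidHom.range_eq_top, eq_top_iff, ← Monoid.Coprod.range_inl_sup_range_inr, sup_le_iff]
    constructor
    · rintro _ ⟨d, rfl⟩
      have h1 : H' ≤ (f.range).comap ((Monoid.Coprod.inl : _ →* CZD.WW m).comp
          (MonoidHom.fst _ _)) := by
        refine hle' _ fun v hv hne g hg => ?_
        refine ⟨g, ?_⟩
        rw [hf v hv g hg]
        change (if v = v1 then (Monoid.Coprod.inr : _ →* CZD.WW m).comp ν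
            else (Monoid.Coprod.inl : _ →* CZD.WW m).comp δ) g = _
        rw [if_neg hne]
        rfl
      have h2 : d ∈ A' := by rw [hA'top]; exact Subgroup.mem_top d
      exact h1 ((mA' d).1 h2)
    · rintro _ ⟨n, rfl⟩
      obtain ⟨g, hg, hgn⟩ := hg1 n
      refine ⟨g, ?_⟩
      rw [hf v1 hv1 g hg]
      change (if v1 = v1 then (Monoid.Coprod.inr : _ →* CZD.WW m).comp ν
            else (Monoid.Coprod.inl : _ →* CZD.WW m).comp δ) g = _
      rw [if_pos rfl, MonoidHom.comp_apply, hgn]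
  by_cases hA'bot : A' = ⊥
  · -- (c)
    right
    refine ⟨{v // v ∈ Y}, fun v => MulAction.stabilizer G v.1, ⟨v1, hv1⟩, ?_, ?_, ?_, ?_⟩
    · rw [← CC.Fund.iSup_stab hTA Y hF, iSup_subtype']
    · intro i l hl
      exact ⟨j i.1, by rw [← hS.smul]; exact congrArg j hl⟩
    · intro i hi l hl
      have h1 := hνY i.1 i.2 (fun h => hi (Subtype.ext h)) l hl
      refine ⟨?_, h1.1⟩
      have h2 := h1.2
      rw [hA'bot, Subgroup.mem_bot] at h2
      exact h2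
    · intro x n
      obtain ⟨x1, hx1, x', hx', hx⟩ := hdecomp (x, n)
      obtain ⟨g, hg, hgx⟩ := hmem1' x1 hx1
      have h1 : x' = 1 := by
        refine Prod.ext ?_ (hsnd x' hx')
        have h2 := mA'' x' hx'
        rw [hA'bot, Subgroup.mem_bot] at h2
        exact h2
      rw [h1, mul_one] at hx
      refine ⟨g, hg, ?_, ?_⟩
      · exact congrArg Prod.fst (hgx.trans hx)
      · exact congrArg Prod.snd (hgx.trans hx)
  -- (d)
  exfalso
  have hmz : NeZero m := ⟨by have := hC.two_le; omega⟩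
  have hinfA : A1 ⊓ A' = ⊥ := by
    rw [eq_bot_iff]
    rintro d ⟨h1, h2⟩
    have h3 : ((d, 1) : Multiplicative (ZMod m) × Multiplicative ℤ) ∈ H1 ⊓ H' :=
      ⟨(mA1 d).1 h1, (mA' d).1 h2⟩
    rw [hinf, Subgroup.mem_bot] at h3
    exact congrArg Prod.fst h3
  have hsupA : A1 ⊔ A' = ⊤ := by
    rw [eq_top_iff]
    intro d _
    obtain ⟨x1, hx1, x', hx', hx⟩ := hdecomp (d, 1)
    have h1 : x1.2 * x'.2 = 1 := congrArg Prod.snd hx
    rw [hsnd x' hx', mul_one] at h1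
    have h2 : x1.1 * x'.1 = d := congrArg Prod.fst hx
    rw [← h2]
    refine Subgroup.mul_mem_sup ?_ (mA'' x' hx')
    rw [mA1, ← h1]
    exact hx1
  have hfin : Finite (Multiplicative (ZMod m)) := inferInstance
  have hcyc : IsCyclic (Multiplicative (ZMod m)) := inferInstance
  obtain ⟨a, ha⟩ : ∃ a, a = Nat.card A1 := ⟨_, rfl⟩
  obtain ⟨b, hb⟩ : ∃ b, b = Nat.card A' := ⟨_, rfl⟩
  have hab : Nat.Coprime a b := by rw [ha, hb]; exact qdec_coprime A1 A' hinfA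
  have habm : a * b = m := by
    rw [ha, hb, qdec_card A1 A' hinfA hsupA]
    exact Nat.card_zmod m
  have hb0 : 0 < b := by rw [hb]; exact Nat.card_pos
  have ha1 : a ≠ 1 := by
    intro h
    refine hA'top ?_
    have h1 : A1 = ⊥ := Subgroup.card_eq_one.1 (by rw [← ha, h])
    rw [← hsupA, h1, bot_sup_eq]
  obtain ⟨q, hq, hqa⟩ := Nat.exists_prime_and_dvd ha1
  have hqb : Nat.Coprime q b := Nat.Coprime.coprime_dvd_left hqa hab
  have hqm : q ∣ m := hqa.trans ⟨b, habm.symm⟩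
  obtain ⟨F, _, _, _, ζ, hζ⟩ := qdec_field q b hq hb0 hqb
  obtain ⟨ω, hω⟩ : ∃ ω : Multiplicative (ZMod m) →* Fˣ, ∀ x, x ^ b = 1 → ω x = 1 → x = 1 := by
    rw [← habm]
    exact qdec_omega a b hb0 hab Fˣ ζ hζ
  obtain ⟨β0, ⟨x0, hx0⟩, hβ0⟩ := qdec_beta m q hqm F
  have hA'b : ∀ x ∈ A', x ^ b = 1 := by
    intro x hx
    have h1 : (⟨x, hx⟩ : A') ^ b = 1 := by rw [hb]; exact pow_card_eq_one'
    exact congrArg Subtype.val h1
  have hqb' : ¬ q ∣ b := fun h => by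
    have h1 : q ∣ 1 := by
      rw [← hqb]
      exact Nat.dvd_gcd dvd_rfl h
    exact hq.one_lt.ne' (Nat.dvd_one.1 h1)
  -- the homomorphism θ
  obtain ⟨θ, hθ⟩ := CC.exists_hom_ext hTA Y hF
      (fun v => if v = v1 then (1 : G →* Fˣ) else ω.comp δ) (by
        intro y hy z hz hyz g hgy hgz
        have h1 := hE' _ ⟨y, z, hyz, rfl⟩ g ⟨hgy, hgz⟩
        have h2 : ∀ v : V', (if v = v1 then (1 : G →* Fˣ) else ω.comp δ) g = 1 := by
          intro v
          split_ifs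
          · rfl
          · rw [MonoidHom.comp_apply, h1.1, map_one]
        change (if y = v1 then (1 : G →* Fˣ) else ω.comp δ) g = _
        rw [h2 y]
        exact (h2 z).symm)
  have hθ1 : ∀ g : G, g • v1 = v1 → θ g = 1 := by
    intro g hg
    rw [hθ v1 hv1 g hg]
    change (if v1 = v1 then (1 : G →* Fˣ) else ω.comp δ) g = _
    rw [if_pos rfl]
    rfl
  have hθ' : ∀ v ∈ Y, v ≠ v1 → ∀ g : G, g • v = v → θ g = ω (δ g) := by
    intro v hv hne g hg
    rw [hθ v hv g hg]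
    change (if v = v1 then (1 : G →* Fˣ) else ω.comp δ) g = _
    rw [if_neg hne]
    rfl
  obtain ⟨g1, hg1v, hg1ν⟩ := hg1 (Multiplicative.ofAdd 1)
  -- g2
  obtain ⟨d2, hd2, hβd2⟩ : ∃ d ∈ A1, β0 d ≠ 1 := by
    by_contra hcon
    push Not at hcon
    have h1 : A1 ⊔ A' ≤ β0.ker := by
      rw [sup_le_iff]
      refine ⟨fun d hd => hcon d hd, fun d hd => ?_⟩
      exact hβ0 d b hqb' (hA'b d hd)
    rw [hsupA] at h1
    exact hx0 (h1 (Subgroup.mem_top x0))
  obtain ⟨g2, hg2v, hg2⟩ := hmem1' _ ((mA1 d2).1 hd2)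
  -- g3
  obtain ⟨v3, hv3, hne3, g3, hg3, hδ3⟩ : ∃ v3 ∈ Y, v3 ≠ v1 ∧ ∃ g3 : G, g3 • v3 = v3 ∧ δ g3 ≠ 1 := by
    by_contra hcon
    push Not at hcon
    refine hA'bot ?_
    rw [eq_bot_iff]
    intro d hd
    have h1 : H' ≤ (MonoidHom.fst (Multiplicative (ZMod m)) (Multiplicative ℤ)).ker :=
      hle' _ fun v hv hne g hg => hcon v hv hne g hg
    exact h1 ((mA' d).1 hd)
  refine hcnt m G c δ ν hC hQ t' Y hF v1 hv1 F (β0.comp δ) θ ?_ ?_ hθ1 g1 g2 g3 hg1v hg1ν hg2v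
    ?_ ?_ v3 hv3 hne3 hg3 ?_
  · intro y hy z hz hyz g hgy hgz
    have h1 := hE' _ ⟨y, z, hyz, rfl⟩ g ⟨hgy, hgz⟩
    refine ⟨by rw [MonoidHom.comp_apply, h1.1, map_one], ?_, h1.2⟩
    by_cases hy1 : y = v1
    · exact hθ1 g (by rw [← hy1]; exact hgy)
    · rw [hθ' y hy hy1 g hgy, h1.1, map_one]
  · rw [MonoidHom.comp_apply, hC.c_δ, map_one]
  · exact congrArg Prod.snd hg2
  · rw [MonoidHom.comp_apply]
    have : δ g2 = d2 := congrArg Prod.fst hg2
    rw [this]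
    exact hβd2
  · rw [hθ' v3 hv3 hne3 g3 hg3]
    intro h
    exact hδ3 (hω _ (hA'b _ (hνY v3 hv3 hne3 g3 hg3).2) h)

end Pool.Agent.CZ
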