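import Pool.Agent.Lib.MP_305fdd_al.CZ.D.Stm
import Pool.Agent.Lib.MP_305fdd_al.F2.D.p_A2

/-!
# MP_305fdd_al, `C_m * Z`, section D: piece [CZQ fp]
-/

set_option autoImplicit false

namespace Pool.Agent.CZ

open Pool.Agent.PSL2Z (TreeAct Gw)
open Pool.Agent.PSL2Z.BT (Vert mkV tree)
open Pool.Agent.CC (Fund)
open Pool.Agent.F2 (PC)
open Pool.Agent.F2Ch (IsV Gt)
open Pool.Agent.F2D (Acts Irr Disc Disc' EdgeElt Bd ent)
open scoped WithZero

private theorem qfp_lt {E : Type} [Field E] (w : Valuation E ℤᵐ⁰) (x : E) (m : ℤ) :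
    w x < WithZero.exp m ↔ w x ≤ WithZero.exp (m - 1) := by
  by_cases hx : w x = 0
  · rw [hx]
    exact ⟨fun _ => zero_le, fun _ => WithZero.exp_pos⟩
  · rw [← WithZero.exp_log hx, WithZero.exp_lt_exp, WithZero.exp_le_exp]
    omega

private theorem qfp_ex {E : Type} [Field E] (w : Valuation E ℤᵐ⁰) (x : E) :
    ∃ m : ℤ, w x ≤ WithZero.exp m := by
  by_cases hx : w x = 0
  · exact ⟨0, by rw [hx]; exact zero_le⟩
  · exact ⟨WithZero.log (w x), by rw [WithZero.exp_log hx]⟩

theorem q_fp (h2fx : F2D.S_fx) (h2ma : F2D.S_ma) : S_fp := by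
  intro E _ w hw A hdet htr
  have htrB : ∀ k : Gw w, w (ent (k⁻¹ * A * k) 0 0 + ent (k⁻¹ * A * k) 1 1) ≤ 1 := by
    intro k
    have h1 : ent (k⁻¹ * A * k) 0 0 + ent (k⁻¹ * A * k) 1 1 = (k⁻¹ * A * k).val.val.trace :=
      (Matrix.trace_fin_two _).symm
    rw [h1, F2D.A2_trace]
    exact htr
  have hdetB : ∀ k : Gw w, (k⁻¹ * A * k).val.val.det = 1 := fun k => F2D.A2_det k A hdet
  obtain ⟨N, ⟨hN0, k, h, hB⟩, hmin⟩ : ∃ N : ℤ, (0 ≤ N ∧ ∃ (k : Gw w) (h : ℤ),
      Bd w (k⁻¹ * A * k) h N) ∧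
      ∀ N', (0 ≤ N' ∧ ∃ (k : Gw w) (h : ℤ), Bd w (k⁻¹ * A * k) h N') → N ≤ N' := by
    refine Int.exists_least_of_bdd ⟨0, ?_⟩ ?_
    · rintro N ⟨h0, -⟩
      exact h0
    · obtain ⟨m0, h0⟩ := qfp_ex w (ent ((1 : Gw w)⁻¹ * A * 1) 0 0)
      obtain ⟨m1, h1⟩ := qfp_ex w (ent ((1 : Gw w)⁻¹ * A * 1) 0 1)
      obtain ⟨m2, h2⟩ := qfp_ex w (ent ((1 : Gw w)⁻¹ * A * 1) 1 0)
      obtain ⟨m3, h3⟩ := qfp_ex w (ent ((1 : Gw w)⁻¹ * A * 1) 1 1)
      refine ⟨|m0| + |m1| + |m2| + |m3|, by positivity, 1, 0, ?_, ?_, ?_, ?_⟩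
      · exact h0.trans (WithZero.exp_le_exp.2 (by
          have := le_abs_self m0; have := abs_nonneg m1; have := abs_nonneg m2
          have := abs_nonneg m3; omega))
      · exact h1.trans (WithZero.exp_le_exp.2 (by
          have := abs_nonneg m0; have := le_abs_self m1; have := abs_nonneg m2
          have := abs_nonneg m3; omega))
      · exact h2.trans (WithZero.exp_le_exp.2 (by
          have := abs_nonneg m0; have := abs_nonneg m1; have := le_abs_self m2
          have := abs_nonneg m3; omega))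
      · exact h3.trans (WithZero.exp_le_exp.2 (by
          have := abs_nonneg m0; have := abs_nonneg m1; have := abs_nonneg m2
          have := le_abs_self m3; omega))
  rcases hN0.eq_or_lt with hN | hN
  · subst hN
    have h1 := (h2fx E w hw (k⁻¹ * A * k) h).2 hB
    refine ⟨k • mkV w h 0, ?_⟩
    have h2 : k • ((k⁻¹ * A * k) • mkV w h 0) = k • mkV w h 0 := by rw [h1]
    rw [← mul_smul, ← mul_assoc, ← mul_assoc, mul_inv_cancel, one_mul, mul_smul] at h2
    exact h2
  · exfalso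
    have hN1 : 1 ≤ N := hN
    obtain ⟨r, -, hB', hB10, hB11⟩ := h2ma E w hw (k⁻¹ * A * k) h N hN1 (hdetB k) hB
    have hconj : r⁻¹ * (k⁻¹ * A * k) * r = (k * r)⁻¹ * A * (k * r) := by group
    rw [hconj] at hB' hB10 hB11
    generalize k * r = k' at hB' hB10 hB11
    obtain ⟨b00, b01, b10, b11⟩ := hB'
    have htr' := htrB k'
    have hdet' := hdetB k'
    rw [Matrix.det_fin_two] at hdet'
    have hdet2 : ent (k'⁻¹ * A * k') 0 0 * ent (k'⁻¹ * A * k') 1 1 -
        ent (k'⁻¹ * A * k') 0 1 * ent (k'⁻¹ * A * k') 1 0 = 1 := hdet'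
    have h00 : w (ent (k'⁻¹ * A * k') 0 0) < WithZero.exp N := by
      have e : ent (k'⁻¹ * A * k') 0 0 =
          (ent (k'⁻¹ * A * k') 0 0 + ent (k'⁻¹ * A * k') 1 1) - ent (k'⁻¹ * A * k') 1 1 := by
        ring
      rw [e]
      refine lt_of_le_of_lt (Valuation.map_sub w _ _) (max_lt ?_ hB11)
      refine lt_of_le_of_lt htr' ?_
      rw [← WithZero.exp_zero]
      exact WithZero.exp_lt_exp.2 hN
    have h00' := (qfp_lt w _ _).1 h00
    have h11' := (qfp_lt w _ _).1 hB11
    rcases b01.lt_or_eq with h01 | h01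
    · have h2 := hmin (N - 1) ⟨by omega, k', h, h00', by
        have := (qfp_lt w _ _).1 h01
        rwa [show N + h - 1 = N - 1 + h by ring] at this, by
        have := (qfp_lt w _ _).1 hB10
        rwa [show N - h - 1 = N - 1 - h by ring] at this, h11'⟩
      omega
    · have h10 : w (ent (k'⁻¹ * A * k') 1 0) ≤ WithZero.exp (N - 2 - h) := by
        have e : ent (k'⁻¹ * A * k') 0 1 * ent (k'⁻¹ * A * k') 1 0 =
            ent (k'⁻¹ * A * k') 0 0 * ent (k'⁻¹ * A * k') 1 1 - 1 := by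
          linear_combination -hdet2
        have h2 : w (ent (k'⁻¹ * A * k') 0 1 * ent (k'⁻¹ * A * k') 1 0) ≤
            WithZero.exp (2 * N - 2) := by
          rw [e]
          refine (Valuation.map_sub w _ _).trans (max_le ?_ ?_)
          · rw [map_mul]
            refine (mul_le_mul' h00' h11').trans ?_
            rw [← WithZero.exp_add]
            exact WithZero.exp_le_exp.2 (by omega)
          · rw [map_one, ← WithZero.exp_zero]
            exact WithZero.exp_le_exp.2 (by omega)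
        rw [map_mul, h01, mul_comm] at h2
        have h3 : WithZero.exp (2 * N - 2) = WithZero.exp (N - 2 - h) * WithZero.exp (N + h) := by
          rw [← WithZero.exp_add]
          congr 1
          ring
        rw [h3] at h2
        exact le_of_mul_le_mul_right h2 WithZero.exp_pos
      have h2 := hmin (N - 1) ⟨by omega, k', h + 1, h00', by
        rw [h01]
        exact WithZero.exp_le_exp.2 (by omega), by
        rwa [show N - 2 - h = N - 1 - (h + 1) by ring] at h10, h11'⟩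
      omega

end Pool.Agent.CZ
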