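import Pool.Agent.Lib.MP_305fdd_al.CZ.D.Stm

/-!
# MP_305fdd_al (`C_m * Z`), section D: homomorphisms to `ℤ` [CZQ hz]
-/

set_option autoImplicit false

namespace Pool.Agent.CZ

open Pool.Agent.PSL2Z (TreeAct Gw)
open Pool.Agent.CC (Fund)
open Pool.Agent.F2 (PC)
open Pool.Agent.F2Ch (IsV Gt)
open Pool.Agent.F2D (Acts Irr Disc Disc' EdgeElt)
open scoped WithZero

private theorem qhz_tf (x : Multiplicative ℤ) (n : ℕ) (hn : n ≠ 0) (h : x ^ n = 1) : x = 1 := by
  apply Multiplicative.toAdd.injective
  have h1 : (n : ℤ) * Multiplicative.toAdd x = 0 := by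
    have := congrArg Multiplicative.toAdd h
    simpa [toAdd_pow] using this
  have h2 : (n : ℤ) ≠ 0 := by exact_mod_cast hn
  rcases mul_eq_zero.mp h1 with h3 | h3
  · exact absurd h3 h2
  · simpa using h3

theorem q_hz : S_hz := by
  intro m G _ c δ ν C f
  have hm : m ≠ 0 := by have := C.two_le; omega
  have hfc : f c = 1 := by
    apply qhz_tf _ 2 two_ne_zero
    rw [pow_two, ← map_mul, C.c_sq, map_one]
  have hcomm : ∀ g ∈ commutator G, f g = 1 := by
    intro g hg
    have := Abelianization.commutator_subset_ker f hg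
    exact this
  have hker : ∀ g, ν g = 1 → f g = 1 := by
    intro g hg
    have h1 : δ (g ^ m) = 1 := by
      rw [map_pow]
      apply Multiplicative.toAdd.injective
      rw [toAdd_pow]
      simp
    have h2 : ν (g ^ m) = 1 := by rw [map_pow, hg, one_pow]
    have h3 : f (g ^ m) = 1 := by
      rcases C.ker _ h1 h2 with h | h
      · exact hcomm _ h
      · have := hcomm _ h
        rwa [map_mul, hfc, one_mul] at this
    rw [map_pow] at h3
    exact qhz_tf _ m hm h3
  obtain ⟨t, -, ht⟩ := C.surj 1 (Multiplicative.ofAdd 1)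
  refine ⟨Multiplicative.toAdd (f t), fun g => ?_⟩
  have h4 : ν (g * t ^ (-(Multiplicative.toAdd (ν g)))) = 1 := by
    rw [map_mul, map_zpow, ht]
    apply Multiplicative.toAdd.injective
    simp
  have h5 := hker _ h4
  rw [map_mul, map_zpow] at h5
  have h6 : f g = f t ^ (Multiplicative.toAdd (ν g)) := by
    rw [zpow_neg] at h5
    exact mul_inv_eq_one.mp h5
  rw [h6]
  apply Multiplicative.toAdd.injective
  simp [mul_comm]

end Pool.Agent.CZ
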