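import Pool.Agent.Lib.MP_305fdd_al.CZ.D.Stm

/-!
# MP_305fdd_al, `C_m * Z`, section D: piece [CZQ split]
-/

set_option autoImplicit false

namespace Pool.Agent.CZ

open Pool.Agent.PSL2Z (TreeAct Gw)
open Pool.Agent.PSL2Z.BT (Vert mkV tree)
open Pool.Agent.CC (Fund)
open Pool.Agent.F2 (PC)
open Pool.Agent.F2Ch (IsV Gt)
open Pool.Agent.F2D (Acts Irr Disc Disc' EdgeElt)
open scoped WithZero

private theorem qsplit_sq (x : Multiplicative ℤ) (h : x * x = 1) : x = 1 := by
  have h1 : Multiplicative.toAdd x + Multiplicative.toAdd x = 0 := by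
    rw [← toAdd_mul, h]
    rfl
  have h2 : Multiplicative.toAdd x = 0 := by omega
  exact Multiplicative.toAdd.injective h2

private theorem qsplit_ker {G W : Type} [Group G] [CommGroup W] (m : ℕ) (c : G)
    (δ : G →* Multiplicative (ZMod m)) (ν : G →* Multiplicative ℤ) (hC : Cls m G c δ ν)
    (f : G →* W) (hc : f c = 1) (g : G) (h1 : δ g = 1) (h2 : ν g = 1) : f g = 1 := by
  rcases hC.ker g h1 h2 with h | h
  · exact Abelianization.commutator_subset_ker f h
  · have h3 : f (c * g) = 1 := Abelianization.commutator_subset_ker f h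
    rwa [map_mul, hc, one_mul] at h3

theorem q_split : S_split := by
  intro m G _ c δ ν hC t Y hY hE v1 hv1
  classical
  have hνc : ν c = 1 := by
    apply qsplit_sq
    rw [← map_mul, hC.c_sq, map_one]
  have hclc : (δ.prod ν) c = 1 := Prod.ext hC.c_δ hνc
  constructor
  · rw [eq_top_iff]
    have h1 : (⨆ v ∈ Y, MulAction.stabilizer G v) ≤
        ((MulAction.stabilizer G v1).map (δ.prod ν) ⊔
          (⨆ v ∈ Y, ⨆ _ : v ≠ v1, (MulAction.stabilizer G v).map (δ.prod ν))).comap
            (δ.prod ν) := by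
      refine iSup₂_le (fun v hv => ?_)
      rw [← Subgroup.map_le_iff_le_comap]
      by_cases h : v = v1
      · subst h
        exact le_sup_left
      · refine le_trans ?_ le_sup_right
        refine le_trans ?_ (le_iSup₂ (f := fun v (_ : v ∈ Y) =>
          ⨆ _ : v ≠ v1, (MulAction.stabilizer G v).map (δ.prod ν)) v hv)
        exact le_iSup (fun _ : v ≠ v1 => (MulAction.stabilizer G v).map (δ.prod ν)) h
    rw [CC.Fund.iSup_stab t.ta Y hY] at h1
    rintro ⟨x, n⟩ -
    obtain ⟨g, hg1, hg2⟩ := hC.surj x n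
    have h2 := h1 (Subgroup.mem_top g)
    rw [Subgroup.mem_comap] at h2
    have h3 : (δ.prod ν) g = (x, n) := Prod.ext hg1 hg2
    rwa [h3] at h2
  · rw [eq_bot_iff]
    obtain ⟨f, hf⟩ := CC.exists_hom_ext t.ta Y hY
      (fun v => if v = v1 then
        (MonoidHom.inl (Multiplicative (ZMod m) × Multiplicative ℤ)
          (Multiplicative (ZMod m) × Multiplicative ℤ)).comp (δ.prod ν) else
        (MonoidHom.inr (Multiplicative (ZMod m) × Multiplicative ℤ)
          (Multiplicative (ZMod m) × Multiplicative ℤ)).comp (δ.prod ν)) (by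
      intro y hy z hz hyz g hgy hgz
      have h1 := hE _ ⟨y, z, hyz, rfl⟩ g ⟨hgy, hgz⟩
      have h2 : (δ.prod ν) g = 1 := Prod.ext h1.1 h1.2
      split_ifs <;> simp only [MonoidHom.comp_apply, h2, map_one])
    have hf1 : ∀ g : G, g • v1 = v1 → f g = ((δ.prod ν) g, 1) := by
      intro g hg
      have := hf v1 hv1 g hg
      rw [if_pos rfl] at this
      exact this
    have hf2 : ∀ v ∈ Y, v ≠ v1 → ∀ g : G, g • v = v → f g = (1, (δ.prod ν) g) := by
      intro v hv hne g hg
      have := hf v hv g hg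
      rw [if_neg hne] at this
      exact this
    have hfc : f c = 1 := by
      rw [hf1 c (t.cfix v1), hclc]
      rfl
    have hker : ∀ g g' : G, (δ.prod ν) g = (δ.prod ν) g' → f g = f g' := by
      intro g g' h
      have h1 : (δ.prod ν) (g * g'⁻¹) = 1 := by
        rw [map_mul, map_inv, h, mul_inv_cancel]
      have h2 := qsplit_ker m c δ ν hC f hfc (g * g'⁻¹) (congrArg Prod.fst h1)
        (congrArg Prod.snd h1)
      rw [map_mul, map_inv, mul_inv_eq_one] at h2
      exact h2
    have hS2 : (⨆ v ∈ Y, ⨆ _ : v ≠ v1, (MulAction.stabilizer G v).map (δ.prod ν)) ≤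
        (MonoidHom.eqLocus f ((MonoidHom.inr (Multiplicative (ZMod m) × Multiplicative ℤ)
          (Multiplicative (ZMod m) × Multiplicative ℤ)).comp (δ.prod ν))).map (δ.prod ν) := by
      refine iSup₂_le (fun v hv => iSup_le (fun hne => ?_))
      refine Subgroup.map_mono ?_
      intro g hg
      exact hf2 v hv hne g hg
    rintro x ⟨hx1, hx2⟩
    obtain ⟨g, hg, hgx⟩ := Subgroup.mem_map.1 hx1
    obtain ⟨g', hg', hgx'⟩ := Subgroup.mem_map.1 (hS2 hx2)
    have h1 := hf1 g hg
    have h2 : f g' = (1, (δ.prod ν) g') := hg'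
    have h3 := hker g g' (hgx.trans hgx'.symm)
    rw [h1, h2] at h3
    have h4 : (δ.prod ν) g = 1 := congrArg Prod.fst h3
    rw [Subgroup.mem_bot, ← hgx, h4]

end Pool.Agent.CZ
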