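import Pool.Agent.Lib.MP_305fdd_al.CZ.D.Bridge
import Pool.Agent.Lib.MP_305fdd_al.CZ.D.p_CL
import Pool.Agent.Lib.MP_305fdd_al.CZ.D.p_EX
import Pool.Agent.Lib.MP_305fdd_al.CZ.D.p_FU
import Pool.Agent.Lib.MP_305fdd_al.CZ.D.p_R1
import Pool.Agent.Lib.MP_305fdd_al.CZ.D.p_TB
import Pool.Agent.Lib.MP_305fdd_al.CZ.D.p_TL
import Pool.Agent.Lib.MP_305fdd_al.CZ.D.p_TT
import Pool.Agent.Lib.MP_305fdd_al.CZ.D.p_aa
import Pool.Agent.Lib.MP_305fdd_al.CZ.D.p_ab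
import Pool.Agent.Lib.MP_305fdd_al.CZ.D.p_ac
import Pool.Agent.Lib.MP_305fdd_al.CZ.D.p_ae
import Pool.Agent.Lib.MP_305fdd_al.CZ.D.p_ag
import Pool.Agent.Lib.MP_305fdd_al.CZ.D.p_alt
import Pool.Agent.Lib.MP_305fdd_al.CZ.D.p_au
import Pool.Agent.Lib.MP_305fdd_al.CZ.D.p_ce
import Pool.Agent.Lib.MP_305fdd_al.CZ.D.p_cen
import Pool.Agent.Lib.MP_305fdd_al.CZ.D.p_cf
import Pool.Agent.Lib.MP_305fdd_al.CZ.D.p_cg
import Pool.Agent.Lib.MP_305fdd_al.CZ.D.p_cp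
import Pool.Agent.Lib.MP_305fdd_al.CZ.D.p_cyc
import Pool.Agent.Lib.MP_305fdd_al.CZ.D.p_gd
import Pool.Agent.Lib.MP_305fdd_al.CZ.D.p_iR
import Pool.Agent.Lib.MP_305fdd_al.CZ.D.p_io
import Pool.Agent.Lib.MP_305fdd_al.CZ.D.p_ow
import Pool.Agent.Lib.MP_305fdd_al.CZ.D.p_pot
import Pool.Agent.Lib.MP_305fdd_al.CZ.D.p_r1
import Pool.Agent.Lib.MP_305fdd_al.CZ.D.p_r2
import Pool.Agent.Lib.MP_305fdd_al.CZ.D.p_r3
import Pool.Agent.Lib.MP_305fdd_al.CZ.D.p_sub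
import Pool.Agent.Lib.MP_305fdd_al.CZ.D.p_t2v
import Pool.Agent.Lib.MP_305fdd_al.CZ.D.p_tq
import Pool.Agent.Lib.MP_305fdd_al.CZ.D.p_tw
import Pool.Agent.Lib.MP_305fdd_al.CZ.D.q_cf
import Pool.Agent.Lib.MP_305fdd_al.CZ.D.q_cnt
import Pool.Agent.Lib.MP_305fdd_al.CZ.D.q_dec
import Pool.Agent.Lib.MP_305fdd_al.CZ.D.q_fp
import Pool.Agent.Lib.MP_305fdd_al.CZ.D.q_hz
import Pool.Agent.Lib.MP_305fdd_al.CZ.D.q_split
import Pool.Agent.Lib.MP_305fdd_al.CZ.D.q_sub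
import Pool.Agent.Lib.MP_305fdd_al.CZ.D.q_tt

/-!
# MP_305fdd_al, `C_m * Z`, section D (trees): all statements without hypotheses

Namespace `Pool.Agent.CZD`: `m_xx : S_xx` for the statements of `StmH.lean`; namespace `Pool.Agent.CZ`:
`m_xx : S_xx` for the statements of `Stm.lean` which are used elsewhere.
-/

set_option autoImplicit false

namespace Pool.Agent.CZD

theorem m_gd : S_gd := p_gd
theorem m_cen : S_cen := p_cen p_cf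
theorem m_ow : S_ow := p_ow m_cen
theorem m_sub : S_sub := p_sub F2D.p_t1 F2D.p_t2
theorem m_pot : S_pot := p_pot F2D.p_t3
theorem m_FU : S_FU := p_FU p_alt m_pot p_ce
theorem m_cp : S_cp := p_cp F2D.p_t3
theorem m_cg : S_cg := p_cg m_pot m_cp
theorem m_CL : S_CL := p_CL m_sub p_alt p_ce m_cg
theorem m_TL : S_TL := p_TL m_FU p_tq
theorem m_TT : S_TT := p_TT m_sub p_t2v F2D.m_co F2D.m_mi F2D.m_le F2D.m_se F2D.p_mo
theorem m_TB : S_TB :=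
  p_TB m_TT p_cyc m_sub p_t2v F2D.m_bu F2D.m_se F2D.p_mo F2D.m_va F2D.m_vb F2D.m_vc
theorem m_aa : S_aa := p_aa p_ae F2D.p_ra
theorem m_ab : S_ab := p_ab p_ae F2D.p_ra
theorem m_io : S_io := p_io
theorem m_iR : S_iR := p_iR m_io
theorem m_ac : S_ac := p_ac m_aa
theorem m_r1 : S_r1 := p_r1 m_aa m_ac
theorem m_r2 : S_r2 := p_r2 m_r1 m_ac m_iR
theorem m_r3 : S_r3 := p_r3 m_ac m_aa
theorem m_R1 : S_R1 := p_R1 m_r2 m_r3 m_ac m_aa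
theorem m_tw : S_tw := p_tw m_aa m_ac m_r1 m_R1 m_iR
theorem m_au : S_au := p_au m_ab m_ac m_aa
theorem m_ag : S_ag := p_ag m_aa m_ac
theorem m_EX : S_EX := p_EX m_gd m_CL m_tw m_au m_ag F2D.m_co

end Pool.Agent.CZD

namespace Pool.Agent.CZ

theorem m_hz : S_hz := q_hz
theorem m_cf : S_cf := q_cf
theorem m_sub : S_sub := q_sub F2D.p_t1 F2D.p_t2
theorem m_fp : S_fp := q_fp F2D.p_fx F2D.m_ma
theorem m_tt : S_tt := q_tt m_fp m_sub F2D.m_co F2D.m_mi F2D.m_le F2D.m_se F2D.p_mo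
theorem m_cl : S_cl := CZD.cl_of CZD.m_CL m_hz CZD.m_cen
theorem m_tl : S_tl := CZD.tl_of CZD.m_TL m_hz CZD.m_cen
theorem m_dec : S_dec := q_dec CZD.m_FU m_hz CZD.m_cen q_split q_cnt
theorem m_dl : S_dl := CZD.dl_of CZD.m_gd
theorem m_rio : S_rio := CZD.rio_of CZD.m_io CZD.m_iR
theorem m_two : S_two := CZD.two_of CZD.m_tw
theorem m_ex : S_ex := CZD.ex_of CZD.m_EX CZD.m_ow

/-- THE TREE OF A FLAG -/
theorem m_tb : S_tb := by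
  intro G K Γ Γ' A _ _ _ _ _ _ _ _ _ _ T v V c χ hPC hIrr hv hV hDv hneg hvV hDV hcc hc2 _ hψ h2
  obtain ⟨W, _, Z, ty, hT, hW⟩ := CZD.TB_gen CZD.m_TT CZD.m_sub CZD.p_t2v F2D.m_bu F2D.m_se
    F2D.p_mo F2D.m_va F2D.m_vb F2D.m_vc G K Γ Γ' A T v V χ hPC hIrr hv hV hDv hneg hvV hDV
    (fun L => by
      obtain ⟨⟨a, z, hz, rfl⟩, ha⟩ := IsCyclic.exists_generator (α := L.map χ)
      refine ⟨z, hz, fun l hl => ?_⟩
      obtain ⟨n, hn⟩ := Subgroup.mem_zpowers_iff.1 (ha ⟨χ l, l, hl, rfl⟩)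
      exact ⟨n, (congrArg Subtype.val hn).symm⟩) hψ h2
  obtain ⟨t, j, hj, hjs, -⟩ := m_cf G W Z ty hT hT.tree.connected.nonempty c hcc hc2
  refine ⟨t, ?_⟩
  rintro l ⟨a, ha⟩
  exact hW l (j a) (by rw [← hjs, ha])

end Pool.Agent.CZ
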