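import Pool.Agent.Lib.MP_305fdd_al.CZ.D.StmH
import Pool.Agent.Lib.MP_305fdd_al.CZ.D.Defs

/-!
# MP_305fdd_al (`C_m * Z`), section D: trees. Statements with proofs [CZD ..]

Every `def S_xx : Prop` is one independent piece; its docstring contains the complete proof.
The other statements, and the statements `F2D.S_..` of `F2/D/StmT`, `F2/D/StmB` (all of them are proved: `F2/D/p_..`),
may be taken as hypotheses.
-/

set_option autoImplicit false

namespace Pool.Agent.CZ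

open Pool.Agent.PSL2Z (TreeAct Gw)
open Pool.Agent.PSL2Z.BT (Vert mkV tree)
open Pool.Agent.CC (Fund)
open Pool.Agent.F2 (PC)
open Pool.Agent.F2Ch (IsV Gt)
open Pool.Agent.F2D (Acts Irr Disc Disc' EdgeElt)
open scoped WithZero

/-! ## Trees -/

/-- [CZD sub] (about 130 lines) Uses F2D.S_t1, F2D.S_t2. BARYCENTRIC SUBDIVISION.
Proof. `V' = {S : Set V // (∃ v, S = {v}) ∨ ∃ u v, X.Adj u v ∧ S = {u, v}}`, `X'.Adj S T` iff `S ⊂ T` or `T ⊂ S` (so one is a singleton `{u}` and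
the other an edge `{u, v}`), `g • S = (g • ·) '' S`, `ty S` = `S` is a singleton (decide).  Connected: `{u}`, `{u, v}`, `{v}` for `X.Adj u v`; `X` is connected.
Tree by t1.  Cut for `({u}, {u, v})`, `X.Adj u v`: let `S` be a cut of `X` for `(u, v)` (t2) and take `{T | ∃ x ∈ T, x ∈ S}`: if `T1, T2` are adjacent, `T1` does
not meet `S` and `T2` meets `S` then `T1 ⊂ T2`, `T1 = {a}`, `T2 = {a, b}`, `a ∉ S`, `b ∈ S`, so `a = u`, `b = v`.  Cut for `({u, v}, {u})`: the complement of this set (with the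
same argument).  The stabiliser of `{v}` is the stabiliser of `v`; `g • {u, v} = {u, v}` iff `g` fixes both or exchanges them (`u ≠ v`). An edge of `X'` is `{u}, {u, v}` (in one
of the two orders): if `g` fixes `{u}` and `{u, v}` then `g • u = u` and so `g • v = v`. -/
def S_sub : Prop :=
  ∀ (G V : Type) [Group G] [MulAction G V] (X : SimpleGraph V), X.IsTree → Acts G X →
    ∃ (V' : Type) (_ : MulAction G V') (X' : SimpleGraph V') (ty : V' → Bool), Nonempty V' ∧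
      TreeAct G V' X' ty ∧
      (∀ a : V', (∃ v : V, ∀ g : G, g • a = a ↔ g • v = v) ∨
        ∃ u v : V, X.Adj u v ∧
          ∀ g : G, g • a = a ↔ (g • u = u ∧ g • v = v) ∨ (g • u = v ∧ g • v = u)) ∧
      (∀ v : V, ∃ a : V', ∀ g : G, g • a = a ↔ g • v = v) ∧
      ∀ a b : V', X'.Adj a b → ∃ u v : V, X.Adj u v ∧
        ∀ g : G, (g • a = a ∧ g • b = b) ↔ (g • u = u ∧ g • v = v)

/-- [CZD cf] (about 130 lines) The fixed tree of a central involution.
Proof. (1) `c` fixes a vertex: let `v0` be a vertex, `p` the path from `v0` to `c • v0`.  Its length `d` is even (`ty` changes in every step, `ty (c • v0) = ty v0`).  `c • p` is a path from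
`c • v0` to `c • c • v0 = v0`, so it is the reverse of `p` (uniqueness of paths, `SimpleGraph.IsTree.existsUnique_path`), and
`c • p.getVert (d / 2) = p.getVert (d - d / 2) = p.getVert (d / 2)`.
(2) `V1 = {v | c • v = v}` is invariant (`c` is central) and connected: for `u, v ∈ V1` let `p` be the path from `u` to `v`; `c • p` is a path from `u` to `v`, so it is `p` and all
its vertices are fixed.  (3) `t.V = V1` with the induced graph, a tree (connected, `IsAcyclic.induce`), `j = Subtype.val`. -/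
def S_cf : Prop :=
  ∀ (G V : Type) [Group G] [MulAction G V] (X : SimpleGraph V) (ty : V → Bool),
    TreeAct G V X ty → Nonempty V → ∀ c : G, (∀ g, c * g = g * c) → c * c = 1 →
    ∃ (t : GTree G c) (j : t.V → V), Function.Injective j ∧
      (∀ (g : G) (v : t.V), j (g • v) = g • j v) ∧
      ∀ a b, t.X.Adj a b → X.Adj (j a) (j b)

/-- [CZD gt] (about 50 lines) Uses sub, cf.
Proof. Apply sub and then cf to `X'`. If `l` fixes a vertex of `t` then it fixes its image in `V'`: sub. The stabiliser of the edge `(a, b)` of `t` is the stabiliser of `(j a, j b)`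
(`j` is injective and equivariant). -/
def S_gt : Prop :=
  ∀ (G V : Type) [Group G] [MulAction G V] (X : SimpleGraph V), X.IsTree → Acts G X →
    ∀ c : G, (∀ g, c * g = g * c) → c * c = 1 →
    ∃ t : GTree G c,
      (∀ l, t.Ell l → (∃ v : V, l • v = v) ∨ ∃ u v : V, X.Adj u v ∧ l • u = v ∧ l • v = u) ∧
      ∀ S, t.Edg S → ∃ u v : V, X.Adj u v ∧ S = {l | l • u = u ∧ l • v = v}

/-- [CZD fp] (about 90 lines) Uses F2D.S_fx, F2D.S_ma. An element with integral trace fixes a vertex of the Bruhat-Tits tree.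
Proof. Consider the triples `(k, h, N)`, `k : Gw w`, `h : ℤ`, `N : ℕ`, with `Bd w (k⁻¹ * A * k) h N`.  They exist (`k = 1`, `h = 0`, `N` large); let `N` be minimal.  If `N = 0`: `k⁻¹ A k` fixes
`mkV w h 0` (fx), so `A` fixes `k • mkV w h 0`.  Let `N ≥ 1`.  By ma (replace `k` by `k * r`) we may assume that `B = k⁻¹ * A * k` has `w B10 < exp (N - h)`, `w B11 < exp N`.
`w (B00 + B11) ≤ 1 < exp N` (the trace of a conjugate), so `w B00, w B11 ≤ exp (N - 1)`.  If `w B01 < exp (N + h)` then `Bd w B h (N - 1)`: contradiction.  So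
`w B01 = exp (N + h)`, `B01 B10 = B00 B11 - 1` has value `≤ exp (2N - 2)`, so `w B10 ≤ exp (N - 2 - h)` and `Bd w B (h + 1) (N - 1)`: contradiction.  (`F2D.A2_trace`, `F2D.A2_det` in `F2/D/p_A2`.) -/
def S_fp : Prop :=
  ∀ (E : Type) [Field E] (w : Valuation E ℤᵐ⁰), Function.Surjective w → ∀ A : Gw w,
    A.val.val.det = 1 → w A.val.val.trace ≤ 1 → ∃ M : Vert w, A • M = M

/-- [CZD tt] (about 230 lines) Uses fp, sub and F2D: co, mi, le, se, mo. THE TREE OF A DIVISORIAL VALUATION.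
Proof. Copy the proof of `F2D.p_A2` (file `F2/D/p_A2.lean`) up to the construction of `W, Z, q` (the collapse of the edges which are not good) and `hval`: an element fixing a vertex of `Z`
has `0 ≤ v (T l)`.  (a) If `0 ≤ v (T l)` then `w (T l) ≤ 1`, so `ρ l` fixes a vertex `M` (fp) and `l` fixes `q M`.  (b) `c` acts trivially: `trace ((ρ c + 1) * ρ h) = T (c h) + T h = 0` for all `h`, so
`ρ c = -1` (`Model.span`), which fixes every `M : Vert w` (`M.1` is stable under `v ↦ -v`: `mem_smul`, `PSL2Z.BT.mem_S`), so `c` fixes `q M`.  (c) If `Z.Adj a b` then as in `p_A2` (last part) there is `g` (depending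
only on the edge: it comes from `Good u u'`) such that for every `l` fixing `a` and `b` there is `ψ` with `EdgeElt v T l g ψ`.
(d) Apply sub to `Z`: a tree `Z'` with types.  Stabilisers of vertices of `Z'`: stabilisers of vertices of `Z`, or `l` exchanges `u, v` or fixes both; if it exchanges them then `l * l` fixes
`u`, so `0 ≤ v (T (l * l))`, `T (l * l) = T l ^ 2 - 2` (`PC.rel l l`, `PC.one`), and `v (T l) < 0` would give `v (T l ^ 2 - 2) = 2 v (T l) < 0` (`0 ≤ v 2` or `2 = 0`).  The edge stabilisers are those of `Z`. -/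
def S_tt : Prop :=
  ∀ (G K Γ : Type) [Group G] [Field K] [AddCommGroup Γ] [LinearOrder Γ] [IsOrderedAddMonoid Γ]
    (T : G → K) (v : K → Γ) (c : G), PC T → Irr T → IsV v → Disc v → (∃ g0, v (T g0) < 0) →
    (∀ h, T (c * h) = - T h) →
    ∃ t : GTree G c, (∀ l, t.Ell l ↔ 0 ≤ v (T l)) ∧
      ∀ S, t.Edg S → ∃ g, ∀ l ∈ S, ∃ ψ, EdgeElt v T l g ψ

/-- [CZD tb] (about 150 lines) Uses tt, gt and F2D: bu, se, mo, va, vb, vc. THE TREE OF A FLAG.
Proof. If `V f = 0` for all `f ≠ 0` with `v f = 0` then `0 ≤ v f` implies `0 ≤ V f` and the tree of tt has the property.  Otherwise copy the proof of `F2D.p_A3` (file `F2/D/p_A3.lean`) up to `hbu`; the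
only change is the element `z` of the edge stabiliser `L`: `L.map χ` is a subgroup of the cyclic group `A`, so it is cyclic, generated by `χ z` with `z ∈ L`, and for `l ∈ L` with `χ l = χ z ^ n` the
element `l' = l * z ^ (-n) ∈ L` has `χ l' = 1`, `0 ≤ v (T l')`, `0 ≤ V (T l')` (it has a fixed point in `tree C`: `hfix`, `hint`), so `T (l' * h) = T h` for all `h` and `ρ l' = 1`.
The result of `hbu` is a tree `Z` with an action of `G` such that an element `g` fixing a vertex of `Z` has `0 ≤ V (T g)`.  Now gt: `t`; if `l` exchanges `u` and `v` then `l * l` fixes `u`, `0 ≤ V (T (l * l))`, `T (l * l) = T l ^ 2 - 2`, so `0 ≤ V (T l)`. -/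
def S_tb : Prop :=
  ∀ (G K Γ Γ' A : Type) [Group G] [Field K] [AddCommGroup Γ] [LinearOrder Γ]
    [IsOrderedAddMonoid Γ] [AddCommGroup Γ'] [LinearOrder Γ'] [IsOrderedAddMonoid Γ']
    [CommGroup A] [IsCyclic A] (T : G → K) (v : K → Γ) (V : K → Γ') (c : G) (χ : G →* A),
    PC T → Irr T → IsV v → IsV V → Disc v → (∃ g0, v (T g0) < 0) →
    (∀ f, f ≠ 0 → 0 < v f → 0 < V f) → Disc' v V →
    (∀ g, c * g = g * c) → c * c = 1 → (∀ h, T (c * h) = - T h) →
    (∀ l ψ, 0 ≤ v (T l) → ψ ≠ 0 → v ψ = 0 → Gt v 0 (ψ + ψ⁻¹ - T l) → V ψ = 0) →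
    (∀ l, 0 ≤ V (T l) → 0 ≤ v (T l) → χ l = 1 → ∀ h, T (l * h) = T h) →
    ∃ t : GTree G c, ∀ l, t.Ell l → 0 ≤ V (T l)

/-! ## Groups on trees -/

/-- [CZD hz] (about 60 lines) Homomorphisms to `ℤ`.
Proof. `f c = 1`: `(f c) ^ 2 = f (c * c) = 1` in a torsion free group.  If `ν g = 1` then `δ (g ^ m) = (δ g) ^ m = 1` (`ZMod m`), `ν (g ^ m) = 1`, so `g ^ m` or `c * g ^ m` is in the commutator subgroup, on which `f` is
trivial: `(f g) ^ m = 1`, `f g = 1`.  Let `δ t = 1`, `ν t = ofAdd 1`.  For `g` with `n = toAdd (ν g)`: `ν (g * t ^ (-n)) = 1`, so `f g = (f t) ^ n = (ν g) ^ a`, `a = toAdd (f t)`. -/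
def S_hz : Prop :=
  ∀ (m : ℕ) (G : Type) [Group G] (c : G) (δ : G →* Multiplicative (ZMod m))
    (ν : G →* Multiplicative ℤ), Cls m G c δ ν → ∀ f : G →* Multiplicative ℤ, ∃ a : ℤ, ∀ g, f g = ν g ^ a

/-- [CZD coc] (about 60 lines) An invariant subtree with finitely many orbits.
Proof. `CC.exists_cocompact_tree` in `CC/Fund.lean` (copy the proof): `exists_cocompact` gives `V₁` with the given vertex `v₀ ∈ V₁`; `t'.V = V₁`, `j = Subtype.val`. -/
def S_coc : Prop :=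
  ∀ (G : Type) [Group G] [Group.FG G] (c : G) (t : GTree G c) (v₀ : t.V),
    ∃ (t' : GTree G c) (j : t'.V → t.V) (Y₀ : Finset t'.V), GTree.Map t' t j ∧
      (∃ v', j v' = v₀) ∧ ∀ v, ∃ y ∈ Y₀, ∃ g : G, g • y = v

/-- [CZD dich] (about 60 lines)
Proof. `CC.exists_fund` (first half): `exists_maximal` with `V₁ = Set.univ` gives `Y`.  If every edge `(u, v)` is a translate of an edge of `Y` (that is: `k • y = u`, `k • z = v`, `y, z ∈ Y`; then `t.X.Adj y z`, translate by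
`k⁻¹`) then `Fund`.  Otherwise let `(u, v)` be an edge which is not; `u = k • a`, `a ∈ Y`; the edge `(a, k⁻¹ • v)` is not a translate either, and `k⁻¹ • v = g • y2` with `y2 ∈ Y`. -/
def S_dich : Prop :=
  ∀ (G : Type) [Group G] (c : G) (t : GTree G c) (Y₀ : Finset t.V),
    (∀ v, ∃ y ∈ Y₀, ∃ g : G, g • y = v) →
    ∃ Y : Finset t.V, Y.Nonempty ∧ (t.X.induce (Y : Set t.V)).Connected ∧
      (∀ u ∈ Y, ∀ v ∈ Y, ∀ g : G, g • u = v → u = v) ∧ (∀ v, ∃ y ∈ Y, ∃ g : G, g • y = v) ∧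
      (Fund (Λ := G) t.X Y ∨ ∃ a ∈ Y, ∃ y2 ∈ Y, ∃ g : G, t.X.Adj a (g • y2) ∧
        ¬ ∃ y ∈ Y, ∃ z ∈ Y, ∃ k : G, k • y = a ∧ k • z = g • y2)

/-- [CZD hnn] (about 180 lines) Uses F2D.S_t3. HNN EXTENSIONS: `Y` is a connected transversal of the vertices, `(a, g • y2)` an edge which is not a translate of an edge of `Y`.
Proof. Let `b = g • y2`.  Define `κ u v : W` for adjacent `u, v`: if `k • a = u`, `k • b = v` for some `k` then `κ u v = θ k * y * (θ k)⁻¹` (independent of `k`: two such `k` differ by an element fixing `a` and `b`, whose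
`θ` commutes with `y`); if `k • a = v`, `k • b = u` then `κ u v = (θ k * y * (θ k)⁻¹)⁻¹`; otherwise `1`.  The two cases exclude each other, because `ty` is invariant and different on adjacent vertices.  So `κ v u = (κ u v)⁻¹`
and `κ (h • u) (h • v) = θ h * κ u v * (θ h)⁻¹`.  Let `P` be a potential (t3), `P v = P u * κ u v`.  `κ u v = 1` for adjacent `u, v ∈ Y` (otherwise `(a, b)` would be a translate of `(u, v)` or `(v, u)`), so `P` is
constant on `Y`; multiply `P` from the left by a constant: `P = 1` on `Y`.  For `h : G`, `R v = P (h • v) * θ h * (P v)⁻¹` has the same value on adjacent vertices, so it is constant; `f h` = this value;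
`f (h * h') = f h * f h'` (evaluate `f h` at `h' • v`).  `f h = θ h` if `h • v = v`, `v ∈ Y`.  `f g = P (g • y2) * θ g * (P y2)⁻¹ = P a * κ a b * θ g = y * θ g`.
Generation: let `M = {k | f k = θ k}`, `H = closure (M ∪ {g})`.  Claim: every vertex is `h • v` with `h ∈ H`, `v ∈ Y`: induction along a walk from a vertex of `Y`.  Let `v' ` be adjacent to `h • v`, `v'' = h⁻¹ • v'`, adjacent to `v`.
(1) If `κ v v'' = 1`-case (not a translate of `(a, b)` or `(b, a)`): `v'' = k • w`, `w ∈ Y`, `f k = P (k • w) * θ k = θ k`, since `P v'' = P v = 1`: `k ∈ M`, `v' = (h * k) • w`.  (2) `v = k • a`, `v'' = k • b`: `v = a`, `k` fixes `a`, so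
`k ∈ M`, `v'' = (k * g) • y2`.  (3) `v = k • b = (k * g) • y2`, `v'' = k • a`: `v = y2`, `k * g` fixes `y2`: `k * g ∈ M`, `v'' = (k * g) * g⁻¹ • a`.  Now for `x : G` and `v0 ∈ Y`: `x • v0 = h • w`, `w = v0`, `h⁻¹ * x` fixes `v0`, so it is
in `M`. -/
def S_hnn : Prop :=
  ∀ (G : Type) [Group G] (c : G) (t : GTree G c) (Y : Finset t.V),
    (t.X.induce (Y : Set t.V)).Connected → (∀ u ∈ Y, ∀ v ∈ Y, ∀ g : G, g • u = v → u = v) →
    (∀ v, ∃ y ∈ Y, ∃ g : G, g • y = v) → ∀ a ∈ Y, ∀ y2 ∈ Y, ∀ g : G, t.X.Adj a (g • y2) →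
    (¬ ∃ y ∈ Y, ∃ z ∈ Y, ∃ k : G, k • y = a ∧ k • z = g • y2) →
    ∀ (W : Type) [Group W] (θ : G →* W) (y : W),
    (∀ k : G, k • a = a → k • (g • y2) = g • y2 → Commute (θ k) y) →
    ∃ f : G →* W, (∀ v ∈ Y, ∀ k : G, k • v = v → f k = θ k) ∧ f g = y * θ g ∧
      Subgroup.closure ({k : G | f k = θ k} ∪ {g}) = ⊤

/-- [CZD cl] (about 110 lines) Uses hz, coc, dich, hnn. FIRST CRITERION.
Proof. coc, dich (the stabilisers of `t'` are stabilisers of `t`: `j`).  If `Fund`: `G` is generated by the stabilisers of the vertices in `Y` (`CC.Fund.iSup_stab`), `ν = 1` on them, so `ν = 1`, against `Cls.surj`.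
Otherwise hnn with `W = Coprod C_m ℤ`, `θ = inl ∘ δ`, `y = inr (ofAdd 1)` (`θ k = 1` for the elements of the edge stabiliser): `f`.  Let `e : W →* Multiplicative ℤ` be the lift of `(1, id)` and `N = e ∘ f`.  By hz `N h = (ν h) ^ a` for all `h`;
`N g = e (y * θ g) = ofAdd 1`, so `a = 1` or `a = -1`.  `N = 1` on `M = {k | f k = θ k}`.  The set of all `h` such that there are `k ∈ M` and `i : ℤ` with `δ h = δ k * (δ g) ^ i`, `N h = ofAdd i` is a subgroup which
contains `M` and `g`, so it is `G`.  For `x : C_m` there is `h` with `δ h = x`, `ν h = 1`, so `N h = 1`, `i = 0`, `x = δ k`, `k ∈ M`, `f k = inl x`.  And `y = f g * (θ g)⁻¹` is in the range of `f`: `f` is surjective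
(`Monoid.Coprod` is generated by the images of `inl`, `inr`).  `f c = θ c = 1`: `c` fixes the vertices of `Y` (`Y.Nonempty`), `δ c = 1`. -/
def S_cl : Prop :=
  ∀ (m : ℕ) (G : Type) [Group G] (c : G) (δ : G →* Multiplicative (ZMod m))
    (ν : G →* Multiplicative ℤ), Cls m G c δ ν → ∀ t : GTree G c,
    (∀ l, t.Ell l → ν l = 1) → (∀ S, t.Edg S → ∀ l ∈ S, δ l = 1) → Onto m G c

/-- [CZD fu] (about 60 lines) Uses hz, coc, dich, hnn. The fundamental tree.
Proof. `l • v₀ = v₀`; coc with `v₀`: `t'`, `j v' = v₀`, so `l • v' = v'` (`j` injective).  dich.  If `Fund`: done.  Otherwise hnn with `W = Multiplicative ℤ`, `θ = 1`, `y = ofAdd 1`: `f` with `f g = ofAdd 1` and `f = 1` on the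
stabilisers of the vertices of `Y`, so on all vertex stabilisers (conjugates; the target is commutative): `f l = 1`.  By hz `f l = (ν l) ^ a`, so `a = 0` and `f = 1`: contradiction. -/
def S_fu : Prop :=
  ∀ (m : ℕ) (G : Type) [Group G] (c : G) (δ : G →* Multiplicative (ZMod m))
    (ν : G →* Multiplicative ℤ), Cls m G c δ ν → ∀ t : GTree G c, ∀ l, t.Ell l → ν l ≠ 1 →
    ∃ (t' : GTree G c) (j : t'.V → t.V) (Y : Finset t'.V), GTree.Map t' t j ∧
      Fund (Λ := G) t'.X Y ∧ t'.Ell l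

/-- [CZD tf] (about 90 lines) Torsion.
Proof. Suppose `x ∈ closure X`, `x.2 = 1`, `x.1 ≠ 1`; let `q` be a prime dividing `orderOf x.1`.  If all elements of `X` have second component `1` then (relation with `j = 0`, `i = 1`, `x = x'`) they are `1`, so `x = 1`.  Otherwise
choose `x0 ∈ X` with `n0 = toAdd x0.2 ≠ 0` and `q`-adic valuation `e` of `n0` minimal among these.  Claim: for every `y ∈ closure X` there are `w : ℕ`, not divisible by `q`, and `u : ℤ` with
`y ^ w = x0 ^ u`.  These `y` form a subgroup, so let `y ∈ X`, `n = toAdd y.2`; `q ^ e` divides `n` (also if `n = 0`); with `w' = n0 / q ^ e`, `u' = n / q ^ e` we have `n w' = n0 u'`, so the relation gives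
`y.1 ^ w' = x0.1 ^ u'` and `y ^ w' = x0 ^ u'`; `w = |w'|`, change signs.  For `x`: `x ^ w = x0 ^ u`, second components: `0 = n0 u`, `u = 0`, `x.1 ^ w = 1`: `q ∣ orderOf x.1 ∣ w`, contradiction. -/
def S_tf : Prop :=
  ∀ (A : Type) [CommGroup A] [Finite A] (X : Set (A × Multiplicative ℤ)),
    (∀ x ∈ X, ∀ x' ∈ X, ∀ i j : ℤ, x.2 ^ i = x'.2 ^ j → x.1 ^ i = x'.1 ^ j) →
    ∀ x ∈ Subgroup.closure X, x.2 = 1 → x.1 = 1

/-- [CZD tl] (about 150 lines) Uses fu, tf. SECOND CRITERION (tree lemma).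
Proof. fu: `t'`, `Y` (elements elliptic in `t'` are elliptic in `t`).  Let `G_v` be the stabiliser of `v ∈ Y`; `v` is of kind 1 if `ν ≠ 1` on `G_v`, otherwise of kind 2.  (a) If `v` is of kind 1, `l ∈ G_v`, `ν l = 1` then `δ l = 1`: let
`l1 ∈ G_v`, `ν l1 ≠ 1`; the relation for `l1` and `l1 * l` (`i = j = 1`).  (b) Let `X` be the set of all `(δ l, ν l)`, `l ∈ G_v`, `v ∈ Y` of kind 1.  It satisfies the hypothesis of tf (if `ν l = 1` then `δ l = 1` by (a); the cases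
where one of the second components is `1` are trivial because `ℤ` is torsion free).  (c) `G` is generated by the `G_v` (`CC.Fund.iSup_stab`); let `C1` be the subgroup of `C_m` generated by the `δ l`, `l ∈ G_v`, `v` of kind 2.  Every `(δ g, ν g)` is
a product of an element `x` of `closure X` and of `(c1, 1)`, `c1 ∈ C1` (these products form a subgroup).  For given `d : C_m` take `g` with `δ g = d`, `ν g = 1`: `x.2 = 1`, so `x.1 = 1`, `d = c1`: so `C1 = ⊤`.  And `ν` restricted to the kind 1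
stabilisers generates `ℤ`.  (d) `CC.exists_hom_ext` with `W = Coprod C_m ℤ`, `φ v = inr ∘ ν` for `v` of kind 1, `φ v = inl ∘ δ` for `v` of kind 2; on an edge between different kinds an element has `ν = 1` (kind 2) and so
`δ = 1` by (a): both values are `1`.  The range of `f` contains `inl C1 = inl C_m` and `inr` of a generating set of `ℤ`: surjective.  `f c = 1`: `c` fixes a vertex of `Y`, `δ c = 1`, `ν c = 1` (`c * c = 1`). -/
def S_tl : Prop :=
  ∀ (m : ℕ) (G : Type) [Group G] (c : G) (δ : G →* Multiplicative (ZMod m))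
    (ν : G →* Multiplicative ℤ), Cls m G c δ ν → ∀ t : GTree G c,
    (∃ l, t.Ell l ∧ ν l ≠ 1) →
    (∀ l l', t.Ell l → t.Ell l' → ν l ≠ 1 → ν l' ≠ 1 → ∀ i j : ℤ, ν l ^ i = ν l' ^ j →
      δ l ^ i = δ l' ^ j) → Onto m G c

/-- [CZD split] (about 110 lines) Edge stabilisers with trivial classes.
Proof. `G` is generated by the `G_v`, `v ∈ Y` (`CC.Fund.iSup_stab`) and `(δ, ν)` is surjective: `H1 ⊔ H' = ⊤`.  `CC.exists_hom_ext` with the commutative group `W = H × H`, `H = C_m × ℤ`, `φ v1 = (cl, 1)`, `φ v = (1, cl)` for `v ≠ v1`, `cl = (δ, ν)`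
(on edges `cl = 1`): `f`.  `f` is trivial on the commutator subgroup and `f c = 1` (`c` fixes `v1`, `cl c = 1`: `δ c = 1`, `ν c = 1` as `c * c = 1`), so `cl g = 1` implies `f g = 1` (`Cls.ker`), so `cl g = cl g'` implies `f g = f g'`.  For
`g ∈ G_{v1}`: `f g = (cl g, 1)`; for `g'` in the subgroup generated by the `G_v`, `v ≠ v1`: `f g' = (1, cl g')`.  So if `cl g = cl g'` then `cl g = 1`. -/
def S_split : Prop :=
  ∀ (m : ℕ) (G : Type) [Group G] (c : G) (δ : G →* Multiplicative (ZMod m))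
    (ν : G →* Multiplicative ℤ), Cls m G c δ ν → ∀ (t : GTree G c) (Y : Finset t.V),
    Fund (Λ := G) t.X Y → (∀ S, t.Edg S → ∀ l ∈ S, δ l = 1 ∧ ν l = 1) → ∀ v1 ∈ Y,
    (MulAction.stabilizer G v1).map (δ.prod ν) ⊔
        (⨆ v ∈ Y, ⨆ _ : v ≠ v1, (MulAction.stabilizer G v).map (δ.prod ν)) = ⊤ ∧
      (MulAction.stabilizer G v1).map (δ.prod ν) ⊓
        (⨆ v ∈ Y, ⨆ _ : v ≠ v1, (MulAction.stabilizer G v).map (δ.prod ν)) = ⊥

/-- [CZD cnt] (about 170 lines) THE COUNTING ARGUMENT.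
Proof. `Q = F ⋊ Fˣ`, the group of the affine maps `x ↦ w x + u` (for example `SemidirectProduct (Multiplicative F) Fˣ` with the multiplication action, or the structure of pairs `(u, w)`), finite, `π : Q →* Fˣ`, `Nat.card π.ker = Nat.card F = q`.
For `s r u : F` let `φ v1 g = (s * β g + r * (ν g : ℤ), 1)` and `φ v g = (u - θ g * u, θ g)` (the conjugate of `(0, θ g)` by the translation `u`) for `v ≠ v1`: homomorphisms `G →* Q`.  They agree (are `1`) on the stabilisers of edges of `Y`, so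
`CC.exists_hom_ext` gives `f = f_(s, r, u)`; `π ∘ f = θ` (on the `G_v`, which generate: `CC.Fund.iSup_stab`), `f c = 1` (`c` fixes `v1`; `β c = 0`, `ν c = 1` as `c * c = 1`).  `(s, r, u) ↦ f` is injective: `f g2 = (s * β g2, 1)` with `β g2 ≠ 0`
determines `s`, `f g1 = (s * β g1 + r, 1)` determines `r`, `f g3 = ((1 - θ g3) u, θ g3)`, `θ g3 ≠ 1`, determines `u`.  The set of all `f` is finite (`G` is finitely generated, `Q` finite), so
`q ^ 3 ≤ q ^ 2` by the hypothesis, but `q ≥ 2`. -/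
def S_cnt : Prop :=
  ∀ (m : ℕ) (G : Type) [Group G] (c : G) (δ : G →* Multiplicative (ZMod m))
    (ν : G →* Multiplicative ℤ), Cls m G c δ ν →
    (∀ (Q Q' : Type) [Group Q] [Finite Q] [Group Q'] (π : Q →* Q') (θ : G →* Q'),
      Nat.card {f : G →* Q // π.comp f = θ ∧ f c = 1} ≤ Nat.card π.ker ^ 2) →
    ∀ (t : GTree G c) (Y : Finset t.V), Fund (Λ := G) t.X Y → ∀ v1 ∈ Y,
    ∀ (F : Type) [Field F] [Finite F] (β : G →* Multiplicative F) (θ : G →* Fˣ),
    (∀ y ∈ Y, ∀ z ∈ Y, t.X.Adj y z → ∀ g : G, g • y = y → g • z = z →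
      β g = 1 ∧ θ g = 1 ∧ ν g = 1) →
    β c = 1 → (∀ g : G, g • v1 = v1 → θ g = 1) → ∀ g1 g2 g3 : G,
    g1 • v1 = v1 → ν g1 = Multiplicative.ofAdd 1 → g2 • v1 = v1 → ν g2 = 1 → β g2 ≠ 1 →
    ∀ v3 ∈ Y, v3 ≠ v1 → g3 • v3 = v3 → θ g3 ≠ 1 → False

/-- [CZD dec] (about 220 lines) Uses fu, split, cnt. THIRD CRITERION: edge stabilisers with trivial classes.
Proof. fu (apply it to an elliptic `l` with `ν l ≠ 1`): `t'`, `j`, `Y`; a conjugate of `l` fixes some `v1 ∈ Y`, so `ν ≠ 1` on `G_{v1}`.  Let `H = C_m × ℤ`, `H1, H'` as in split: `H1 ⊔ H' = ⊤`, `H1 ⊓ H' = ⊥`.  (a) `H' ⊆ C_m × 1`: let `(d1, n1) ∈ H1`, `n1 ≠ 0`, and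
`(d', n') ∈ H'`; `(d', n') ^ (m n1) = (1, m n1 n') = (d1, n1) ^ (m n')` is in the intersection, so `n' = 0`.  So the second projection of `H1` is onto.  Let `A' = {d | (d, 1) ∈ H'}`, `A1 = {d | (d, 1) ∈ H1}`: `A1 ⊓ A' = ⊥`, `A1 ⊔ A' = ⊤` (write `(d, 1) = h1 h'`; then `h1.2 = 1`).
(b) `A' = ⊤`: `CC.exists_hom_ext` with `W = Coprod C_m ℤ`, `φ v1 = inr ∘ ν`, `φ v = inl ∘ δ` for `v ≠ v1` (trivial on edge stabilisers): `f`; its range contains `inr ℤ` and `inl A'` (generated by the `δ l`, `l ∈ G_v`, `v ≠ v1`), so `f` is onto; `f c = 1`: `c` fixes `v1`, `ν c = 1`.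
(c) `A' = ⊥`: the second alternative with `ι = {v // v ∈ Y}`, the stabilisers; `H1 = ⊤`.
(d) Otherwise `b = |A'| > 1` and `a = |A1| > 1`, `a b = m`, coprime (a cyclic group has at most one subgroup of order `q` for every prime `q`).  Let `q` be a prime dividing `a`, `F` a finite field of characteristic `q` with an element `ζ` of order `b` in `Fˣ`
(`GaloisField q (Nat.totient b)`: `q ^ (totient b) ≡ 1` modulo `b`, `Fˣ` is cyclic).  `θ : G →* Fˣ`: compose `cl`, the projection `H → H'` along `H1`, `A'` cyclic of order `b`, `A' ≃ zpowers ζ`: `θ = 1` on `G_{v1}`, and for `l ∈ G_v`, `v ≠ v1`: `θ l = 1` iff `δ l = 1`.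
`β : G →* Multiplicative F`: `δ`, then `ZMod m → ZMod q → F` (`q ∣ m`).  `β c = 1`.  There is `g1 ∈ G_{v1}` with `ν g1 = ofAdd 1`.  There is `g2 ∈ G_{v1}` with `ν g2 = 1`, `β g2 ≠ 1`: the map `C_m → ZMod q` is trivial on `A'` (`q ∤ b = |A'|`) and onto, so it is nontrivial
on `A1` (`A1 ⊔ A' = ⊤`).  There are `v3 ≠ v1` and `g3 ∈ G_{v3}` with `δ g3 ≠ 1` (`A' ≠ ⊥`), so `θ g3 ≠ 1`.  cnt: contradiction. -/
def S_dec : Prop :=
  ∀ (m : ℕ) (G : Type) [Group G] (c : G) (δ : G →* Multiplicative (ZMod m))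
    (ν : G →* Multiplicative ℤ), Cls m G c δ ν →
    (∀ (Q Q' : Type) [Group Q] [Finite Q] [Group Q'] (π : Q →* Q') (θ : G →* Q'),
      Nat.card {f : G →* Q // π.comp f = θ ∧ f c = 1} ≤ Nat.card π.ker ^ 2) →
    ∀ t : GTree G c, (∀ S, t.Edg S → ∀ l ∈ S, δ l = 1 ∧ ν l = 1) →
    (∃ l, t.Ell l ∧ ν l ≠ 1) →
    Onto m G c ∨ ∃ (ι : Type) (H : ι → Subgroup G) (i0 : ι), (⨆ i, H i) = ⊤ ∧
      (∀ i, ∀ l ∈ H i, t.Ell l) ∧ (∀ i, i ≠ i0 → ∀ l ∈ H i, δ l = 1 ∧ ν l = 1) ∧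
      ∀ x n, ∃ g ∈ H i0, δ g = x ∧ ν g = n

/-! ## Exact trees -/

section

variable {p m : ℕ} [Fact p.Prime] {k K G : Type} [Field k] [CharP k p] [IsAlgClosed k]
  [Field K] [Algebra k K] [Group G]

/-- property (U) -/
def Core.U (C : Core p m k K G) : Prop :=
  ∀ (g : G) (u u' : K), u ∈ C.B → u' ∈ C.B → u * u' = 1 → C.T g = u + u' → C.ν g = 1

end

/-- [CZD dl] (about 110 lines) The class `δ`.
Proof. `p ∤ 2 m` (`hpm`), `k` is algebraically closed: `rootsOfUnity m k` is cyclic of order `m`, so it is isomorphic to `Multiplicative (ZMod m)` (`zmodCyclicMulEquiv` or `mulEquivOfCyclicCardEq`).  `δ g` = image of `(χ g) ^ 2` (`χ_pow`), so `δ g = 1` iff `(χ g) ^ 2 = 1`.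
surj: for `z ∈ rootsOfUnity m` let `w ^ 2 = z`; `w ^ (2 m) = 1`, `C.surj`.  ker: `(χ g) ^ 2 = 1` implies `χ g = 1` or `χ g = -1`; in the second case `χ (c * g) = 1` (`χ_c`), `ν (c * g) = 1` (`ν_c`); `C.ker`.  The other fields are in `Core` (`c_δ`: `χ_c`). -/
def S_dl : Prop :=
  ∀ (p m : ℕ) [Fact p.Prime] (k K G : Type) [Field k] [CharP k p] [IsAlgClosed k]
    [Field K] [Algebra k K] [Group G] (C : Core p m k K G),
    ∃ δ : G →* Multiplicative (ZMod m), Cls m G C.c δ C.ν ∧ ∀ g, δ g = 1 ↔ C.χ g ^ 2 = 1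

/-- [CZD exa] (about 180 lines) Uses F2D.S_ra. THE ALGEBRA AT AN EXACT ELEMENT.
Proof. `𝒜, j, t` from ra (with `E = K`).  Let `z = χ l0`, `z' = z⁻¹` (as elements of `K`), `z ≠ z'`, `T l0 = z + z'` (`Ex`), `L = j l0`.  As in `F2D.p_rc`: `j g⁻¹ = T g • 1 - j g` (nd, span, `PC.rel`); so `L ^ 2 = T l0 • L - 1`.  `e = (z - z')⁻¹ • (L - z' • 1)`:
`e * e = e`, `t e = 1` (`t 1 = T 1 = 2`), `L = z • e + z' • (1 - e)`.  `a g = t (e * j g) = (z - z')⁻¹ * (T (l0 * g) - z' * T g)`: in `B`; restriction: with `x = χ g`, `n = ν g` and `ν l0 = 1`, `res (T (l0 g)) - z' res (T g) = z⁻¹ x⁻¹ s^n + z x s^(-n) - z⁻¹ (x⁻¹ s^n + x s^(-n)) =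
(z - z⁻¹) x s^(-n)`.  sum: `a g⁻¹ = t (e * (T g • 1 - j g)) = T g - a g`.  io: `ι z = z ^ p = z⁻¹` because `z ^ (p + 1) = 1` (`hpm`, `χ_pow`), `ι (T _) = T _`; so `ι (a g) = (z' - z)⁻¹ (T (l0 g) - z T g)`, and this is `T g - a g`.
FF: let `e' = 1 - e` (idempotent, `e e' = 0`, `t e' = 1`), for an idempotent `ε` with `t ε = 1`: `ε x ε = t (ε x) • ε` (`pch` for `ε x ε` and `ε`, see `F2D.p_rb`).  `F x y := a (x y) - a x a y = t (e x e' y)` (insert `1 = e + e'`), `F x x⁻¹ = 1 - a x a x⁻¹` (`a 1 = t e = 1`).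
`ι (F x y) = a (y⁻¹ x⁻¹) - a y⁻¹ a x⁻¹ = F y⁻¹ x⁻¹`.  `(e x e' y e) = F x y • e`, `(e y⁻¹ e' x⁻¹ e) = F y⁻¹ x⁻¹ • e`; their product is `e x e' (y e y⁻¹) e' x⁻¹ e`, `e' y e y⁻¹ e' = t (e' y e y⁻¹) • e' = F y⁻¹ y • e'`, so it is `F y⁻¹ y • (e x e' x⁻¹ e) = F y⁻¹ y * F x x⁻¹ • e`.  Take
traces; `F y⁻¹ y = 1 - a y⁻¹ a y`. -/
def S_exa : Prop :=
  ∀ (p m : ℕ) [Fact p.Prime] (k K G : Type) [Field k] [CharP k p] [IsAlgClosed k]
    [Field K] [Algebra k K] [Group G] (C : Core p m k K G) (l0 : G), C.Ex l0 → C.χ l0 ^ 2 ≠ 1 →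
    ∃ (𝒜 : Type) (_ : Ring 𝒜) (_ : Algebra K 𝒜) (j : G →* 𝒜) (t : 𝒜 →ₗ[K] K) (e : 𝒜),
      ExA C l0 j t e

/-- [CZD a3] (about 200 lines) Uses rio. An element with `ord_R Θ = 1`.
Proof. Let `a g = aa j t e g`, `Θ x = 1 - a x * a x⁻¹ ∈ B`, `res (Θ x) = 0` (`ExA.res`, with `res (a x) res (a x⁻¹) = 1`), so `Θ x = 0` or `R (Θ x) ≥ 1` (`R_pos`).  Suppose that no `x` has `R (Θ x) = 1`: all `Θ x` are `0` or have `R ≥ 2`.
`R (ι f) = R f` (rio).  By `FF`: `F x y := a (x y) - a x a y` is `0` or `2 R (F x y) ≥ 4`, so `R (F x y) ≥ 2`.  `J = {b ∈ B | b = 0 ∨ 2 ≤ R b}` is an ideal of `B`, contained in `ker res`.  In `B / J` (as a `k`-algebra) `a` is a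
multiplicative map, `a 1 = 1`, so a homomorphism `ā : G →* (B / J)ˣ` into an abelian group; it kills the commutator subgroup.  If `ν l = 1`: `l ^ (2 m)` has `χ = 1`, `ν = 1`, so `ā (l) ^ (2 m) = 1` (`C.ker`); `res (a l) = χ l`, so `a l = χ l + i`, `i ∈ ker res`, `i ^ 2 ∈ J`; so with
`ε = (χ l)⁻¹ i`: `(1 + ε) ^ (2 m) = 1 + 2 m ε = 1` in `B / J` (`χ l ^ (2 m) = 1`), `2 m` is invertible in `k` (`hpm`), so `ε = 0`: `ā l = χ l`.  Choose `s0 ∈ G` with `χ s0 = 1`, `ν s0 = ofAdd 1`, `σ = ā (s0⁻¹)`.  For all `g` with `n = ν g`: `ν (g * s0 ^ (-n)) = 1`, so `ā g = χ g * σ ^ (-n)`, and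
`T g = a g + a g⁻¹ = χ g σ ^ (-n) + (χ g)⁻¹ σ ^ n` in `B / J`.  Let `ψ : Ls k →ₐ[k] B / J`, `s ↦ σ` (`AddMonoidAlgebra.lift`); its range contains the classes of all `T g`, so (`adj`) it is surjective.  Let `q : B / J → Ls k` be induced by `res`; `q ∘ ψ = id` (`q σ = res (a s0⁻¹) = s`).  So
`ψ` is bijective and `q` is injective: `ker res = J`.  But `κ0 ∈ ker res`, `R κ0 = 1`: contradiction. -/
def S_a3 : Prop :=
  ∀ (p m : ℕ) [Fact p.Prime] (k K G : Type) [Field k] [CharP k p] [IsAlgClosed k]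
    [Field K] [Algebra k K] [Group G] (C : Core p m k K G) (l0 : G) (𝒜 : Type) [Ring 𝒜]
    [Algebra K 𝒜] (j : G →* 𝒜) (t : 𝒜 →ₗ[K] K) (e : 𝒜), ExA C l0 j t e →
    ∃ g0, C.R (1 - aa j t e g0 * aa j t e g0⁻¹) = 1

/-- [CZD rio] (about 130 lines) `ord_R` is invariant under `ι`.
Proof. `ι f ∈ B` for `f ∈ B`: the set of these `f` is a subring containing `k` (`ι_k`) and the `T g` (`ι_T`); use `adj` (`Algebra.adjoin_induction`).  `ι B = B`: the image of `B` is a subring which contains the `T g` and `k` (every element of `k` is a `p`-th power).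
`(res (ι f)) = σ (res f)` for `f ∈ B`, `σ (∑ c_n s ^ n) = ∑ c_n ^ p s ^ (-n)` (a ring endomorphism of `Ls k`): both sides are ring homomorphisms of `f`, equal on `k` and on the `T g`, because `(χ g) ^ p = (χ g)⁻¹` (`χ g ^ (p + 1) = 1`: `χ_pow`, `hpm`).  So `res (ι f) = 0` iff `res f = 0`.
`R b = 0` if `b ∈ B`, `res b ≠ 0` (`R_nn`, `R_pos`).  Let `r = R (ι κ0)`; `r ≥ 1` (`R_pos`, `ι κ0 ≠ 0`).  For `f ≠ 0` let `f * b = κ0 ^ n * a` (`hord`); `R f = n`; `ι f * ι b = (ι κ0) ^ n * ι a`, so `R (ι f) = n * r` (`R_inz`: `R` is a valuation).  `κ0 = ι f` for some `f`, so `1 = n * r` and `r = 1`. -/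
def S_rio : Prop :=
  ∀ (p m : ℕ) [Fact p.Prime] (k K G : Type) [Field k] [CharP k p] [IsAlgClosed k]
    [Field K] [Algebra k K] [Group G] (C : Core p m k K G), (∀ f ∈ C.B, C.ι f ∈ C.B) ∧
    (∀ f ∈ C.B, ∃ g ∈ C.B, C.ι g = f) ∧
    (∀ (f : K) (h : f ∈ C.B) (h' : C.ι f ∈ C.B) (n : ℤ), (C.res ⟨C.ι f, h'⟩).coeff (-n) =
      ((C.res ⟨f, h⟩).coeff n) ^ p) ∧ ∀ f, C.R (C.ι f) = C.R f

/-- [CZD two] (about 120 lines) Uses exa, a3, rio. An element with trace `2` is trivial.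
Proof. exa for `l0`; `a g = aa j t e g`, `Θ x = 1 - a x a x⁻¹`, `F x y = a (x y) - a x a y`; `g0` from a3.  Let `T l = 2`, `α = a l - 1`; `a l⁻¹ = 2 - a l = 1 - α`; `Θ l = 1 - (1 + α) (1 - α) = α ^ 2`.  By FF with `x = l`, `y = g0⁻¹`: `F ι F = α ^ 2 * Θ g0` (the right factor is symmetric under `y ↦ y⁻¹`).  If
`α ≠ 0` the right side is nonzero with value `2 R α + 1`, the left side has value `2 R F` (rio): contradiction.  So `α = 0`: `a l = a l⁻¹ = 1`, `Θ l = 0`, and by FF `F l h = 0`, `F h l = 0`, `F l⁻¹ h = 0`, `F h l⁻¹ = 0` for all `h` (`ι` is injective).  So `a (l h) = a h`, `a (h⁻¹ l⁻¹) = a h⁻¹` and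
`T (l h) = a (l h) + a (h⁻¹ l⁻¹) = T h`. -/
def S_two : Prop :=
  ∀ (p m : ℕ) [Fact p.Prime] (k K G : Type) [Field k] [CharP k p] [IsAlgClosed k]
    [Field K] [Algebra k K] [Group G] (C : Core p m k K G) (l0 : G), C.Ex l0 → C.χ l0 ^ 2 ≠ 1 →
    ∀ l, C.T l = 2 → ∀ h, C.T (l * h) = C.T h

/-- [CZD cen] (about 200 lines) Uses exa, two.
Proof. If `g • v = v` then `Ex g` gives `ν g = 1`.  Otherwise the chain has a first step `D v u`, so there is `l0` fixing `v` with `(χ l0) ^ 2 ≠ 1`, and `Ex l0`.  exa for `l0`: `𝒜, j, t, e`; write `x` for `j x`, `z = χ l0`, `e' = 1 - e`.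
(i) If `x, y` fix the same vertex then `j x, j y` commute: `r = x y x⁻¹ y⁻¹` fixes it, is exact with `χ r = 1`, `T r = 2`, so `T (r h) = T h` for all `h` (two), so `j r = 1` (`PAlg.nd`, `span`), `j (x y) = j (r y x) = j (y x)`.
(ii) Let `l` fix a vertex `v'`, `(χ l) ^ 2 ≠ 1`, and suppose `j l` commutes with `e`.  Then `j l = α • e + β • e'`, `α = t (e l)`, `β = t (e' l)` (`e l e = t (e l) • e`, see exa), and `j l ^ 2 = T l • j l - 1` gives `α ^ 2 = T l α - 1`, the same for `β` (`e, e' ≠ 0` as `t e = t e' = 1`); with `ζ = χ l`,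
`T l = ζ + ζ⁻¹` (`Ex l`), so `α, β ∈ {ζ, ζ⁻¹}`, `α + β = t (j l) = ζ + ζ⁻¹`, so `α ≠ β` (otherwise `ζ = ζ⁻¹`), `e = (α - β)⁻¹ • (j l - β • 1)`: everything that commutes with `j l` commutes with `e`; so by (i) all elements fixing `v'` commute with `e`.
(iii) By induction along the chain from `v` to `y`: all elements fixing `y` commute with `e`.  Start: `l0` fixes `v` and commutes with `e` (`ExA.l0`): (ii).  Step `D y y'`: some `l` fixes `y, y'` with `(χ l) ^ 2 ≠ 1`; it commutes with `e`; (ii) for `v' = y'`.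
So `l1 = g * l0 * g⁻¹`, which fixes `g • v`, commutes with `e`.  As in (ii) (`T l1 = T l0`, `Ex l1`, `χ l1 = z`): `j l1 = α • e + β • e'`, `{α, β} = {z, z⁻¹}`, and `α = aa l1 ∈ B` is a constant with `res = χ l1 = z` (`ExA.res`, `ν l1 = 1`): `α = z` and `β = z⁻¹`.  So `j l1 = j l0`, `j g` commutes with
`j l0` and with `e`.  So `t (e g e' g⁻¹) = 0`, i.e. (insert `e + e'`) `1 - aa g * aa g⁻¹ = 0`; by `sum` and `mem` and (U): `ν g = 1`. -/
def S_cen : Prop :=
  ∀ (p m : ℕ) [Fact p.Prime] (k K G : Type) [Field k] [CharP k p] [IsAlgClosed k]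
    [Field K] [Algebra k K] [Group G] (C : Core p m k K G), C.U →
    ∀ (V : Type) [MulAction G V] (D : V → V → Prop), (∀ (v : V) (l : G), l • v = v → C.Ex l) →
    (∀ u v, D u v → ∃ l : G, l • u = u ∧ l • v = v ∧ C.χ l ^ 2 ≠ 1) →
    ∀ (v : V) (g : G), Relation.ReflTransGen D v (g • v) → C.ν g = 1

/-- [CZD ex] (about 90 lines) Uses cl, gt, cen and F2D.S_co. FOURTH CRITERION (exact trees).
Proof. Let `D u v` iff `t.X.Adj u v` and some `l` fixes `u` and `v` and has `(χ l) ^ 2 ≠ 1` (symmetric, invariant: conjugate).  co: `W, Z, q`.  If `g` fixes the vertex `q v` of `Z` then `ReflTransGen D v (g • v)` (`q (g • v) = q v`), so `ν g = 1` by cen.  If `Z.Adj a b` and `g` fixes `a, b` then it fixes `u, v` with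
`t.X.Adj u v`, `¬ D u v`, so `(χ g) ^ 2 = 1`, `δ g = 1`.  gt for `Z` (`C.c_comm`, `C.c_sq`): `t'`; an elliptic element `l` of `t'` fixes a vertex of `Z` or `l * l` does: `ν l = 1` (`ℤ` is torsion free).  cl. -/
def S_ex : Prop :=
  ∀ (p m : ℕ) [Fact p.Prime] (k K G : Type) [Field k] [CharP k p] [IsAlgClosed k]
    [Field K] [Algebra k K] [Group G] (C : Core p m k K G), C.U →
    ∀ δ : G →* Multiplicative (ZMod m), Cls m G C.c δ C.ν → (∀ g, δ g = 1 ↔ C.χ g ^ 2 = 1) →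
    ∀ t : GTree G C.c, (∀ l, t.Ell l → C.Ex l) → Onto m G C.c

end Pool.Agent.CZ
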