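import Pool.Agent.Lib.MP_305fdd_al.CZ.D.DefsH

/-!
# MP_305fdd_al, `C_m * Z`, section D (trees): pieces [CZD ..]

Every `def S_xx : Prop` is one independent piece; its docstring contains the complete proof.
The other statements (of this file, and `S_..` of `F2/D/StmT.lean`, `F2/D/StmB.lean`) may be taken as hypotheses.
File `CZ/D/p_xx.lean`, theorem `p_xx (h : S_yy) .. : S_xx`.

Notation.  `Orb G a b u v`: `(u, v)` is a translate of `(a, b)`; `NE G X a b u v`: `u, v` are adjacent and neither `(u, v)` nor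
`(v, u)` is a translate of `(a, b)`.  `Tr G X Y`: `Y` is a finite connected set of representatives of the vertices.
`WW m = C_m * Z`, `dd δ h = inl (δ h)`, `yy m = inr 1`.
-/

set_option autoImplicit false

namespace Pool.Agent.CZD

open Pool.Agent.F2 Pool.Agent.F2Ch Pool.Agent.F2D Pool.Agent.CZ Pool.Agent.CC
open Pool.Agent.PSL2Z (TreeAct)
open Pool.Agent.PSL2Z.BT
open scoped WithZero

/-! ## The group -/

/-- [CZD gd] (about 90 lines) The two characters.
Proof. `p ∤ 2 m` since `2 m ∣ p + 1`, so there is a primitive root `ξ : kˣ` of order `2 m` (`k` algebraically closed) and `ζ = ξ ^ 2` is primitive of order `m`.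
`χ g ^ 2` is in `Subgroup.zpowers ζ` (its `m`-th power is `1`; `IsPrimitiveRoot.zpowers_eq`), which is isomorphic to
`Multiplicative (ZMod m)` (`IsPrimitiveRoot.zmodEquivZPowers`): `δ g` is the preimage of `χ g ^ 2`.  `surj`: given `d ↔ ζ ^ j` and `n` use `C.surj (ξ ^ j)`.
`mul`: let `χ g1 = 1`, `ν g1 = ofAdd 1`, `f g1 = ofAdd a`.  For `g` with `ν g = ofAdd n` let `h = g * g1 ^ (-n)`: `ν h = 1` and `h ^ (2 m)` is in
`ker χ ∩ ker ν`, so in the commutator subgroup (`C.ker`), `f (h ^ (2 m)) = 1` (the target is commutative: `Abelianization.commutator_subset_ker`), so `f h = 1` (`ℤ` is torsion free) and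
`f g = f g1 ^ n = ofAdd (n a) = ν g ^ a`. -/
def S_gd : Prop :=
  ∀ (p m : ℕ) [Fact p.Prime] (k K G : Type) [Field k] [CharP k p] [IsAlgClosed k]
    [Field K] [Algebra k K] [Group G] (C : Core p m k K G),
    ∃ δ : G →* Multiplicative (ZMod m), GD m G δ C.ν ∧ ∀ g, δ g = 1 ↔ C.χ g ^ 2 = 1

/-- [CZD cf] (about 90 lines) The centre of a free group with at least two generators is trivial.
Proof. Let `w ≠ 1` commute with `x = of s`.  `H = Subgroup.closure {w, x}` is free (Nielsen-Schreier, `subgroupIsFreeOfIsFree`, see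
`F2/D/p_t4.lean`) and commutative, so it is isomorphic to `FreeGroup ι` with `ι` a subsingleton (two generators `of i ≠ of j` do not commute), hence cyclic: `x = u ^ a`,
`w = u ^ b`, so `w ^ a = x ^ b`, `a ≠ 0` since `x ≠ 1`.  The same for `y = of t`: `w ^ a' = y ^ b'`, `a' ≠ 0`.  So `x ^ (b a') = y ^ (b' a)`; the
homomorphism to `Multiplicative ℤ` with `of s ↦ ofAdd 1`, other generators to `1`, gives `b a' = 0`, `b = 0`, `w ^ a = 1`, and free groups are torsion free (`IsMulTorsionFree (FreeGroup α)` in Mathlib): `w = 1`. -/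
def S_cf : Prop :=
  ∀ (α : Type) (s t : α), s ≠ t → ∀ w : FreeGroup α, (∀ u, w * u = u * w) → w = 1

/-- [CZD cen] (about 100 lines) Uses cf. The centre of `C_m * Z` is trivial.
Proof. `A = Multiplicative (ZMod m)` acts on `F = FreeGroup A` by `θ d (of e) = of (d * e)` (`θ : A →* MulAut F`, `FreeGroup.freeGroupCongr (Equiv.mulLeft d)`).  Let `S = F ⋊[θ] A`,
`Φ : WW m →* S`, `inl d ↦ (1, d)`, `inr (ofAdd n) ↦ (of 1, 1) ^ n`, and `Ψ : S →* WW m` (`SemidirectProduct.lift`) with `of e ↦ inl e * yy * (inl e)⁻¹`, `d ↦ inl d`.  `Ψ ∘ Φ = id` and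
`Φ ∘ Ψ = id` (check on generators: `Φ (inl e * yy * (inl e)⁻¹) = (θ e (of 1), 1) = (of e, 1)`).  So `(w, d) = Φ z` is central in `S`: commuting with `(u, 1)` gives `w * θ d u = u * w` for all `u : F`.
For `u = of 1`: `w * of d * w⁻¹ = of 1`, so `d = 1` (map to the abelianisation, or to `Multiplicative ℤ` by `of e ↦ if e = 1 then ofAdd 1 else 1`).  So `w` is central in `F`, and `A` has two elements
(`2 ≤ m`): `w = 1` by cf.  So `Φ z = 1`, `z = 1`. -/
def S_cen : Prop :=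
  ∀ m : ℕ, 2 ≤ m → ∀ z : WW m, (∀ w, z * w = w * z) → z = 1

/-- [CZD ow] (about 15 lines) Uses cen.
Proof. `f C.c` commutes with all `f g`, so it is central; so `f C.c = 1`. -/
def S_ow : Prop :=
  ∀ (p m : ℕ) [Fact p.Prime] (k K G : Type) [Field k] [CharP k p] [IsAlgClosed k]
    [Field K] [Algebra k K] [Group G] (C : Core p m k K G), OntoW m G → Onto m G C.c

/-! ## Trees -/

/-- [CZD sub] (about 130 lines) Uses `F2D.S_t1`, `F2D.S_t2`. The barycentric subdivision.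
Proof. `W = V ⊕ X.edgeSet` (elements `e : Sym2 V` with `e ∈ X.edgeSet`), `Λ` acts on edges by `Sym2.map (g • ·)`.  `Z.Adj (inl v) (inr e) ↔ v ∈ e`, and symmetrically.
`ty (inl v) = true`, `ty (inr e) = false`.  Connected: adjacent `u, v` in `X` are joined through `inr s(u, v)`; every `inr s(u, v)` is adjacent to `inl u`.
Tree by t1: edge from `inl u` to `inr s(u, v)`: let `S` be a cut of `X` for `(u, v)` (t2: `u ∉ S`, `v ∈ S`); take `{inl x | x ∈ S} ∪ {inr s(a, b) | a ∈ S or b ∈ S}`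
(in formulas `∃ x ∈ e, x ∈ S`).  A crossing edge has an endpoint `inl a` outside and `inr e` inside (`a ∈ e`, `a ∉ S`, `b ∈ e`, `b ∈ S`, so `a, b` is a crossing edge of `X`, `a = u`, `b = v`), or an endpoint
`inr e` outside and `inl a` inside, `a ∈ e`, `a ∈ S`: impossible.  The edge from `inr s(u, v)` to `inl u`: the complement of this cut.
(1) `l • inl v = inl v`: `l * l` fixes `v`.  `l • inr s(u, v) = inr s(u, v)`: `l` fixes or exchanges `u` and `v`, so `l * l` fixes `u`.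
(2) an edge from `inl u` to `inr s(u, v)` (or reversed): if `l` fixes `u` and `s(u, v)` then it fixes `u` and `v`. -/
def S_sub : Prop :=
  ∀ (Λ V : Type) [Group Λ] [MulAction Λ V] (X : SimpleGraph V), X.IsTree → Acts Λ X →
    ∃ (W : Type) (_ : MulAction Λ W) (Z : SimpleGraph W) (ty : W → Bool), TreeAct Λ W Z ty ∧
      (∀ (l : Λ) (a : W), l • a = a → ∃ v : V, (l * l) • v = v) ∧
      ∀ a b, Z.Adj a b → ∃ u v, X.Adj u v ∧
        ∀ l : Λ, l • a = a → l • b = b → l • u = u ∧ l • v = v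

/-- [CZD alt] (about 50 lines) A cocompact subtree through a given vertex, and a finite connected set of representatives.
Proof. Like `CC.exists_cocompact_tree` and the first lines of `CC.exists_fund` (`CC/Fund.lean`): `exists_cocompact` (`PSL/Transversal.lean`) for `v₀` gives `Y₀, V₁ ∋ v₀`; `V' = V₁` with the
induced graph, `j = Subtype.val`; then `exists_maximal` (for the tree `V'`, with the set `Set.univ`). -/
def S_alt : Prop :=
  ∀ (G V : Type) [Group G] [MulAction G V] (X : SimpleGraph V) (ty : V → Bool), Group.FG G →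
    TreeAct G V X ty → ∀ v₀ : V,
    ∃ (V' : Type) (_ : MulAction G V') (X' : SimpleGraph V') (ty' : V' → Bool) (j : V' → V)
      (Y : Finset V'), TreeAct G V' X' ty' ∧ Sub (G := G) X X' j ∧ v₀ ∈ Set.range j ∧ Tr G X' Y

/-- [CZD pot] (about 80 lines) Uses `F2D.S_t3`. The signed number of edges in the orbit of `(a, b)`.
Proof. `c u v = ofAdd 1` if `Orb G a b u v`, `ofAdd (-1)` if `Orb G a b v u`, `1` otherwise (the first two cases exclude each other because of the types: `ty (h • a) = ty a ≠ ty b = ty (h' • b)`).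
So `c v u = (c u v)⁻¹` and `c (g • u) (g • v) = c u v`.  Let `F` be a potential (t3): `F v = F u * c u v` for adjacent `u, v`.  `F (g • v) / F v` is the same for adjacent `u, v`, so it does not depend
on `v` (connectedness); call it `η g`; `η (g * h) = F (g • h • v) / F (h • v) * (F (h • v) / F v) = η g * η h`. -/
def S_pot : Prop :=
  ∀ (G V : Type) [Group G] [MulAction G V] (X : SimpleGraph V) (ty : V → Bool),
    TreeAct G V X ty → ∀ a b, X.Adj a b →
    ∃ (F : V → Multiplicative ℤ) (η : G →* Multiplicative ℤ), (∀ g v, F (g • v) = η g * F v) ∧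
      F b = F a * Multiplicative.ofAdd 1 ∧ ∀ u v, NE G X a b u v → F u = F v

/-- [CZD ce] (about 60 lines) The potential is constant on `Y`, and what follows for an edge which is not a translate of an edge of `Y`.
Proof. Some edge `u, v` is not a translate of an edge of `Y` (`hne`); `u = h • a`, `a ∈ Y` (`cover`); `b = h⁻¹ • v`, `b = g • y` with `y ∈ Y`.  If `y1, y2 ∈ Y` are adjacent then `NE G X a b y1 y2`:
otherwise `(a, b)` is a translate of `(y1, y2)` or `(y2, y1)`, and so is `(u, v)`. -/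
def S_ce : Prop :=
  ∀ (G V : Type) [Group G] [MulAction G V] (X : SimpleGraph V) (ty : V → Bool) (Y : Finset V),
    TreeAct G V X ty → Tr G X Y → ¬ Fund (Λ := G) X Y →
    ∃ (a b y : V) (g : G), X.Adj a b ∧ a ∈ Y ∧ y ∈ Y ∧ b = g • y ∧
      ∀ y1 ∈ Y, ∀ y2 ∈ Y, X.Adj y1 y2 → NE G X a b y1 y2

/-- [CZD FU] (about 80 lines) Uses alt, pot, ce. FUNDAMENTAL TREES.
Proof. alt for `v₀ = v` gives `V', X', j, Y`.  If `Y` is not a fundamental tree take `a, b, y, g` from ce and `F, η` from pot.  `F` is constant on `Y` (`Y` is connected by edges in `NE`; induct on a walk in the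
induced graph).  `F b = η g * F y = η g * F a` and `F b = F a * ofAdd 1`, so `η g = ofAdd 1`.  `η = ν ^ α` (`GD.mul`).  `v = j v'`, `l` fixes `v'` (`j` is injective), so `F v' = F (l • v') = η l * F v'`,
`η l = 1`, `ν l ^ α = 1` with `ν l ≠ 1`, so `α = 0`, `η = 1`: contradiction.  The last claim: `v' = h • y'` with `y' ∈ Y`; `h⁻¹ * l * h` fixes `y'` and has the same `ν`. -/
def S_FU : Prop :=
  ∀ (m : ℕ) (G V : Type) [Group G] [MulAction G V] (δ : G →* Multiplicative (ZMod m))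
    (ν : G →* Multiplicative ℤ) (X : SimpleGraph V) (ty : V → Bool), GD m G δ ν →
    TreeAct G V X ty → ∀ (v : V) (l : G), l • v = v → ν l ≠ 1 →
    ∃ (V' : Type) (_ : MulAction G V') (X' : SimpleGraph V') (ty' : V' → Bool) (j : V' → V)
      (Y : Finset V'), TreeAct G V' X' ty' ∧ Fund (Λ := G) X' Y ∧ Sub (G := G) X X' j ∧
      ∃ y ∈ Y, ∃ l' : G, l' • y = y ∧ ν l' ≠ 1

/-- [CZD cp] (about 120 lines) Uses `F2D.S_t3`. The potential with values in `C_m * Z`.
Proof. `c u v = dd δ h * yy m * (dd δ h)⁻¹` if `h • a = u`, `h • b = v` (this does not depend on `h`: two choices differ by an element of the stabiliser of the edge, on which `δ = 1`);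
its inverse if `h • a = v`, `h • b = u`; `1` otherwise (the cases exclude each other because of the types).  `c v u = (c u v)⁻¹`, `c (h • u) (h • v) = dd δ h * c u v * (dd δ h)⁻¹`.
Let `P'` be a potential (t3) and `P v = (P' v₀)⁻¹ * P' v`: `P v = P u * c u v` for adjacent `u, v`, `P v₀ = 1`.  `f h := P (h • v) * dd δ h * (P v)⁻¹` does not depend on `v`: for adjacent `u, v`,
`P (h • v) = P (h • u) * dd δ h * c u v * (dd δ h)⁻¹`, `P v = P u * c u v`.  `f (h * h') = (P (h • h' • v) * dd δ h * (P (h' • v))⁻¹) * (P (h' • v) * dd δ h' * (P v)⁻¹) = f h * f h'`. -/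
def S_cp : Prop :=
  ∀ (m : ℕ) (G V : Type) [Group G] [MulAction G V] (δ : G →* Multiplicative (ZMod m))
    (X : SimpleGraph V) (ty : V → Bool), TreeAct G V X ty → ∀ a b, X.Adj a b →
    (∀ h : G, h • a = a → h • b = b → δ h = 1) → ∀ v₀ : V,
    ∃ (P : V → WW m) (f : G →* WW m), P v₀ = 1 ∧
      (∀ h v, P (h • v) = f h * P v * (dd δ h)⁻¹) ∧ P b = P a * yy m ∧
      ∀ u v, NE G X a b u v → P u = P v

/-- [CZD cg] (about 150 lines) Uses pot, cp. The homomorphism is onto.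
Proof. `F, η` from pot; `P, f` from cp with `v₀ = a`.  Both are constant on `Y` (connected by edges in `NE`): `P = 1` on `Y`.  As in FU `η g = ofAdd 1`, `η = ν ^ α`, so `ν g = ofAdd (±1)`.
`P b = yy m` and `P b = P (g • y) = f g * (dd δ g)⁻¹`, so `f g = yy m * dd δ g`.
Write `u ~ v` if they are joined by edges in `NE` (`Relation.ReflTransGen`; symmetric, invariant under `G`; `P` and `F` are constant on the classes; all elements of `Y` are equivalent).
`G0 = {h | h • a ~ a}` is a subgroup.  For `h ∈ G0`: `P (h • a) = 1`, so `f h = dd δ h`; `F (h • a) = F a`, so `η h = 1`, `ν h ^ α = 1`, `ν h = 1` (`α ≠ 0`).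
Let `L = closure (G0 ∪ {g})`.  `L = ⊤`: the set of all `v` with `v ~ k • a` for some `k ∈ L` is closed under adjacency.  Let `v ~ k • a` and `v, v'` adjacent.  If `NE G X a b v v'`: clear.
If `v = h • a`, `v' = h • b`: `h • a ~ k • a`, so `k⁻¹ * h ∈ G0`, `h ∈ L`, and `v' = h • g • y ~ (h * g) • a`.  If `v' = h • a`, `v = h • b = (h * g) • y ~ (h * g) • a`: `k⁻¹ * h * g ∈ G0`, so `h * g ∈ L`, `h ∈ L` and `v' = h • a`.
So for every `h`: `h • a ~ k • a` with `k ∈ L`, so `k⁻¹ * h ∈ G0`, `h ∈ L`.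
Given `d`, take `h` with `δ h = d`, `ν h = 1` (`GD.surj`).  The set of all `h` such that `δ h = δ h0 * δ g ^ i`, `ν h = ν g ^ i` for some `h0 ∈ G0`, `i : ℤ` is a subgroup containing `G0` and `g`, so it is `⊤`:
`ν g ^ i = 1` gives `i = 0`, so `d = δ h0`, `inl d = f h0` is in the range of `f`.  So all `dd δ h` are in the range, and `yy m = f g * (dd δ g)⁻¹` too: `f` is onto (`Monoid.Coprod.range_inl_sup_range_inr` or
`Monoid.Coprod.closure_range_inl_union_inr`; every element of the second factor is a power of `ofAdd 1`). -/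
def S_cg : Prop :=
  ∀ (m : ℕ) (G V : Type) [Group G] [MulAction G V] (δ : G →* Multiplicative (ZMod m))
    (ν : G →* Multiplicative ℤ) (X : SimpleGraph V) (ty : V → Bool) (Y : Finset V), GD m G δ ν →
    TreeAct G V X ty → Tr G X Y → ∀ (a b y : V) (g : G), X.Adj a b → a ∈ Y → y ∈ Y → b = g • y →
    (∀ y1 ∈ Y, ∀ y2 ∈ Y, X.Adj y1 y2 → NE G X a b y1 y2) →
    (∀ h : G, h • a = a → h • b = b → δ h = 1) → OntoW m G

/-- [CZD CL] (about 60 lines) Uses sub, alt, ce, cg.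
Proof. Take the subdivision (sub) `W, Z, ty`: an element `l` fixing a vertex has `ν (l * l) = 1`, so `ν l = 1`; elements of edge stabilisers have `δ = 1`.  alt (any vertex) gives `V', X', j, Y`; the same two properties
hold for `V'` (by `Sub`).  If `Y` is a fundamental tree then `G` is generated by the vertex stabilisers (`CC.Fund.iSup_stab`), so `ν = 1`, against `GD.surj`.  Otherwise ce and cg. -/
def S_CL : Prop :=
  ∀ (m : ℕ) (G V : Type) [Group G] [MulAction G V] (δ : G →* Multiplicative (ZMod m))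
    (ν : G →* Multiplicative ℤ) (X : SimpleGraph V), GD m G δ ν → X.IsTree → Acts G X →
    (∀ (v : V) (l : G), l • v = v → ν l = 1) →
    (∀ u v, X.Adj u v → ∀ l : G, l • u = u → l • v = v → δ l = 1) → OntoW m G

/-- [CZD tq] (about 100 lines) A torsion free subgroup.
Proof. `A' = {x ∈ A | x.1 ≠ 0}`, `R q x` iff for all `i j : ℤ`, `i * q.1 = j * x.1` implies `i • q = j • x`.  `R x y` holds for `x, y ∈ A'`: if `i * x.1 ≠ 0` then `i • x, j • y ∈ A` have the same first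
component; if it is `0` then `i = j = 0`.  Let `E = {q | 0 < q.1 ∧ ∀ x ∈ A', R q x}`: it contains an element of `A'` or its negative.  Choose `q ∈ E` with `q.1` minimal.  Let `z ∈ A'`.
Claim `q.1 ∣ z.1`.  Otherwise `g = gcd (q.1, z.1) < q.1`, `g = u * q.1 + v * z.1`, `q.1 = g * a`, `z.1 = g * c`, `u * a + v * c = 1`; `q' = u • q + v • z`, `q'.1 = g`.  By `R q z`: `c • q = a • z`; so `a • q' = (u * a) • q + (v * c) • q = q` and
`c • q' = z`.  Let `x ∈ A'`, `i * g = j * x.1`, `t = i • q' - j • x`.  `a • t = i • q - (a * j) • x = 0` by `R q x` (`i * q.1 = a * j * x.1`), `c • t = i • z - (c * j) • x = 0` by `R z x`; `t = (u * a + v * c) • t = 0`.  So `q' ∈ E`, against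
minimality.  So `z.1 = j * q.1`, and `R q z` with `i = j`: `j • q = z`. -/
def S_tq : Prop :=
  ∀ (C : Type) [AddCommGroup C] (A : Set (ℤ × C)), (∀ x ∈ A, ∀ j : ℤ, j • x ∈ A) →
    (∀ x ∈ A, ∀ y ∈ A, x.1 = y.1 → x.1 ≠ 0 → x = y) → (∃ x ∈ A, x.1 ≠ 0) →
    ∃ q : ℤ × C, 0 < q.1 ∧ ∀ x ∈ A, x.1 ≠ 0 → ∃ j : ℤ, x = j • q

/-- [CZD TL] (about 180 lines) Uses FU, tq. THE TREE LEMMA.
Proof. FU gives `V', X', ty', j, Y` and `y₀ ∈ Y`, `l₀` fixing `y₀`, `ν l₀ ≠ 1`.  Call `v ∈ Y` of kind 1 if some `l` fixing `v` has `ν l ≠ 1`, of kind 2 otherwise.  If `l` fixes a `v` of kind 1 and `ν l = 1` then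
`δ l = 1`: let `l1` fix `v`, `ν l1 ≠ 1`; `l1` and `l1 * l` fix `j v` and have the same `ν`, so `δ l1 = δ l1 * δ l`.
Let `W = WW m`, `φ v = inr ∘ ν` for `v` of kind 1, `φ v = inl ∘ δ` for `v` of kind 2.  For adjacent `y, z ∈ Y` and `l` fixing both, `φ y l = φ z l`: clear for equal kinds; for different kinds `ν l = 1` and `δ l = 1`.
`CC.exists_hom_ext`: `f : G →* W`, equal to `φ y` on the stabiliser of `y ∈ Y`.
Onto: (i) `G` is generated by the stabilisers of `y ∈ Y` (`CC.Fund.iSup_stab`) and `ν` is onto; the set of `h` with `inr (ν h) ∈ range f` is a subgroup which contains all stabilisers (kind 1: `f l = inr (ν l)`; kind 2: `ν l = 1`).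
(ii) tq for `A = {(toAdd (ν l), toAdd (δ l)) | l fixes some y ∈ Y}` gives `q = (e, d0)`, `0 < e`: every `l` fixing `y ∈ Y` with `ν l ≠ 1` has `ν l = ofAdd (e * i)`, `δ l = d0 ^ i` for some `i`.  Let `D2 = {d | inl d ∈ range f}`, a subgroup, which contains
`δ l` for `l` fixing `y` of kind 2.  The set of all `h` such that `ν h = ofAdd (e * i)`, `δ h = d0 ^ i * d2` for some `i : ℤ`, `d2 ∈ D2` is a subgroup which contains all stabilisers (kind 1 and `ν l = 1`: `δ l = 1`), so it is `⊤`.  Given `d` take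
`h` with `δ h = d`, `ν h = 1`: `e * i = 0`, `i = 0`, so `d ∈ D2`.  So both factors are in the range. -/
def S_TL : Prop :=
  ∀ (m : ℕ) (G V : Type) [Group G] [MulAction G V] (δ : G →* Multiplicative (ZMod m))
    (ν : G →* Multiplicative ℤ) (X : SimpleGraph V) (ty : V → Bool), GD m G δ ν →
    TreeAct G V X ty → (∃ (v : V) (l : G), l • v = v ∧ ν l ≠ 1) →
    (∀ (u v : V) (l l' : G), l • u = u → l' • v = v → ν l = ν l' → ν l ≠ 1 → δ l = δ l') →
    OntoW m G

/-! ## Trees of valuations -/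

/-- [CZD t2v] (about 25 lines) An element whose square is elliptic is elliptic.
Proof. `T (l * l) = T l ^ 2 - 2` (`PC.rel l l`, `PC.one`).  If `v (T l) < 0` then `T l ≠ 0`, `v (T l ^ 2) = 2 • v (T l) < 0`; `v 2 ≥ 0` (`v 1 = 0`, `IsV.add`; or `2 = 0`), so `v (T (l * l)) = 2 • v (T l) < 0`
(if `v a < v b` or `b = 0` then `v (a - b) = v a`), contradiction. -/
def S_t2v : Prop :=
  ∀ (Λ K Γ : Type) [Group Λ] [Field K] [AddCommGroup Γ] [LinearOrder Γ] [IsOrderedAddMonoid Γ]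
    (T : Λ → K) (v : K → Γ), PC T → IsV v → ∀ l, 0 ≤ v (T (l * l)) → 0 ≤ v (T l)

/-- [CZD TT] (about 160 lines) Uses sub, t2v, `F2D.S_co`, `F2D.S_mi`, `F2D.S_le`, `F2D.S_se`, `F2D.S_mo`. THE TREE OF A DIVISORIAL VALUATION.
Proof. This is the proof of `F2D.p_A2` (`F2/D/p_A2.lean`): take the model, `X = tree w`, `Good`, `D`, and the collapsed tree `Z` from co.  (1) is `hval` there.  (2) for adjacent `a, b` in `Z`: the last property of co gives adjacent `u, u'`,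
not `D`, so `Good u u'`, with `k, h, n, g`; every `l` fixing `a` and `b` fixes `u, u'`, and the last part of `p_A2` (with `z = l`) gives `ψ` with `EdgeElt v T l g ψ` (`g` does not depend on `l`).
Finally pass to the subdivision (sub): if `l` fixes a vertex then `l * l` fixes a vertex of `Z`, so `0 ≤ v (T (l * l))`, `0 ≤ v (T l)` (t2v). -/
def S_TT : Prop :=
  ∀ (Λ K Γ : Type) [Group Λ] [Field K] [AddCommGroup Γ] [LinearOrder Γ] [IsOrderedAddMonoid Γ]
    (T : Λ → K) (v : K → Γ), PC T → Irr T → IsV v → Disc v → (∃ g0, v (T g0) < 0) →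
    ∃ (W : Type) (_ : MulAction Λ W) (Z : SimpleGraph W) (ty : W → Bool), TreeAct Λ W Z ty ∧
      (∀ (l : Λ) (a : W), l • a = a → 0 ≤ v (T l)) ∧
      ∀ a b, Z.Adj a b → ∃ g : Λ, ∀ l : Λ, l • a = a → l • b = b → ∃ ψ : K, EdgeElt v T l g ψ

/-- [CZD cyc] (about 40 lines) Subgroups are cyclic modulo the kernel of a character of finite order.
Proof. `L.map χ` is contained in `rootsOfUnity N k`, which is finite and cyclic (`rootsOfUnity.isCyclic`, `k` is a field), so the subgroup `L.map χ` of `kˣ` is cyclic (finite subgroups of `kˣ` are cyclic: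
`subgroup_units_cyclic`). -/
def S_cyc : Prop :=
  ∀ (Λ k : Type) [Group Λ] [Field k] (χ : Λ →* kˣ) (N : ℕ), 0 < N → (∀ g, χ g ^ N = 1) →
    ∀ L : Subgroup Λ, ∃ z ∈ L, ∀ l ∈ L, ∃ n : ℤ, χ l = χ z ^ n

/-- [CZD TB] (about 220 lines) Uses TT, cyc, sub, t2v, `F2D.S_bu`, `F2D.S_se`, `F2D.S_mo`, `F2D.S_va`, `F2D.S_vb`, `F2D.S_vc`. THE BLOWN UP TREE.
Proof. Adapt `F2D.p_A3` (`F2/D/p_A3.lean`, its private lemmas can be imported): the classes `cl` are replaced by `χ`, `cy` by cyc, the hypothesis `hkill` by `h2`, and at the end he is not used: the tree `Z` of bu has all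
the properties (`hint` there), and one passes to the subdivision (sub, t2v for `V`).  In the first case (`V f = 0` for all `f ≠ 0` with `v f = 0`): `0 ≤ v f` implies `0 ≤ V f`, take the tree of TT.
Details for the edge stabiliser `L` of `N, N'`: cyc gives `z ∈ L` with `χ l = χ z ^ n` for `l ∈ L`; `l * z ^ (-n) ∈ L` has `χ = 1` and is elliptic for `v` and `V`, so `ρ (l * z ^ (-n)) = 1` (as in `hone`). -/
def S_TB : Prop :=
  ∀ (Λ K Γ Γ' k : Type) [Group Λ] [Field K] [AddCommGroup Γ] [LinearOrder Γ]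
    [IsOrderedAddMonoid Γ] [AddCommGroup Γ'] [LinearOrder Γ'] [IsOrderedAddMonoid Γ'] [Field k]
    (T : Λ → K) (v : K → Γ) (V : K → Γ') (χ : Λ →* kˣ) (N : ℕ),
    PC T → Irr T → IsV v → IsV V → Disc v → (∃ g0, v (T g0) < 0) →
    (∀ f, f ≠ 0 → 0 < v f → 0 < V f) → Disc' v V → 0 < N → (∀ g, χ g ^ N = 1) →
    (∀ l ψ, 0 ≤ v (T l) → ψ ≠ 0 → v ψ = 0 → Gt v 0 (ψ + ψ⁻¹ - T l) → V ψ = 0) →
    (∀ l, 0 ≤ V (T l) → 0 ≤ v (T l) → χ l = 1 → ∀ h, T (l * h) = T h) →
    ∃ (W : Type) (_ : MulAction Λ W) (Z : SimpleGraph W) (ty : W → Bool), TreeAct Λ W Z ty ∧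
      ∀ (l : Λ) (a : W), l • a = a → 0 ≤ V (T l)

/-! ## The algebra of `T` and the idempotent of an exact element -/

/-- [CZD ae] (about 80 lines) The idempotent.
Proof. (`PAlg T j t`: `𝒜` is the algebra of `T`.)  `j l * j l = T l • j l - 1` (as in `F2/D/p_rc.lean`: `t ((j l + j l⁻¹ - T l • 1) * b) = 0` for all `b`, so `j l + j l⁻¹ = T l • 1` by `nd`), so
`(j l - z • 1) * (j l - z⁻¹ • 1) = 0`.  `e = (z - z⁻¹)⁻¹ • (j l - z⁻¹ • 1)`: `(j l - z⁻¹) ^ 2 = (z - z⁻¹) • (j l - z⁻¹)`, so `e * e = e`; `t e = (T l - 2 z⁻¹) / (z - z⁻¹) = 1` (`t 1 = T 1 = 2`);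
`j l * e = z • e = e * j l`; `t (e * j g) = al T l z g` by definition.  `e * a * e = t (e * a) • e`: `pch` for `b = e * a * e` and `e` (compare `F2/D/p_rb.lean` (a)). -/
def S_ae : Prop :=
  ∀ (G K : Type) [Group G] [Field K] (T : G → K) (l : G) (z : K), PC T → z ≠ 0 → z ≠ z⁻¹ →
    T l = z + z⁻¹ → ∀ (𝒜 : Type) [Ring 𝒜] [Algebra K 𝒜] (j : G →* 𝒜) (t : 𝒜 →ₗ[K] K),
    PAlg T j t →
    ∃ e : 𝒜, e * e = e ∧ t e = 1 ∧ t (1 : 𝒜) = 2 ∧ j l * e = z • e ∧ e * j l = z • e ∧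
      j l = z • e + z⁻¹ • (1 - e) ∧
      (∀ g, t (e * j g) = al T l z g) ∧ (∀ g, j g + j g⁻¹ = T g • (1 : 𝒜)) ∧
      (∀ a, e * a * e = t (e * a) • e) ∧
      ∀ a, (1 - e) * a * (1 - e) = t ((1 - e) * a) • (1 - e)

/-- [CZD aa] (about 90 lines) Uses ae, `F2D.S_ra`. The function `a g = al T l z g = t (e g)`.
Proof. `𝒜, j, t` from ra, `e` from ae, `e' = 1 - e`.  `a 1 = t e = 1`; `j g⁻¹ = T g - j g`, so `a g⁻¹ = T g - a g`; `t (e l g) = z t (e g)`, `t (e g l) = t (l e g) = z t (e g)`.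
`Fe a g h = t (e g e' h)`: `t (e g h) = t (e g e h) + t (e g e' h)` and `e g e = t (e g) • e`.  `e' l = z⁻¹ e'`: `Fe a g (l x) = z⁻¹ Fe a g x`.
The product: `t (e x e' y) t (e x' e' y') = t (e x e' y e x' e' y')` (as `e (x e' y) e = t (..) • e`) and `e' (y e x') e' = t (e' y e x') • e'`, so this is `t (e' y e x') t (e x e' y') = Fe a x' y * Fe a x y'` (`t (e' y e x') = t (e x' e' y)`). -/
def S_aa : Prop :=
  ∀ (G K : Type) [Group G] [Field K] (T : G → K) (l : G) (z : K), PC T → z ≠ 0 → z ≠ z⁻¹ →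
    T l = z + z⁻¹ →
    al T l z 1 = 1 ∧ (∀ g, al T l z g + al T l z g⁻¹ = T g) ∧
    (∀ g, al T l z (l * g) = z * al T l z g) ∧ (∀ g, al T l z (g * l) = z * al T l z g) ∧
    (∀ g x, Fe (al T l z) g (l * x) = z⁻¹ * Fe (al T l z) g x) ∧
    ∀ x y x' y', Fe (al T l z) x y * Fe (al T l z) x' y' =
      Fe (al T l z) x' y * Fe (al T l z) x y'

/-- [CZD ab] (about 70 lines) Uses ae, `F2D.S_ra`. Elements commuting with `l`.
Proof. `𝒜, j, t` from ra, `e` from ae, `e' = 1 - e`, `a = al T l z`.  The hypothesis and `nd` give `j l * j l' = j l' * j l`; `e` is a linear combination of `j l` and `1`, so `e` commutes with `x' = j l'`.  So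
`x' = e x' e + e' x' e' = t (e x') • e + t (e' x') • e' = a l' • e + a l'⁻¹ • e'` (`t (e' x') = T l' - a l' = a l'⁻¹`, because `a g + a g⁻¹ = T g` from `j g⁻¹ = T g - j g`).  So `T (l' x) = t (x' * j x) = a l' * a x + a l'⁻¹ * (T x - a x)`.
The same for `l'⁻¹` (it commutes with `l` too): `j l'⁻¹ = a l'⁻¹ • e + a l' • e'`; the product with `j l'` is `1`: `(a l' * a l'⁻¹) • 1 = 1`, apply `t (e * ·)`. -/
def S_ab : Prop :=
  ∀ (G K : Type) [Group G] [Field K] (T : G → K) (l : G) (z : K), PC T → z ≠ 0 → z ≠ z⁻¹ →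
    T l = z + z⁻¹ → ∀ l' : G, (∀ h, T (l * l' * h) = T (l' * l * h)) →
    al T l z l' * al T l z l'⁻¹ = 1 ∧
    ∀ x, T (l' * x) = al T l z l' * al T l z x + al T l z l'⁻¹ * (T x - al T l z x)

/-- [CZD io] (about 100 lines) The symmetry on `B`.
Proof. `tw : Ls k →+* Ls k`, `c s ^ n ↦ c ^ p s ^ (-n)` (composition of `AddMonoidAlgebra.mapDomainRingHom` for `n ↦ -n` and of the map induced by `frobenius k p` on the coefficients).  The set of `b : K` such that there are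
`h : b ∈ B`, `h' : ι b ∈ B` with `res ⟨ι b, h'⟩ = tw (res ⟨b, h⟩)` contains the constants (`ι_k`), all `T g` (`ι_T`, `res_T`, and `tw (rr z n) = rr z n` because `z ^ p = z⁻¹`: `z ^ (2 m) = 1`, `2 m ∣ p + 1`), and is closed under sums and
products; so it contains `B = adjoin (range T)` (`Algebra.adjoin_induction`).  The coefficient of `s ^ n` in `tw f` is `(f.coeff (-n)) ^ p`. -/
def S_io : Prop :=
  ∀ (p m : ℕ) [Fact p.Prime] (k K G : Type) [Field k] [CharP k p] [IsAlgClosed k]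
    [Field K] [Algebra k K] [Group G] (C : Core p m k K G),
    ∀ (b : K) (h : b ∈ C.B), ∃ h' : C.ι b ∈ C.B, ∀ n : ℤ,
    (C.res ⟨C.ι b, h'⟩).coeff n = (C.res ⟨b, h⟩).coeff (-n) ^ p

/-- [CZD iR] (about 60 lines) Uses io. `ord_R ∘ ι = ord_R`.
Proof. For `b ∈ B`: `res b ≠ 0` iff `res (ι b) ≠ 0` (io).  Let `e = R (ι κ0) ≥ 0` (`R_nn`).  For `f ≠ 0` `hord` gives `f * b = κ0 ^ n * a`, `R f = n` (`R_eq`), `ι f * ι b = (ι κ0) ^ n * ι a`, and `R (ι a) = R (ι b) = 0` (`R_eq` with `n = 0`, `b = 1`, or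
`R_pos`, `R_nn`), so `R (ι f) = n * e` (`R` is a valuation: `R_inz.isv`).  `ι` is onto: for `f = ι⁻¹ κ0`: `1 = R κ0 = R f * e`, so `e = 1`.  `R 0 = 0`. -/
def S_iR : Prop :=
  ∀ (p m : ℕ) [Fact p.Prime] (k K G : Type) [Field k] [CharP k p] [IsAlgClosed k]
    [Field K] [Algebra k K] [Group G] (C : Core p m k K G),
    ∀ f : K, C.R (C.ι f) = C.R f

/-- [CZD ac] (about 60 lines) Uses aa. The function `a = a_l` for an exact element `l` with `χ l ^ 2 ≠ 1`.
Proof. `z = χ l`, `T l = z + z⁻¹`, `z ≠ z⁻¹` as `χ l ^ 2 ≠ 1` (`algebraMap` is injective).  `ι z = z ^ p = z⁻¹` (`2 m ∣ p + 1`), so `ι (a g) = (T (l g) - z T g) / (z⁻¹ - z)`; `T (l g) = (z - z⁻¹) a g + z⁻¹ T g` gives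
`ι (a g) = T g - a g = a g⁻¹`.  `a g ∈ B` as a linear combination over `k`, and `res (a g) = (rr (χ l χ g) n - z⁻¹ rr (χ g) n) / (z - z⁻¹) = χ g s ^ (-n)`, `n = ν g` (`ν l = 1`). -/
def S_ac : Prop :=
  ∀ (p m : ℕ) [Fact p.Prime] (k K G : Type) [Field k] [CharP k p] [IsAlgClosed k]
    [Field K] [Algebra k K] [Group G] (C : Core p m k K G),
    ∀ l, C.Ex l → C.χ l ^ 2 ≠ 1 →
    (zl C l ≠ 0 ∧ zl C l ≠ (zl C l)⁻¹ ∧ C.T l = zl C l + (zl C l)⁻¹) ∧
    (∀ g, C.ι (aC C l g) = aC C l g⁻¹) ∧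
    ∀ g, ∃ h : aC C l g ∈ C.B, C.res ⟨aC C l g, h⟩ =
      AddMonoidAlgebra.single (-(Multiplicative.toAdd (C.ν g))) (C.χ g : k)

/-- [CZD r1] (about 60 lines) Uses aa, ac, iR.
Proof. `a = aC C l`, `F = Fe a`.  `ι (F x y) = a (y⁻¹ x⁻¹) - a x⁻¹ * a y⁻¹ = F y⁻¹ x⁻¹` (ac), and `F x y * F y⁻¹ x⁻¹ = F y⁻¹ y * F x x⁻¹` (aa) `= Θ y⁻¹ * Θ x`, because `F x x⁻¹ = a 1 - a x * a x⁻¹ = Θ x`. -/
def S_r1 : Prop :=
  ∀ (p m : ℕ) [Fact p.Prime] (k K G : Type) [Field k] [CharP k p] [IsAlgClosed k]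
    [Field K] [Algebra k K] [Group G] (C : Core p m k K G),
    ∀ l, C.Ex l → C.χ l ^ 2 ≠ 1 → ∀ x y,
    Fe (aC C l) x y * C.ι (Fe (aC C l) x y) = Th C l x * Th C l y⁻¹

/-- [CZD r2] (about 60 lines) Uses r1, ac, iR. If all `Θ` are divisible by `κ0²` then so are all `F`.
Proof. `Θ x ∈ B`, `res (Θ x) = 1 - χ x s ^ (-n) χ x⁻¹ s ^ n = 0` (ac), so `Θ x = 0` or `1 ≤ R (Θ x)` (`R_pos`); by hypothesis `Θ x = 0` or `2 ≤ R (Θ x)`.  If `F = Fe a x y ≠ 0` then `ι F ≠ 0` and by r1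
`Θ x, Θ y⁻¹ ≠ 0`, `2 R F = R F + R (ι F) = R (Θ x) + R (Θ y⁻¹) ≥ 4` (iR). -/
def S_r2 : Prop :=
  ∀ (p m : ℕ) [Fact p.Prime] (k K G : Type) [Field k] [CharP k p] [IsAlgClosed k]
    [Field K] [Algebra k K] [Group G] (C : Core p m k K G),
    ∀ l, C.Ex l → C.χ l ^ 2 ≠ 1 → (∀ g, Th C l g ≠ 0 → C.R (Th C l g) ≠ 1) →
    ∀ x y, Fe (aC C l) x y ≠ 0 → 2 ≤ C.R (Fe (aC C l) x y)

/-- [CZD r3] (about 120 lines) Uses ac, aa. `a` is then determined modulo `κ0²`.
Proof. Write `u ≡ v` for `u = v ∨ 2 ≤ R (u - v)` (elements of `B`; `R ≥ 0` on `B`, so `≡` is a ring congruence on `B`).  By hypothesis `a (x y) ≡ a x a y`, and `a x a x⁻¹ ≡ 1`.  So `a` is `≡ 1` on commutators `x y x⁻¹ y⁻¹` and on the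
commutator subgroup.  Let `ν g = 1`: `g ^ (2 m)` is in the commutator subgroup (`C.ker`), so `(a g) ^ (2 m) ≡ 1`.  `a g = χ g + ε`, `ε ∈ B`, `res ε = 0` (ac), so `ε = 0` or `1 ≤ R ε`, `ε ^ 2 ≡ 0` and
`(χ g + ε) ^ (2 m) ≡ χ g ^ (2 m) + 2 m χ g ^ (2 m - 1) ε = 1 + 2 m χ g ^ (-1) ε`; `2 m ≠ 0` in `k` (`2 m ∣ p + 1`), so `ε ≡ 0`: `a g ≡ χ g`.
In general let `ν g = ofAdd n` and `χ g1 = 1`, `ν g1 = ofAdd 1`: `h = g * g1 ^ (-n)`, `a g ≡ a h * a (g1 ^ n) ≡ χ g * a (g1 ^ n)`. -/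
def S_r3 : Prop :=
  ∀ (p m : ℕ) [Fact p.Prime] (k K G : Type) [Field k] [CharP k p] [IsAlgClosed k]
    [Field K] [Algebra k K] [Group G] (C : Core p m k K G),
    ∀ l, C.Ex l → C.χ l ^ 2 ≠ 1 →
    (∀ x y, Fe (aC C l) x y ≠ 0 → 2 ≤ C.R (Fe (aC C l) x y)) → ∀ g1 : G, C.χ g1 = 1 →
    C.ν g1 = Multiplicative.ofAdd 1 → ∀ (g : G) (n : ℤ), C.ν g = Multiplicative.ofAdd n →
    aC C l g = zl C g * aC C l (g1 ^ n) ∨ 2 ≤ C.R (aC C l g - zl C g * aC C l (g1 ^ n))

/-- [CZD R1] (about 120 lines) Uses r2, r3, ac, aa. Some `Θ` is a uniformiser at `R`.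
Proof. Otherwise r2 and r3 apply; `g1` from `C.surj`.  `≡` as in r3.  `S = {b ∈ B | ∃ c : ℤ →₀ k, b ≡ ∑ n, c n • a (g1 ^ n)}` contains the constants (`a 1 = 1`), all `T g = a g + a g⁻¹ ≡ χ g a (g1 ^ n) + χ g⁻¹ a (g1 ^ (-n))`
(aa, r3), and is closed under sums and products (`a (g1 ^ i) a (g1 ^ j) ≡ a (g1 ^ (i + j))` by r2), so it is `B`.  Apply this to `κ0`: `κ0 ≡ ∑ n, c n • a (g1 ^ n)`; restrict to `R`: elements `≡ 0` have `res = 0` (`R_pos`), so
`0 = res κ0 = ∑ n, c n s ^ (-n)` (ac), so `c = 0` and `κ0 ≡ 0`, but `R κ0 = 1`, `κ0 ≠ 0`: contradiction. -/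
def S_R1 : Prop :=
  ∀ (p m : ℕ) [Fact p.Prime] (k K G : Type) [Field k] [CharP k p] [IsAlgClosed k]
    [Field K] [Algebra k K] [Group G] (C : Core p m k K G),
    ∀ l, C.Ex l → C.χ l ^ 2 ≠ 1 → ∃ g0, Th C l g0 ≠ 0 ∧ C.R (Th C l g0) = 1

/-- [CZD tw] (about 90 lines) Uses aa, ac, r1, R1, iR. ELEMENTS OF TRACE TWO ARE TRIVIAL.
Proof. `a = aC C l`.  Let `T u = 2`, `α = a u - 1`; `a u⁻¹ = T u - a u = 1 - α`; `ι α = a u⁻¹ - 1 = -α` (ac); `Θ u = 1 - (1 + α) (1 - α) = α ^ 2`.  Let `g0` be as in R1, `F = Fe a u g0⁻¹`: `F * ι F = Θ u * Θ g0 = α ^ 2 Θ g0` (r1).  If `α ≠ 0` then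
`F ≠ 0` and `2 R F = 2 R α + 1` (iR): impossible.  So `α = 0`, `Θ u = Θ u⁻¹ = 0` (`Th C l u⁻¹ = Th C l u`), so `F u h = 0` and `F h u = 0` for all `h` (r1: `F * ι F = 0` and `ι` is injective), `a (u h) = a h`, `a (h u) = a h`; the same for `u⁻¹`
(`T u⁻¹ = 2`).  `T (u h) = a (u h) + a (h⁻¹ u⁻¹) = a h + a h⁻¹ = T h`. -/
def S_tw : Prop :=
  ∀ (p m : ℕ) [Fact p.Prime] (k K G : Type) [Field k] [CharP k p] [IsAlgClosed k]
    [Field K] [Algebra k K] [Group G] (C : Core p m k K G),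
    ∀ l, C.Ex l → C.χ l ^ 2 ≠ 1 → ∀ u, C.T u = 2 → ∀ h, C.T (u * h) = C.T h

/-- [CZD au] (about 60 lines) Uses ab, ac, aa. Commuting exact elements have the same `a`.
Proof. `z' = χ l'`, `a = aC C l`.  By ab `a l' * a l'⁻¹ = 1`, `a l' + a l'⁻¹ = T l' = z' + z'⁻¹` (aa), so `(a l' - z') (a l' - z'⁻¹) = 0`; `a l' = z'⁻¹` is impossible because `res (a l') = χ l' = z'` (ac, `ν l' = 1`) and `z' ≠ z'⁻¹`; so
`a l' = z'`, `a l'⁻¹ = z'⁻¹`, `T (l' x) = z' a x + z'⁻¹ (T x - a x)` (ab) and `aC C l' x = (T (l' x) - z'⁻¹ T x) / (z' - z'⁻¹) = a x`. -/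
def S_au : Prop :=
  ∀ (p m : ℕ) [Fact p.Prime] (k K G : Type) [Field k] [CharP k p] [IsAlgClosed k]
    [Field K] [Algebra k K] [Group G] (C : Core p m k K G),
    ∀ l l', C.Ex l → C.χ l ^ 2 ≠ 1 → C.Ex l' → C.χ l' ^ 2 ≠ 1 →
    (∀ h, C.T (l * l' * h) = C.T (l' * l * h)) → aC C l' = aC C l

/-- [CZD ag] (about 60 lines) Uses aa, ac. Elements normalising `a` are `u + u⁻¹`, `u ∈ B`.
Proof. The hypothesis says `a (g x g⁻¹) = a x` for all `x`, i.e. `a (g x) = a (x g)`, so `F g x = F x g`.  With `z = χ l`: `F (l x) g = a (l x g) - a (l x) a g = z F x g` (aa) and `F g (l x) = z⁻¹ F g x` (aa), so `z F x g = F (l x) g = F g (l x) = z⁻¹ F g x = z⁻¹ F x g`,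
`F x g = 0` for all `x`.  For `x = g⁻¹`: `1 = a 1 = a g⁻¹ a g`.  `T g = a g + a g⁻¹`, and `a g, a g⁻¹ ∈ B` (ac). -/
def S_ag : Prop :=
  ∀ (p m : ℕ) [Fact p.Prime] (k K G : Type) [Field k] [CharP k p] [IsAlgClosed k]
    [Field K] [Algebra k K] [Group G] (C : Core p m k K G),
    ∀ l, C.Ex l → C.χ l ^ 2 ≠ 1 → ∀ g : G, aC C (g * l * g⁻¹) = aC C l →
    ∃ u ∈ C.B, ∃ u' ∈ C.B, u * u' = 1 ∧ C.T g = u + u'

/-- [CZD EX] (about 200 lines) Uses gd, CL, tw, au, ag, `F2D.S_co`. EXACT TREES.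
Proof. Let `δ` be as in gd (`δ l = 1 ↔ χ l ^ 2 = 1`).  `D u v` iff `X.Adj u v` and some `l` fixing `u` and `v` has `χ l ^ 2 ≠ 1`: symmetric and invariant.  Let `W, Z, q` be as in co.  Edge stabilisers of `Z` have `δ = 1` (the last property of co).
Claim: every `g` fixing a vertex `q v` of `Z` has `ν g = 1`; then CL gives `OntoW m G`.  If there is no `u` with `D v u` then `ReflTransGen D v (g • v)` gives `g • v = v` and `g` is exact.
Otherwise let `D v u`, `l0` fix `v, u`, `χ l0 ^ 2 ≠ 1` (`l0` is exact as it fixes `v`).  If `l, l'` fix the same vertex `y` and `χ l ^ 2, χ l' ^ 2 ≠ 1` then `aC C l' = aC C l`: the commutator `c' = l l' l⁻¹ l'⁻¹` fixes `y`, so it is exact with `χ c' = 1`: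
`T c' = 2`, so `T (c' h) = T h` for all `h` (tw), in particular `T (l l' h) = T (c' * (l' l h)) = T (l' l h)`: au.  By induction along `ReflTransGen D v y`: every `l` fixing `y` with `χ l ^ 2 ≠ 1` has `aC C l = aC C l0` (step from `y` to `y'`, `D y y'`: some `l'` fixes both
and has `χ l' ^ 2 ≠ 1`).  Apply this to `y = g • v`, `l = g l0 g⁻¹` (`χ` is the same): `aC C (g l0 g⁻¹) = aC C l0`; ag and the hypothesis `hU` give `ν g = 1`. -/
def S_EX : Prop :=
  ∀ (p m : ℕ) [Fact p.Prime] (k K G : Type) [Field k] [CharP k p] [IsAlgClosed k]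
    [Field K] [Algebra k K] [Group G] (C : Core p m k K G),
    ∀ (V : Type) [MulAction G V] (X : SimpleGraph V), X.IsTree → Acts G X →
    (∀ (v : V) (l : G), l • v = v → C.Ex l) →
    (∀ (t : G), ∀ u ∈ C.B, ∀ u' ∈ C.B, u * u' = 1 → C.T t = u + u' → C.ν t = 1) → OntoW m G

end Pool.Agent.CZD
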