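import Pool.Agent.Lib.MP_305fdd_al.CZ.D.Stm

/-!
# MP_305fdd_al, `C_m * Z`, section D: [CZD ab], elements commuting with `l`
-/

set_option autoImplicit false

namespace Pool.Agent.CZD

open Pool.Agent.F2 Pool.Agent.F2Ch Pool.Agent.F2D Pool.Agent.CZ Pool.Agent.CC
open Pool.Agent.PSL2Z (TreeAct)

theorem p_ab (hae : S_ae) (h2ra : F2D.S_ra) : S_ab := by
  intro G K _ _ T l z hPC hz hz' hT l' hcomm
  obtain ⟨𝒜, _, _, j, t, P⟩ := h2ra G K T hPC
  obtain ⟨e, he2, te, t1, jle, ejl, jl_eq, hal, hinv, hcor, hcor'⟩ :=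
    hae G K T l z hPC hz hz' hT 𝒜 j t P
  -- `j l` and `j l'` commute
  have hc : j l * j l' - j l' * j l = 0 := by
    apply P.nd
    have h0 : t ∘ₗ LinearMap.mulLeft K (j l * j l' - j l' * j l) = 0 := by
      refine LinearMap.ext_on P.span ?_
      rintro _ ⟨g, rfl⟩
      simp only [LinearMap.comp_apply, LinearMap.mulLeft_apply, LinearMap.zero_apply, sub_mul,
        map_sub, ← map_mul, P.tj]
      rw [hcomm g, sub_self]
    intro b
    exact DFunLike.congr_fun h0 b
  have hd : z - z⁻¹ ≠ 0 := sub_ne_zero.2 hz'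
  -- `e` commutes with `j l'`
  have hec : e * j l' = j l' * e := by
    have h1 : j l = (z - z⁻¹) • e + z⁻¹ • (1 : 𝒜) := by
      rw [jl_eq, smul_sub, sub_smul]
      abel
    rw [h1] at hc
    simp only [add_mul, mul_add, smul_mul_assoc, mul_smul_comm, one_mul, mul_one] at hc
    have h2 : (z - z⁻¹) • (e * j l' - j l' * e) = 0 := by
      rw [smul_sub, ← hc]
      abel
    rcases smul_eq_zero.1 h2 with h3 | h3
    · exact absurd h3 hd
    · exact sub_eq_zero.1 h3
  have hg : ∀ g, al T l z g⁻¹ = T g - al T l z g := by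
    intro g
    have h1 : j g⁻¹ = T g • (1 : 𝒜) - j g := by
      rw [← hinv g]
      abel
    rw [← hal, ← hal, h1, mul_sub, mul_smul_comm, mul_one, map_sub, map_smul, te, smul_eq_mul,
      mul_one]
  have hx1 : e * j l' = al T l z l' • e := by
    rw [← hal, ← hcor (j l'), mul_assoc, ← hec, ← mul_assoc, he2]
  have hx2 : (1 - e) * j l' = al T l z l'⁻¹ • (1 - e) := by
    have h1 : (1 - e) * j l' = (1 - e) * j l' * (1 - e) := by
      have h2 : (1 - e) * j l' = j l' * (1 - e) := by
        rw [sub_mul, mul_sub, one_mul, mul_one, hec]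
      have h3 : (1 - e) * (1 - e) = 1 - e := by
        rw [mul_sub, sub_mul, sub_mul, he2]
        simp
      rw [mul_assoc, ← h2, ← mul_assoc, h3]
    rw [h1, hcor', hg, sub_mul, one_mul, map_sub, P.tj, hal]
  have hx : j l' = al T l z l' • e + al T l z l'⁻¹ • (1 - e) := by
    rw [← hx1, ← hx2, sub_mul, one_mul]
    abel
  constructor
  · have h1 : e * j l'⁻¹ = al T l z l'⁻¹ • e := by
      have h2 : j l'⁻¹ = T l' • (1 : 𝒜) - j l' := by
        rw [← hinv l']
        abel
      rw [h2, mul_sub, mul_smul_comm, mul_one, hx1, ← sub_smul, hg]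
    have h3 : e = (al T l z l' * al T l z l'⁻¹) • e := by
      calc e = e * (j l' * j l'⁻¹) := by
            rw [← map_mul, mul_inv_cancel, map_one, mul_one]
        _ = _ := by
            rw [← mul_assoc, hx1, smul_mul_assoc, h1, smul_smul]
    have h4 := congrArg t h3
    rw [map_smul, te, smul_eq_mul, mul_one] at h4
    exact h4.symm
  · intro x
    rw [← P.tj (l' * x), map_mul]
    nth_rw 1 [hx]
    rw [add_mul, smul_mul_assoc, smul_mul_assoc, sub_mul, one_mul, map_add, map_smul, map_smul,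
      map_sub, hal, P.tj, smul_eq_mul, smul_eq_mul]

end Pool.Agent.CZD
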