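import Pool.Agent.Lib.MP_305fdd_al.CZ.D.Stm

set_option autoImplicit false

namespace Pool.Agent.CZD

open Pool.Agent.F2 Pool.Agent.F2Ch Pool.Agent.F2D Pool.Agent.CZ Pool.Agent.CC
open Pool.Agent.PSL2Z (TreeAct)

private theorem cp_dd_mul {m : ℕ} {G : Type} [Group G] (δ : G →* Multiplicative (ZMod m))
    (g h : G) : dd δ (g * h) = dd δ g * dd δ h := by
  simp [dd]

private theorem cp_adj_iff {G V : Type} [Group G] [MulAction G V] {X : SimpleGraph V}
    {ty : V → Bool} (hT : TreeAct G V X ty) (g : G) (u v : V) :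
    X.Adj (g • u) (g • v) ↔ X.Adj u v := by
  constructor
  · intro h
    have := hT.adj g⁻¹ _ _ h
    simpa using this
  · exact hT.adj g u v

theorem p_cp (h2t3 : F2D.S_t3) : S_cp := by
  classical
  intro m G V _ _ δ X ty hT a b hab hδ v₀
  -- the element attached to `g`
  let w : G → WW m := fun g => dd δ g * yy m * (dd δ g)⁻¹
  have hw : ∀ g g' : G, g • a = g' • a → g • b = g' • b → w g = w g' := by
    intro g g' h1 h2
    have h3 : δ (g'⁻¹ * g) = 1 := by
      apply hδ
      · rw [mul_smul, h1, inv_smul_smul]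
      · rw [mul_smul, h2, inv_smul_smul]
    have h4 : δ g = δ g' := by
      rw [map_mul, map_inv, inv_mul_eq_one] at h3
      exact h3.symm
    simp only [w, dd, h4]
  have hwm : ∀ g h : G, w (g * h) = dd δ g * w h * (dd δ g)⁻¹ := by
    intro g h
    simp only [w, cp_dd_mul]
    group
  let c : V → V → WW m := fun u v =>
    if h : ∃ g : G, g • a = u ∧ g • b = v then w h.choose
    else if h : ∃ g : G, g • a = v ∧ g • b = u then (w h.choose)⁻¹ else 1
  have hc1 : ∀ g : G, c (g • a) (g • b) = w g := by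
    intro g
    have h : ∃ g' : G, g' • a = g • a ∧ g' • b = g • b := ⟨g, rfl, rfl⟩
    simp only [c]
    rw [dif_pos h]
    exact hw _ _ h.choose_spec.1 h.choose_spec.2
  have hc2 : ∀ g : G, c (g • b) (g • a) = (w g)⁻¹ := by
    intro g
    have h0 : ¬ ∃ g' : G, g' • a = g • b ∧ g' • b = g • a := by
      rintro ⟨g', h1, h2⟩
      have h3 : ty a = ty b := by
        rw [← hT.ty_smul g' a, h1, hT.ty_smul]
      exact hT.ty_adj a b hab h3
    have h : ∃ g' : G, g' • a = g • a ∧ g' • b = g • b := ⟨g, rfl, rfl⟩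
    simp only [c]
    rw [dif_neg h0, dif_pos h]
    rw [hw _ _ h.choose_spec.1 h.choose_spec.2]
  have hc3 : ∀ u v : V, ¬ Orb G a b u v → ¬ Orb G a b v u → c u v = 1 := by
    intro u v h1 h2
    have h1' : ¬ ∃ g : G, g • a = u ∧ g • b = v := h1
    have h2' : ¬ ∃ g : G, g • a = v ∧ g • b = u := h2
    simp only [c]
    rw [dif_neg h1', dif_neg h2']
  have hcs : ∀ u v : V, c v u = (c u v)⁻¹ := by
    intro u v
    by_cases h1 : Orb G a b u v
    · obtain ⟨g, rfl, rfl⟩ := h1
      rw [hc1, hc2]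
    · by_cases h2 : Orb G a b v u
      · obtain ⟨g, rfl, rfl⟩ := h2
        rw [hc1, hc2, inv_inv]
      · rw [hc3 u v h1 h2, hc3 v u h2 h1, inv_one]
  have horb : ∀ (h : G) (u v : V), Orb G a b (h • u) (h • v) ↔ Orb G a b u v := by
    intro h u v
    constructor
    · rintro ⟨g, h1, h2⟩
      refine ⟨h⁻¹ * g, ?_, ?_⟩
      · rw [mul_smul, h1, inv_smul_smul]
      · rw [mul_smul, h2, inv_smul_smul]
    · rintro ⟨g, h1, h2⟩
      refine ⟨h * g, ?_, ?_⟩
      · rw [mul_smul, h1]
      · rw [mul_smul, h2]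
  have hce : ∀ (h : G) (u v : V), c (h • u) (h • v) = dd δ h * c u v * (dd δ h)⁻¹ := by
    intro h u v
    by_cases h1 : Orb G a b u v
    · obtain ⟨g, rfl, rfl⟩ := h1
      rw [← mul_smul, ← mul_smul, hc1, hc1, hwm]
    · by_cases h2 : Orb G a b v u
      · obtain ⟨g, rfl, rfl⟩ := h2
        rw [← mul_smul, ← mul_smul, hc2, hc2, hwm]
        group
      · rw [hc3 u v h1 h2, hc3 (h • u) (h • v) (fun h3 => h1 ((horb h u v).1 h3))
          (fun h3 => h2 ((horb h v u).1 h3))]
        group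
  obtain ⟨P', hP'⟩ := h2t3 V (WW m) X hT.tree c (fun u v _ => hcs u v)
  let P : V → WW m := fun v => (P' v₀)⁻¹ * P' v
  have hP : ∀ u v, X.Adj u v → P v = P u * c u v := by
    intro u v huv
    simp only [P]
    rw [hP' u v huv, mul_assoc]
  have hP0 : P v₀ = 1 := by simp [P]
  let F : G → V → WW m := fun h v => P (h • v) * dd δ h * (P v)⁻¹
  have hFadj : ∀ (h : G) (u v : V), X.Adj u v → F h v = F h u := by
    intro h u v huv
    simp only [F]
    rw [hP _ _ (hT.adj h u v huv), hP u v huv, hce]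
    group
  have hFall : ∀ (h : G) (u v : V), F h u = F h v := by
    intro h u v
    obtain ⟨q⟩ := hT.tree.connected.preconnected u v
    induction q with
    | nil => rfl
    | cons hadj _ ih => rw [← ih, hFadj h _ _ hadj]
  have hF1 : ∀ (h : G) (v : V), P (h • v) = F h v₀ * P v * (dd δ h)⁻¹ := by
    intro h v
    rw [hFall h v₀ v]
    simp only [F]
    group
  refine ⟨P, ⟨⟨fun h => F h v₀, ?_⟩, ?_⟩, hP0, ?_, ?_, ?_⟩
  · simp [F, dd, hP0]
  · intro g h
    show F (g * h) v₀ = F g v₀ * F h v₀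
    rw [hFall g v₀ (h • v₀)]
    simp only [F]
    rw [mul_smul, cp_dd_mul]
    group
  · intro h v
    exact hF1 h v
  · have h1 := hc1 1
    rw [one_smul, one_smul] at h1
    rw [hP a b hab, h1]
    simp [w, dd]
  · rintro u v ⟨h1, h2, h3⟩
    rw [hP u v h1, hc3 u v h2 h3, mul_one]

end Pool.Agent.CZD
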