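import Pool.Agent.Lib.MP_305fdd_al.CZ.D.Stm

set_option autoImplicit false

namespace Pool.Agent.CZD

open Pool.Agent.F2 Pool.Agent.F2Ch Pool.Agent.F2D Pool.Agent.CZ Pool.Agent.CC
open Pool.Agent.PSL2Z (TreeAct)

section sub
variable {Λ V : Type} [Group Λ] [MulAction Λ V]

private theorem sub_map_mem {X : SimpleGraph V} (hA : Acts Λ X) (g : Λ) (e : Sym2 V)
    (he : e ∈ X.edgeSet) : Sym2.map (fun v => g • v) e ∈ X.edgeSet := by
  induction e with
  | _ a b =>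
    rw [Sym2.map_mk, SimpleGraph.mem_edgeSet]
    rw [SimpleGraph.mem_edgeSet] at he
    exact hA g a b he

@[reducible] private def sub_act (X : SimpleGraph V) (hA : Acts Λ X) : MulAction Λ (V ⊕ X.edgeSet) where
  smul g w := match w with
    | Sum.inl v => Sum.inl (g • v)
    | Sum.inr e => Sum.inr ⟨Sym2.map (fun v => g • v) e.1, sub_map_mem hA g e.1 e.2⟩
  one_smul w := by
    rcases w with v | ⟨e, he⟩
    · show Sum.inl ((1 : Λ) • v) = Sum.inl v
      rw [one_smul]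
    · show Sum.inr (⟨Sym2.map (fun v => (1 : Λ) • v) e, _⟩ : X.edgeSet) = Sum.inr ⟨e, he⟩
      congr 1
      apply Subtype.ext
      show Sym2.map (fun v => (1 : Λ) • v) e = e
      simp
  mul_smul g h w := by
    rcases w with v | ⟨e, he⟩
    · show Sum.inl ((g * h) • v) = Sum.inl (g • h • v)
      rw [mul_smul]
    · show Sum.inr (⟨Sym2.map (fun v => (g * h) • v) e, _⟩ : X.edgeSet) =
        Sum.inr ⟨Sym2.map (fun v => g • v) (Sym2.map (fun v => h • v) e), _⟩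
      congr 1
      apply Subtype.ext
      show Sym2.map (fun v => (g * h) • v) e =
        Sym2.map (fun v => g • v) (Sym2.map (fun v => h • v) e)
      rw [Sym2.map_map]
      congr 1
      funext v
      simp [mul_smul]

private def sub_gr (X : SimpleGraph V) : SimpleGraph (V ⊕ X.edgeSet) where
  Adj a b := (∃ v e, a = Sum.inl v ∧ b = Sum.inr e ∧ v ∈ e.1) ∨
    (∃ v e, b = Sum.inl v ∧ a = Sum.inr e ∧ v ∈ e.1)
  symm := ⟨fun _ _ h => h.elim Or.inr Or.inl⟩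
  loopless := ⟨fun a h => by
    rcases h with ⟨v, e, h1, h2, _⟩ | ⟨v, e, h1, h2, _⟩
    · rw [h1] at h2; cases h2
    · rw [h1] at h2; cases h2⟩

private theorem sub_adj1 {X : SimpleGraph V} (v : V) (e : X.edgeSet) (h : v ∈ e.1) :
    (sub_gr X).Adj (Sum.inl v) (Sum.inr e) := Or.inl ⟨v, e, rfl, rfl, h⟩

private theorem sub_adj2 {X : SimpleGraph V} (v : V) (e : X.edgeSet) (h : v ∈ e.1) :
    (sub_gr X).Adj (Sum.inr e) (Sum.inl v) := Or.inr ⟨v, e, rfl, rfl, h⟩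

private theorem sub_conn {X : SimpleGraph V} (hX : X.Connected) : (sub_gr X).Connected := by
  have h1 : ∀ u v : V, (sub_gr X).Reachable (Sum.inl u) (Sum.inl v) := by
    intro u v
    obtain ⟨q⟩ := hX.preconnected u v
    induction q with
    | nil => exact SimpleGraph.Reachable.refl _
    | @cons a b c hadj _ ih =>
      have h2 : (sub_gr X).Adj (Sum.inl a) (Sum.inr ⟨s(a, b), hadj⟩) :=
        sub_adj1 a _ (Sym2.mem_mk_left a b)
      have h3 : (sub_gr X).Adj (Sum.inr ⟨s(a, b), hadj⟩) (Sum.inl b) :=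
        sub_adj2 b _ (Sym2.mem_mk_right a b)
      exact (h2.reachable.trans h3.reachable).trans ih
  have h2 : ∀ w : V ⊕ X.edgeSet, ∃ v : V, (sub_gr X).Reachable w (Sum.inl v) := by
    intro w
    rcases w with v | ⟨e, he⟩
    · exact ⟨v, SimpleGraph.Reachable.refl _⟩
    · induction e with
      | _ a b => exact ⟨a, (sub_adj2 a ⟨s(a, b), he⟩ (Sym2.mem_mk_left a b)).reachable⟩
  obtain ⟨v0⟩ := hX.nonempty
  haveI : Nonempty (V ⊕ X.edgeSet) := ⟨Sum.inl v0⟩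
  refine ⟨fun w w' => ?_⟩
  obtain ⟨v, hv⟩ := h2 w
  obtain ⟨v', hv'⟩ := h2 w'
  exact (hv.trans (h1 v v')).trans hv'.symm

/-- the set of the subdivision belonging to a set of vertices -/
private def sub_set (X : SimpleGraph V) (S : Set V) : Set (V ⊕ X.edgeSet) :=
  {w | (∃ v, w = Sum.inl v ∧ v ∈ S) ∨ (∃ e, w = Sum.inr e ∧ ∃ x ∈ e.1, x ∈ S)}

private theorem sub_set_inl {X : SimpleGraph V} (S : Set V) (v : V) :
    (Sum.inl v : V ⊕ X.edgeSet) ∈ sub_set X S ↔ v ∈ S := by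
  constructor
  · rintro (⟨w, h1, h2⟩ | ⟨e, h1, _⟩)
    · cases h1; exact h2
    · cases h1
  · intro h
    exact Or.inl ⟨v, rfl, h⟩

private theorem sub_set_inr {X : SimpleGraph V} (S : Set V) (e : X.edgeSet) :
    (Sum.inr e : V ⊕ X.edgeSet) ∈ sub_set X S ↔ ∃ x ∈ e.1, x ∈ S := by
  constructor
  · rintro (⟨w, h1, _⟩ | ⟨e', h1, h2⟩)
    · cases h1
    · cases h1; exact h2
  · intro h
    exact Or.inr ⟨e, rfl, h⟩

private theorem sub_cut {X : SimpleGraph V} {S : Set V} {u v : V} (hS : Cut X S u v)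
    (huv : X.Adj u v) (w w' : V ⊕ X.edgeSet) (hw : (sub_gr X).Adj w w')
    (h1 : w ∉ sub_set X S) (h2 : w' ∈ sub_set X S) :
    w = Sum.inl u ∧ w' = Sum.inr ⟨s(u, v), huv⟩ := by
  rcases hw with ⟨a, e, rfl, rfl, hae⟩ | ⟨a, e, rfl, rfl, hae⟩
  · rw [sub_set_inl] at h1
    rw [sub_set_inr] at h2
    obtain ⟨x, hxe, hxS⟩ := h2
    obtain ⟨e, he⟩ := e
    have hne : a ≠ x := fun h => h1 (h ▸ hxS)
    have h3 : e = s(a, x) := ((Sym2.mem_and_mem_iff hne).1 ⟨hae, hxe⟩)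
    subst h3
    have h4 : X.Adj a x := he
    obtain ⟨h5, h6⟩ := hS.2.2 a x h4 h1 hxS
    subst h5 h6
    exact ⟨rfl, rfl⟩
  · exfalso
    rw [sub_set_inr] at h1
    rw [sub_set_inl] at h2
    exact h1 ⟨a, hae, h2⟩

end sub

theorem p_sub (h2t1 : F2D.S_t1) (h2t2 : F2D.S_t2) : S_sub := by
  classical
  intro Λ V _ _ X hX hA
  letI : MulAction Λ (V ⊕ X.edgeSet) := sub_act X hA
  have hinl : ∀ (g : Λ) (v : V), g • (Sum.inl v : V ⊕ X.edgeSet) = Sum.inl (g • v) :=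
    fun _ _ => rfl
  have hinr : ∀ (g : Λ) (e : X.edgeSet), g • (Sum.inr e : V ⊕ X.edgeSet) =
      Sum.inr ⟨Sym2.map (fun v => g • v) e.1, sub_map_mem hA g e.1 e.2⟩ := fun _ _ => rfl
  have htree : (sub_gr X).IsTree := by
    apply h2t1 _ _ (sub_conn hX.connected)
    rintro w w' (⟨u, e, rfl, rfl, hue⟩ | ⟨u, e, rfl, rfl, hue⟩)
    · obtain ⟨e, he⟩ := e
      obtain ⟨v, rfl⟩ := hue
      have huv : X.Adj u v := he
      obtain ⟨S, hS⟩ := h2t2 V X hX u v huv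
      refine ⟨sub_set X S, ?_, ?_, ?_⟩
      · rw [sub_set_inl]; exact hS.1
      · rw [sub_set_inr]; exact ⟨v, Sym2.mem_mk_right u v, hS.2.1⟩
      · intro a b hab ha hb
        exact sub_cut hS huv a b hab ha hb
    · obtain ⟨e, he⟩ := e
      obtain ⟨v, rfl⟩ := hue
      have huv : X.Adj u v := he
      obtain ⟨S, hS⟩ := h2t2 V X hX u v huv
      refine ⟨(sub_set X S)ᶜ, ?_, ?_, ?_⟩
      · rw [Set.mem_compl_iff, not_not, sub_set_inr]
        exact ⟨v, Sym2.mem_mk_right u v, hS.2.1⟩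
      · rw [Set.mem_compl_iff, sub_set_inl]; exact hS.1
      · intro a b hab ha hb
        rw [Set.mem_compl_iff, not_not] at ha
        have := sub_cut hS huv b a hab.symm hb ha
        exact ⟨this.2, this.1⟩
  have hadj : ∀ (g : Λ) (a b : V ⊕ X.edgeSet), (sub_gr X).Adj a b →
      (sub_gr X).Adj (g • a) (g • b) := by
    rintro g _ _ (⟨u, e, rfl, rfl, hue⟩ | ⟨u, e, rfl, rfl, hue⟩)
    · rw [hinl, hinr]
      exact sub_adj1 _ _ (Sym2.mem_map.2 ⟨u, hue, rfl⟩)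
    · rw [hinl, hinr]
      exact sub_adj2 _ _ (Sym2.mem_map.2 ⟨u, hue, rfl⟩)
  refine ⟨V ⊕ X.edgeSet, inferInstance, sub_gr X, fun w => w.isLeft, ⟨htree, hadj, ?_, ?_⟩, ?_, ?_⟩
  · rintro g (v | e)
    · rw [hinl]; rfl
    · rw [hinr]; rfl
  · rintro _ _ (⟨u, e, rfl, rfl, hue⟩ | ⟨u, e, rfl, rfl, hue⟩)
    · simp
    · simp
  · rintro l (v | ⟨e, he⟩) h
    · rw [hinl] at h
      have h1 : l • v = v := Sum.inl_injective h
      exact ⟨v, by rw [mul_smul, h1, h1]⟩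
    · rw [hinr] at h
      have h1 := Sum.inr_injective h
      rw [Subtype.mk.injEq] at h1
      induction e with
      | _ a b =>
        rw [Sym2.map_mk, Sym2.eq_iff] at h1
        rcases h1 with ⟨h1, _⟩ | ⟨h1, h2⟩
        · exact ⟨a, by rw [mul_smul, h1, h1]⟩
        · exact ⟨a, by rw [mul_smul, h1, h2]⟩
  · have key : ∀ (u : V) (e : X.edgeSet), u ∈ e.1 → ∃ v, X.Adj u v ∧
        ∀ l : Λ, l • (Sum.inl u : V ⊕ X.edgeSet) = Sum.inl u →
          l • (Sum.inr e : V ⊕ X.edgeSet) = Sum.inr e → l • u = u ∧ l • v = v := by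
      rintro u ⟨e, he⟩ hue
      obtain ⟨v, rfl⟩ := hue
      have huv : X.Adj u v := he
      refine ⟨v, huv, fun l h1 h2 => ?_⟩
      rw [hinl] at h1
      have h1' : l • u = u := Sum.inl_injective h1
      rw [hinr] at h2
      have h3 := Sum.inr_injective h2
      rw [Subtype.mk.injEq, Sym2.map_mk, Sym2.eq_iff] at h3
      rcases h3 with ⟨_, h4⟩ | ⟨h4, _⟩
      · exact ⟨h1', h4⟩
      · exact absurd (h1'.symm.trans h4) huv.ne
    rintro _ _ (⟨u, e, rfl, rfl, hue⟩ | ⟨u, e, rfl, rfl, hue⟩)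
    · obtain ⟨v, huv, h⟩ := key u e hue
      exact ⟨u, v, huv, fun l h1 h2 => h l h1 h2⟩
    · obtain ⟨v, huv, h⟩ := key u e hue
      exact ⟨u, v, huv, fun l h1 h2 => h l h2 h1⟩

end Pool.Agent.CZD
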