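import Pool.Agent.Lib.MP_305fdd_al.CZ.D.Stm

/-!
# MP_305fdd_al (`C_m * Z`), section D: the barycentric subdivision [CZQ sub]
-/

set_option autoImplicit false

namespace Pool.Agent.CZ

open Pool.Agent.PSL2Z (TreeAct Gw)
open Pool.Agent.CC (Fund)
open Pool.Agent.F2 (PC)
open Pool.Agent.F2Ch (IsV Gt)
open Pool.Agent.F2D (Acts Irr Disc Disc' EdgeElt)
open scoped WithZero

section

variable {G V : Type} [Group G] [MulAction G V]

/-- the action on the edges -/
private def qsub_smul (X : SimpleGraph V) (hX : Acts G X) (g : G) (e : X.edgeSet) : X.edgeSet :=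
  ⟨Sym2.map (g • ·) e.1, by
    obtain ⟨e, he⟩ := e
    induction e using Sym2.ind with
    | _ a b =>
      rw [Sym2.map_mk, SimpleGraph.mem_edgeSet]
      exact hX g a b (by simpa using he)⟩

/-- the action on the subdivision -/
private def qsub_act (X : SimpleGraph V) (hX : Acts G X) : MulAction G (V ⊕ X.edgeSet) where
  smul g a := Sum.map (g • ·) (qsub_smul X hX g) a
  one_smul a := by
    rcases a with v | ⟨e, he⟩
    · change Sum.inl ((1 : G) • v) = _
      rw [one_smul]
    · change Sum.inr (qsub_smul X hX 1 ⟨e, he⟩) = _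
      congr 1
      apply Subtype.ext
      change Sym2.map (fun x => (1 : G) • x) e = e
      simp
  mul_smul g h a := by
    rcases a with v | ⟨e, he⟩
    · change Sum.inl ((g * h) • v) = Sum.inl (g • h • v)
      rw [mul_smul]
    · change Sum.inr (qsub_smul X hX (g * h) ⟨e, he⟩) =
        Sum.inr (qsub_smul X hX g (qsub_smul X hX h ⟨e, he⟩))
      congr 1
      apply Subtype.ext
      change Sym2.map (fun x => (g * h) • x) e = Sym2.map (fun x => g • x) (Sym2.map (fun x => h • x) e)
      rw [Sym2.map_map]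
      congr 1
      funext x
      exact mul_smul g h x

/-- adjacency of the subdivision -/
private def qsub_adj (X : SimpleGraph V) : V ⊕ X.edgeSet → V ⊕ X.edgeSet → Prop
  | Sum.inl v, Sum.inr e => v ∈ e.1
  | Sum.inr e, Sum.inl v => v ∈ e.1
  | _, _ => False

/-- the subdivision -/
private def qsub_graph (X : SimpleGraph V) : SimpleGraph (V ⊕ X.edgeSet) where
  Adj := qsub_adj X
  symm := ⟨by
    rintro (v | e) (w | f) h
    · exact h
    · exact h
    · exact h
    · exact h⟩
  loopless := ⟨by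
    rintro (v | e) h
    · exact h
    · exact h⟩

/-- a vertex of an edge -/
private theorem qsub_edge (X : SimpleGraph V) (e : X.edgeSet) :
    ∃ u v, X.Adj u v ∧ e.1 = s(u, v) := by
  obtain ⟨e, he⟩ := e
  induction e using Sym2.ind with
  | _ a b => exact ⟨a, b, by simpa using he, rfl⟩

private theorem qsub_reach (X : SimpleGraph V) {u v : V} (p : X.Walk u v) :
    (qsub_graph X).Reachable (Sum.inl u) (Sum.inl v) := by
  induction p with
  | nil => exact SimpleGraph.Reachable.refl _
  | @cons a b c h q ih =>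
    have e1 : (qsub_graph X).Adj (Sum.inl a) (Sum.inr ⟨s(a, b), h⟩) := Sym2.mem_mk_left a b
    have e2 : (qsub_graph X).Adj (Sum.inr ⟨s(a, b), h⟩) (Sum.inl b) := Sym2.mem_mk_right a b
    exact (e1.reachable.trans e2.reachable).trans ih

end

theorem q_sub (h2t1 : F2D.S_t1) (h2t2 : F2D.S_t2) : S_sub := by
  intro G V _ _ X hT hX
  letI := qsub_act (G := G) X hX
  have hne : Nonempty V := hT.isConnected.nonempty
  have hconn : (qsub_graph X).Connected := by
    haveI : Nonempty (V ⊕ X.edgeSet) := hne.map Sum.inl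
    have h1 : ∀ a : V ⊕ X.edgeSet, ∃ v : V, (qsub_graph X).Reachable a (Sum.inl v) := by
      rintro (v | e)
      · exact ⟨v, SimpleGraph.Reachable.refl _⟩
      · obtain ⟨u, v, -, he⟩ := qsub_edge X e
        refine ⟨u, SimpleGraph.Adj.reachable ?_⟩
        change u ∈ e.1
        rw [he]
        exact Sym2.mem_mk_left u v
    refine SimpleGraph.Connected.mk ?_
    intro a b
    obtain ⟨u, hu⟩ := h1 a
    obtain ⟨v, hv⟩ := h1 b
    obtain ⟨p⟩ := hT.isConnected.preconnected u v
    exact (hu.trans (qsub_reach X p)).trans hv.symm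
  have hcut : ∀ a b, (qsub_graph X).Adj a b → ∃ S : Set (V ⊕ X.edgeSet), F2D.Cut (qsub_graph X) S a b := by
    have key : ∀ (u : V) (e : X.edgeSet), u ∈ e.1 →
        ∃ S : Set (V ⊕ X.edgeSet), Sum.inl u ∉ S ∧ Sum.inr e ∈ S ∧
          (∀ (x : V) (f : X.edgeSet), x ∈ f.1 → Sum.inl x ∉ S → Sum.inr f ∈ S → x = u ∧ f = e) ∧
          (∀ (x : V) (f : X.edgeSet), x ∈ f.1 → Sum.inr f ∉ S → Sum.inl x ∉ S) := by
      intro u e hu
      obtain ⟨v, hv⟩ := hu
      have huv : X.Adj u v := by
        have := e.2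
        rw [hv] at this
        simpa using this
      obtain ⟨S, hS1, hS2, hS3⟩ := h2t2 V X hT u v huv
      refine ⟨{a | match a with
        | Sum.inl x => x ∈ S
        | Sum.inr f => ∃ x ∈ f.1, x ∈ S}, hS1, ?_, ?_, ?_⟩
      · change ∃ x ∈ e.1, x ∈ S
        exact ⟨v, by rw [hv]; exact Sym2.mem_mk_right u v, hS2⟩
      · intro x f hx hxS hf
        change x ∉ S at hxS
        change ∃ x ∈ f.1, x ∈ S at hf
        obtain ⟨y, hy, hyS⟩ := hf
        have hxy : x ≠ y := fun h => hxS (h ▸ hyS)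
        have hf2 : f.1 = s(x, y) := (Sym2.mem_and_mem_iff hxy).mp ⟨hx, hy⟩
        have hadj : X.Adj x y := by
          have := f.2
          rw [hf2] at this
          simpa using this
        obtain ⟨e1, e2⟩ := hS3 x y hadj hxS hyS
        refine ⟨e1, ?_⟩
        apply Subtype.ext
        rw [hf2, hv, e1, e2]
      · intro x f hx hf hxS
        exact hf ⟨x, hx, hxS⟩
    rintro (u | e) (w | f) h
    · exact h.elim
    · obtain ⟨S, h1, h2, h3, h4⟩ := key u f h
      refine ⟨S, h1, h2, ?_⟩
      rintro (a | a) (b | b) hab ha hb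
      · exact hab.elim
      · obtain ⟨e1, e2⟩ := h3 a b hab ha hb
        rw [e1, e2]
        exact ⟨rfl, rfl⟩
      · exact absurd hb (h4 b a hab ha)
      · exact hab.elim
    · obtain ⟨S, h1, h2, h3, h4⟩ := key w e h
      refine ⟨Sᶜ, fun h => h h2, h1, ?_⟩
      rintro (a | a) (b | b) hab ha hb
      · exact hab.elim
      · exact absurd (not_not.mp ha) (h4 a b hab hb)
      · obtain ⟨e1, e2⟩ := h3 b a hab hb (not_not.mp ha)
        rw [e1, e2]
        exact ⟨rfl, rfl⟩
      · exact hab.elim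
    · exact h.elim
  have hsv : ∀ (v : V) (g : G), g • (Sum.inl v : V ⊕ X.edgeSet) = Sum.inl v ↔ g • v = v := by
    intro v g
    change Sum.inl (g • v) = Sum.inl v ↔ _
    exact Sum.inl_injective.eq_iff
  have hse : ∀ (e : X.edgeSet) (u v : V), e.1 = s(u, v) → ∀ g : G,
      (g • (Sum.inr e : V ⊕ X.edgeSet) = Sum.inr e ↔
        (g • u = u ∧ g • v = v) ∨ (g • u = v ∧ g • v = u)) := by
    intro e u v he g
    change Sum.inr (qsub_smul X hX g e) = Sum.inr e ↔ _
    rw [Sum.inr_injective.eq_iff, Subtype.ext_iff]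
    change Sym2.map (fun x => g • x) e.1 = e.1 ↔ _
    rw [he, Sym2.map_mk, Sym2.eq_iff]
  refine ⟨V ⊕ X.edgeSet, qsub_act (G := G) X hX, qsub_graph X, Sum.isLeft, hne.map Sum.inl,
    ⟨h2t1 _ _ hconn hcut, ?_, ?_, ?_⟩, ?_, ?_, ?_⟩
  · rintro g (v | e) (w | f) h
    · exact h.elim
    · change g • v ∈ Sym2.map (fun x => g • x) f.1
      rw [Sym2.mem_map]
      exact ⟨v, h, rfl⟩
    · change g • w ∈ Sym2.map (fun x => g • x) e.1
      rw [Sym2.mem_map]
      exact ⟨w, h, rfl⟩
    · exact h.elim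
  · rintro g (v | e)
    · rfl
    · rfl
  · rintro (v | e) (w | f) h
    · exact h.elim
    · simp
    · simp
    · exact h.elim
  · rintro (v | e)
    · exact Or.inl ⟨v, hsv v⟩
    · obtain ⟨u, v, huv, he⟩ := qsub_edge X e
      exact Or.inr ⟨u, v, huv, hse e u v he⟩
  · exact fun v => ⟨Sum.inl v, hsv v⟩
  · have key : ∀ (w : V) (e : X.edgeSet), w ∈ e.1 → ∃ u v : V, X.Adj u v ∧
        ∀ g : G, (g • (Sum.inl w : V ⊕ X.edgeSet) = Sum.inl w ∧
          g • (Sum.inr e : V ⊕ X.edgeSet) = Sum.inr e) ↔ (g • u = u ∧ g • v = v) := by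
      intro w e hw
      obtain ⟨v, hv⟩ := hw
      have hwv : X.Adj w v := by
        have := e.2
        rw [hv] at this
        simpa using this
      refine ⟨w, v, hwv, fun g => ?_⟩
      rw [hsv w g, hse e w v hv g]
      constructor
      · rintro ⟨h1, h2 | h2⟩
        · exact h2
        · exact absurd (h1.symm.trans h2.1) hwv.ne
      · rintro ⟨h1, h2⟩
        exact ⟨h1, Or.inl ⟨h1, h2⟩⟩
    rintro (u | e) (w | f) h
    · exact h.elim
    · exact key u f h
    · obtain ⟨u, v, huv, hg⟩ := key w e h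
      exact ⟨u, v, huv, fun g => by rw [← hg g, and_comm]⟩
    · exact h.elim

end Pool.Agent.CZ
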